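import Pool.Agent.L0h43.TG.Stm
import Pool.Agent.L0h10.GE.MAV

/-!
# Module MAVR: averages of the local factors for a large shift
-/

set_option autoImplicit false

namespace Pool.Agent.L0h43.TG

open Finset Filter Topology Pool.Agent.H387R2
open Pool.Agent.L0h43.TA Pool.Agent.L0h43.TB Pool.Agent.L0h43.TD

lemma cop_refl {W a b k : ℕ} (h : Nat.Coprime W a) (hab : a + b = k * W) : Nat.Coprime W b := by
  apply Nat.coprime_of_dvd
  intro p hp hpW hpb
  have h1 : p ∣ a + b := by rw [hab]; exact hpW.mul_left k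
  have h2 : p ∣ a := (Nat.dvd_add_left hpb).1 h1
  have h3 := Nat.dvd_gcd hpW h2
  rw [Nat.coprime_iff_gcd_eq_one.1 h] at h3
  exact hp.one_lt.ne' (Nat.dvd_one.1 h3)

theorem t_MAVR : S_MAVR := by
  intro r δ hδ
  obtain ⟨w0, hw01, HM⟩ := Pool.Agent.L0h10.GE.t_MAV r δ hδ
  refine ⟨w0, hw01, fun w hw W hW0 hW C0 hC0 => ?_⟩
  obtain ⟨H0, hH0⟩ := HM w hw W hW0 hW C0 hC0
  refine ⟨H0, fun H hH J ν u t M htM htu hM hlog => ?_⟩
  obtain ⟨c, hc⟩ : ∃ c, c = 2 * u + H + 1 := ⟨_, rfl⟩
  have hP0 : 0 < ∏ p ∈ Pw w J, p := prod_pos fun p hp => (Pw_prime hp).pos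
  obtain ⟨Q, hQ⟩ : ∃ Q, Q + 1 = 2 * ∏ p ∈ Pw w J, p := ⟨2 * (∏ p ∈ Pw w J, p) - 1, by omega⟩
  have hQ1 : 1 ≤ Q := by omega
  obtain ⟨t', ht'⟩ : ∃ t', t' = c + t * Q := ⟨_, rfl⟩
  obtain ⟨W', hW'⟩ : ∃ W', W = W' + 1 := ⟨W - 1, by omega⟩
  obtain ⟨ν', hν'⟩ : ∃ ν', ν' = (ν + c) * W' := ⟨_, rfl⟩
  have hz : ∀ p ∈ Pw w J, ((t' : ℕ) : ZMod p) = (c : ZMod p) - t := by
    intro p hp
    have h1 : ((Q + 1 : ℕ) : ZMod p) = 0 := by
      rw [ZMod.natCast_eq_zero_iff, hQ]
      exact (dvd_prod_of_mem _ hp).mul_left 2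
    push_cast at h1
    rw [ht']
    push_cast
    linear_combination (t : ZMod p) * h1
  have hcop : ∀ h : ℕ, h ≤ c → (Nat.Coprime W (ν + h) ↔ Nat.Coprime W (ν' + (c - h))) := by
    intro h hh
    have e : (ν + h) + (ν' + (c - h)) = (ν + c) * W := by
      rw [hν', hW']
      have : h + (c - h) = c := by omega
      calc (ν + h) + ((ν + c) * W' + (c - h)) = (ν + c) * W' + (ν + (h + (c - h))) := by ring
        _ = (ν + c) * (W' + 1) := by rw [this]; ring
    exact ⟨fun h1 => cop_refl h1 e, fun h1 => cop_refl h1 (by rw [add_comm]; exact e)⟩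
  have hmm : ∀ h : ℕ, h ≤ c → mm w J r (ds h t) = mm w J r (ds (c - h) t') := by
    intro h hh
    unfold mm
    have e : (Pw w J).filter (fun p => p ∣ ds h t) = (Pw w J).filter (fun p => p ∣ ds (c - h) t') := by
      apply filter_congr
      intro p hp
      rw [ds_dvd, ds_dvd, ← ZMod.natCast_eq_natCast_iff, ← ZMod.natCast_eq_natCast_iff, hz p hp, Nat.cast_sub hh]
      constructor
      · intro h1
        rw [h1]
      · intro h1
        exact (sub_right_injective h1)
    rw [e]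
  have hsum : ∑ h ∈ (Jv W ν u H).filter (fun h => h ≠ t), (mm w J r (ds h t) - 1) =
      ∑ h ∈ (Jv W ν' u H).filter (fun h => h ≠ t'), (mm w J r (ds h t') - 1) := by
    apply sum_nbij' (fun h => c - h) (fun h => c - h)
    · intro h hh
      unfold Jv at hh ⊢
      rw [mem_filter, mem_filter, mem_Ioc] at hh ⊢
      refine ⟨⟨⟨by omega, by omega⟩, (hcop h (by omega)).1 hh.1.2⟩, ?_⟩
      have : c ≤ t' := by rw [ht']; exact Nat.le_add_right _ _
      intro h1
      have h2 : t' + h = c := by omega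
      have h3 : t * Q + h = 0 := by rw [ht'] at h2; omega
      omega
    · intro h hh
      unfold Jv at hh ⊢
      rw [mem_filter, mem_filter, mem_Ioc] at hh ⊢
      refine ⟨⟨⟨by omega, by omega⟩, ?_⟩, by omega⟩
      rw [hcop (c - h) (by omega)]
      have : c - (c - h) = h := by omega
      rw [this]
      exact hh.1.2
    · intro h hh
      unfold Jv at hh
      rw [mem_filter, mem_filter, mem_Ioc] at hh
      have : c - (c - h) = h := by omega
      exact this
    · intro h hh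
      unfold Jv at hh
      rw [mem_filter, mem_filter, mem_Ioc] at hh
      have : c - (c - h) = h := by omega
      exact this
    · intro h hh
      unfold Jv at hh
      rw [mem_filter, mem_filter, mem_Ioc] at hh
      rw [hmm h (by omega)]
  rw [hsum]
  apply hH0 H hH J ν' u t' (M - c) (by omega)
  · intro p hp
    rw [← ZMod.natCast_eq_zero_iff]
    push_cast
    rw [hz p hp, Nat.cast_sub (by omega : c ≤ M)]
    have h1 := (ZMod.natCast_eq_natCast_iff _ _ _).2 (htM p hp)
    rw [← h1]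
    ring
  · intro h hh
    rw [mem_Ioc] at hh
    refine le_trans ?_ hlog
    apply Real.log_le_log
    · have : 0 < M - c + h := by omega
      exact_mod_cast this
    · have : M - c + h ≤ M := by omega
      exact_mod_cast this

end Pool.Agent.L0h43.TG
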