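import Pool.Agent.L0h43.TF.E0
import Pool.Agent.L0h43.TG.Mavr

/-!
# The averages of the local factors for shifts anywhere
-/

set_option autoImplicit false

namespace Pool.Agent.L0h43.TG

open Finset Filter Topology Pool.Agent.H387R2
open Pool.Agent.L0h43.TA Pool.Agent.L0h43.TB Pool.Agent.L0h43.TD Pool.Agent.L0h43.TF
open Pool.Agent.H386R2.HL

/-- a small shift, or a shift `≡ - M`, or a large shift `≡ M`, modulo all the primes `< N ^ (1 / 16)` -/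
def Gd (N : ℕ) (A : ℝ) (t : ℕ) : Prop :=
  (t : ℝ) ≤ Real.log N ^ (A + 1) ∨
  (∃ M : ℕ, 1 ≤ M ∧ M ≤ N ^ 2 ∧ ∀ p : ℕ, p.Prime → (p : ℝ) < (N : ℝ) ^ (1 / 16 : ℝ) → p ∣ t + M) ∨
  (Real.log N ^ (A + 1) ≤ t ∧ ∃ M : ℕ, Real.log N ^ (A + 1) ≤ M ∧ M ≤ N ^ 2 ∧
    ∀ p : ℕ, p.Prime → (p : ℝ) < (N : ℝ) ^ (1 / 16 : ℝ) → t ≡ M [MOD p])

theorem m_avgG (hMAV : S_MAV) (r : ℕ) (δ : ℝ) (hδ : 0 < δ) : ∃ w0 : ℕ, 1 ≤ w0 ∧ ∀ w : ℕ, w0 ≤ w → ∀ W : ℕ, 0 < W →
    (∀ p : ℕ, p.Prime → (p ∣ W ↔ p ≤ w)) → ∀ A : ℝ, 0 ≤ A → ∃ N₀ : ℕ, ∀ N : ℕ, N₀ ≤ N → ∀ H : ℕ,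
      Real.log N ≤ H → ∀ J ν u t : ℕ, (2 : ℝ) ^ 2 ^ J ≤ (N : ℝ) ^ (1 / 256 : ℝ) →
      ((u + H : ℕ) : ℝ) ≤ Real.log N ^ A → Gd N A t →
      ∑ h ∈ (Jv W ν u H).filter (fun h => h ≠ t), (mm w J r (ds h t) - 1) ≤
        δ * ((Nat.totient W : ℝ) / W * H) := by
  obtain ⟨w1, hw11, hw1⟩ := m_avg r δ hδ
  obtain ⟨w2, hw21, hw2⟩ := hMAV r δ hδ
  obtain ⟨w3, hw31, hw3⟩ := t_MAVR r δ hδ
  refine ⟨max w1 (max w2 w3), hw11.trans (le_max_left _ _), fun w hw W hW0 hW A hA => ?_⟩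
  obtain ⟨H1, hH1⟩ := hw1 w ((le_max_left _ _).trans hw) W hW0 hW (A + 1) (by linarith)
  obtain ⟨H2, hH2⟩ := hw2 w (((le_max_left _ _).trans (le_max_right _ _)).trans hw) W hW0 hW 3 (by norm_num)
  obtain ⟨H3, hH3⟩ := hw3 w (((le_max_right _ _).trans (le_max_right _ _)).trans hw) W hW0 hW 3 (by norm_num)
  have tN : Tendsto (fun N : ℕ => (N : ℝ)) atTop atTop := tendsto_natCast_atTop_atTop
  have tL : Tendsto (fun N : ℕ => Real.log (N : ℝ)) atTop atTop := Real.tendsto_log_atTop.comp tN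
  have hsm : ∀ᶠ N : ℕ in atTop, Real.log N ^ A ≤ 1 / 2 * (N : ℝ) ^ (1 : ℝ) := by
    have h := (isLittleO_log_rpow_rpow_atTop A (s := 1) one_pos).def (show (0 : ℝ) < 1 / 2 by norm_num)
    filter_upwards [tN.eventually h, tL.eventually_ge_atTop 0] with N h1 h2
    rw [Real.norm_of_nonneg (by positivity), Real.norm_of_nonneg (by positivity)] at h1
    exact h1
  obtain ⟨N₀, hN₀⟩ := eventually_atTop.1 (hsm.and ((tL.eventually_ge_atTop (max 4 (max (H1 : ℝ) (max (H2 : ℝ) H3)))).and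
    (eventually_ge_atTop 3)))
  refine ⟨N₀, fun N hN H hLH J ν u t hJ huH ht => ?_⟩
  obtain ⟨l1, l2, l3⟩ := hN₀ N hN
  rw [Real.rpow_one] at l1
  have hL1 : 4 ≤ Real.log N := (le_max_left _ _).trans l2
  have hLH1 : (H1 : ℝ) ≤ Real.log N := ((le_max_left _ _).trans (le_max_right _ _)).trans l2
  have hLH2 : (H2 : ℝ) ≤ Real.log N := ((le_max_left _ _).trans ((le_max_right _ _).trans (le_max_right _ _))).trans l2
  have hLH3 : (H3 : ℝ) ≤ Real.log N := ((le_max_right _ _).trans ((le_max_right _ _).trans (le_max_right _ _))).trans l2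
  have hN3 : (3 : ℝ) ≤ N := by exact_mod_cast l3
  have hHH1 : H1 ≤ H := by exact_mod_cast hLH1.trans hLH
  have hHH2 : H2 ≤ H := by exact_mod_cast hLH2.trans hLH
  have hHH3 : H3 ≤ H := by exact_mod_cast hLH3.trans hLH
  have hLA1 : 1 ≤ Real.log N ^ A := Real.one_le_rpow (by linarith) hA
  have hLA4 : 4 * Real.log N ^ A ≤ Real.log N ^ (A + 1) := by
    rw [Real.rpow_add (by linarith), Real.rpow_one, mul_comm]
    exact mul_le_mul_of_nonneg_left hL1 (by linarith)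
  have hhI : ∀ h ∈ Ioc u (u + H), (h : ℝ) ≤ Real.log N ^ A := by
    intro h hh
    have h2 : (h : ℝ) ≤ ((u + H : ℕ) : ℝ) := by exact_mod_cast (mem_Ioc.1 hh).2
    exact h2.trans huH
  have hpJ : ∀ p ∈ Pw w J, (p : ℝ) < (N : ℝ) ^ (1 / 16 : ℝ) := by
    intro p hp2
    have h3 : (p : ℝ) < ((2 ^ 2 ^ J : ℕ) : ℝ) := by exact_mod_cast Pw_lt hp2
    push_cast at h3
    refine (h3.trans_le hJ).trans_le ?_
    exact Real.rpow_le_rpow_of_exponent_le (by linarith) (by norm_num)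
  have hlogN : 2 * Real.log N = Real.log ((N : ℝ) ^ 2) := by rw [Real.log_pow]; norm_num
  rcases ht with ht | ⟨M, hM1, hM2, hp⟩ | ⟨ht, M, hM1, hM2, hp⟩
  · apply hH1 H hHH1 J ν u t
    intro h hh
    have hLAHA : Real.log N ^ (A + 1) ≤ (H : ℝ) ^ (A + 1) := Real.rpow_le_rpow (by linarith) hLH (by linarith)
    have h4 : ds h t ≤ max h t := by
      unfold ds
      omega
    have h5 : ((ds h t : ℕ) : ℝ) ≤ ((max h t : ℕ) : ℝ) := by exact_mod_cast h4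
    refine h5.trans ?_
    rw [Nat.cast_max]
    exact max_le (((hhI h hh).trans (by linarith)).trans hLAHA) (ht.trans hLAHA)
  · apply hH2 H hHH2 J ν u t M hM1
    · intro p hp2
      exact hp p (Pw_prime hp2) (hpJ p hp2)
    · intro h hh
      have hM2R : (M : ℝ) ≤ (N : ℝ) ^ 2 := by exact_mod_cast hM2
      have h3 : ((M + h : ℕ) : ℝ) ≤ (N : ℝ) ^ 3 := by
        push_cast
        have := hhI h hh
        nlinarith [sq_nonneg (N : ℝ)]
      have h4 : (0 : ℝ) < ((M + h : ℕ) : ℝ) := by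
        have : 0 < M + h := by omega
        exact_mod_cast this
      calc Real.log ((M + h : ℕ) : ℝ) ≤ Real.log ((N : ℝ) ^ 3) := Real.log_le_log h4 h3
        _ = 3 * Real.log N := by rw [Real.log_pow]; norm_num
        _ ≤ 3 * H := by linarith
  · have hM2R : (M : ℝ) ≤ (N : ℝ) ^ 2 := by exact_mod_cast hM2
    have hM0 : (0 : ℝ) < M := by linarith
    apply hH3 H hHH3 J ν u t M
    · intro p hp2
      exact hp p (Pw_prime hp2) (hpJ p hp2)
    · have h5 : ((u + H : ℕ) : ℝ) < t := by linarith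
      exact_mod_cast h5
    · have h5 : ((2 * u + H + 1 : ℕ) : ℝ) < M := by
        have h6 : ((u + H : ℕ) : ℝ) = u + H := by push_cast; ring
        rw [h6] at huH
        have h7 : (0 : ℝ) ≤ H := Nat.cast_nonneg _
        push_cast
        linarith
      exact_mod_cast h5
    · calc Real.log (M : ℝ) ≤ Real.log ((N : ℝ) ^ 2) := Real.log_le_log hM0 hM2R
        _ = 2 * Real.log N := by rw [Real.log_pow]; norm_num
        _ ≤ 3 * H := by linarith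

end Pool.Agent.L0h43.TG
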