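import Pool.Agent.L0h43.TG.Fin

/-!
# Every difference up to `N`, windows anywhere: the primes in a class
-/

set_option autoImplicit false

namespace Pool.Agent.L0h43.TG

open Finset Filter Topology Pool.Agent.H387R2
open Pool.Agent.L0h43.TA Pool.Agent.L0h43.TB Pool.Agent.L0h43.TD Pool.Agent.L0h43.TF
open Pool.Agent.H386R2.HL
open Pool.Agent.L0h43.TE (FS FS_ins FS_empty FS_sub sdiff_un Jv_pow OK_union)

lemma LT_le_R {M w b : ℕ} (hw : 3 ≤ w) (hb1 : 1 ≤ b) :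
    Pool.Agent.L0h43.TF.LT w (J0 M) {0, b} ≤ ∏ p ∈ b.primeFactors.filter (fun p => w < p), (1 - 1 / (p : ℝ))⁻¹ := by
  classical
  have h3 : Pool.Agent.L0h43.TF.LT w (J0 M) {0, b} ≤
      ∏ p ∈ Pw w (J0 M), (if p ∣ ds 0 b then (1 - 1 / (p : ℝ))⁻¹ else 1) := by
    unfold Pool.Agent.L0h43.TF.LT
    apply Finset.prod_le_prod
    · intro p hp
      exact Pool.Agent.Helper22K9.Trp.locT_nonneg _ (Pw_prime hp)
    · intro p hp
      have := Pw_gt hp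
      exact loc_pair_up (by omega) (by omega)
  refine h3.trans ?_
  rw [← prod_filter]
  have hsub : (Pw w (J0 M)).filter (fun p => p ∣ ds 0 b) ⊆ b.primeFactors.filter (fun p => w < p) := by
    intro p hp
    rw [mem_filter] at hp
    rw [mem_filter, Nat.mem_primeFactors]
    have h7 := hp.2
    unfold ds at h7
    rw [Nat.zero_sub, Nat.sub_zero, Nat.zero_add] at h7
    exact ⟨⟨Pw_prime hp.1, h7, by omega⟩, Pw_gt hp.1⟩
  rw [← prod_sdiff hsub]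
  apply le_mul_of_one_le_left
  · apply prod_nonneg
    intro p hp
    have := inv_fac_ge (Pw_prime (mem_filter.1 hp).1)
    linarith
  · apply one_le_prodR
    intro p hp
    rw [Finset.mem_sdiff, mem_filter, Nat.mem_primeFactors] at hp
    exact inv_fac_ge hp.1.1.1

lemma Fb_split {N w b : ℕ} (hb1 : 1 ≤ b) : Fb N w b = N / Real.log N ^ 2 *
    (((Uni.WW w : ℝ) / Nat.totient (Uni.WW w)) ^ 2 * (1 / (Uni.WW w : ℝ)) *
      ∏ p ∈ b.primeFactors.filter (fun p => w < p), (1 - 1 / (p : ℝ))⁻¹) := by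
  have hW : (0 : ℝ) < Uni.WW w := by exact_mod_cast (Uni.WW_pos w)
  have hφ : (0 : ℝ) < Nat.totient (Uni.WW w) := by exact_mod_cast Nat.totient_pos.2 (Uni.WW_pos w)
  unfold Fb
  rw [WN_split (by omega)]
  field_simp

/-- the primes `n ≡ ν` with `n + b` an almost prime, above `√M` -/
noncomputable def Sn (N M W ν b : ℕ) : Finset ℕ := (DP N W ν b).filter (fun n => Nat.sqrt M < n)

lemma Sn_low : ∃ κ : ℝ, 0 < κ ∧ κ ≤ 1 ∧ ∀ w : ℕ, 8 ≤ w → ∃ N₀ : ℕ, ∀ N : ℕ, N₀ ≤ N → ∀ b : ℕ, 1 ≤ b →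
    b ≤ N → Even b → ∀ ν : ℕ, ν < Uni.WW w → OK (Uni.WW w) ν {0, b} →
    κ * Fb N w b ≤ ((Sn N (2 * N) (Uni.WW w) ν b).card : ℝ) := by
  classical
  obtain ⟨κ, hκ0, hκ1, H⟩ := Pool.Agent.L0h10.UX.t_DBL
  refine ⟨κ / 2, by positivity, by linarith, fun w hw => ?_⟩
  obtain ⟨N1, h1⟩ := H w hw
  have hWpos : 0 < Uni.WW w := Uni.WW_pos w
  have hW0 : (0 : ℝ) < Uni.WW w := by exact_mod_cast hWpos
  have hφ0 : (0 : ℝ) < Nat.totient (Uni.WW w) := by exact_mod_cast Nat.totient_pos.2 hWpos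
  have tN : Tendsto (fun N : ℕ => (N : ℝ)) atTop atTop := tendsto_natCast_atTop_atTop
  have tL : Tendsto (fun N : ℕ => Real.log (N : ℝ)) atTop atTop := Real.tendsto_log_atTop.comp tN
  have hδ : 0 < κ / (4 * Nat.totient (Uni.WW w)) := by positivity
  have hsm : ∀ᶠ N : ℕ in atTop, Real.log N ^ (2 : ℝ) ≤ κ / (4 * Nat.totient (Uni.WW w)) * (N : ℝ) ^ (1 / 2 : ℝ) := by
    have h := (isLittleO_log_rpow_rpow_atTop 2 (s := 1 / 2) (by norm_num)).def hδ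
    filter_upwards [tN.eventually h, tL.eventually_ge_atTop 0] with N h1 h2
    rw [Real.norm_of_nonneg (by positivity), Real.norm_of_nonneg (by positivity)] at h1
    exact h1
  obtain ⟨N₀, hN₀⟩ := eventually_atTop.1 (hsm.and ((tL.eventually_ge_atTop 1).and
    (eventually_ge_atTop (max N1 3))))
  refine ⟨N₀, fun N hN b hb1 hbN he ν hν hOK => ?_⟩
  obtain ⟨l0, l1, l3⟩ := hN₀ N hN
  have hNN1 : N1 ≤ N := (le_max_left _ _).trans l3
  have hN3 : 3 ≤ N := (le_max_right _ _).trans l3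
  have hN1R : (3 : ℝ) ≤ N := by exact_mod_cast hN3
  have hN0 : (0 : ℝ) < N := by linarith
  have hL0 : 0 < Real.log (N : ℝ) := by linarith
  have hc0 := hOK 0 (by rw [mem_insert]; exact Or.inl rfl)
  have hcs := hOK b (by rw [mem_insert, mem_singleton]; exact Or.inr rfl)
  rw [add_zero] at hc0
  have h2 := h1 N hNN1 b hb1 hbN he ν hν hc0 hcs
  have hGP : (DP N (Uni.WW w) ν b).card ≤ (Sn N (2 * N) (Uni.WW w) ν b).card + (Nat.sqrt (2 * N) - Nat.sqrt N) := by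
    have h3 : DP N (Uni.WW w) ν b ⊆ Sn N (2 * N) (Uni.WW w) ν b ∪ Ioc (Nat.sqrt N) (Nat.sqrt (2 * N)) := by
      intro n hn
      rw [mem_union, mem_Ioc]
      unfold Sn
      rw [mem_filter]
      by_cases h4 : Nat.sqrt (2 * N) < n
      · left
        exact ⟨hn, h4⟩
      · right
        unfold DP at hn
        rw [mem_filter, mem_Ioc] at hn
        omega
    have h4 := (card_le_card h3).trans (card_union_le _ _)
    rw [Nat.card_Ioc] at h4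
    exact h4
  have hGP' : ((DP N (Uni.WW w) ν b).card : ℝ) ≤ ((Sn N (2 * N) (Uni.WW w) ν b).card : ℝ) +
      ((Nat.sqrt (2 * N) - Nat.sqrt N : ℕ) : ℝ) := by exact_mod_cast hGP
  have hF : Fb N w b = N / Real.log N ^ 2 / Nat.totient (Uni.WW w) *
      (((Uni.WW w * b : ℕ) : ℝ) / Nat.totient (Uni.WW w * b)) := rfl
  rw [← hF] at h2
  have hF1 : N / Real.log N ^ 2 / Nat.totient (Uni.WW w) ≤ Fb N w b := by
    rw [hF]
    apply le_mul_of_one_le_right (by positivity)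
    have h6 : 0 < Uni.WW w * b := Nat.mul_pos hWpos (by omega)
    have h7 : (0 : ℝ) < Nat.totient (Uni.WW w * b) := by exact_mod_cast Nat.totient_pos.2 h6
    rw [one_le_div h7]
    exact_mod_cast Nat.totient_le _
  have hs : ((Nat.sqrt (2 * N) - Nat.sqrt N : ℕ) : ℝ) ≤ 2 * (N : ℝ) ^ (1 / 2 : ℝ) := by
    have h5 : ((Nat.sqrt (2 * N) - Nat.sqrt N : ℕ) : ℝ) ≤ (Nat.sqrt (2 * N) : ℝ) := by
      exact_mod_cast Nat.sub_le _ _
    refine h5.trans ?_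
    have h6 : (Nat.sqrt (2 * N) : ℝ) ≤ √((2 * N : ℕ) : ℝ) := Real.nat_sqrt_le_real_sqrt
    refine h6.trans ?_
    have h7 : √((2 * N : ℕ) : ℝ) ≤ √(4 * N) := by
      apply Real.sqrt_le_sqrt
      push_cast
      linarith
    refine h7.trans (le_of_eq ?_)
    rw [Real.sqrt_mul (by norm_num), ← Real.sqrt_eq_rpow]
    congr 1
    rw [show (4 : ℝ) = 2 ^ 2 by norm_num, Real.sqrt_sq (by norm_num)]
  have hs2 : 2 * (N : ℝ) ^ (1 / 2 : ℝ) ≤ κ / 2 * (N / Real.log N ^ 2 / Nat.totient (Uni.WW w)) := by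
    have e1 : κ / 2 * (N / Real.log N ^ 2 / Nat.totient (Uni.WW w)) =
        (κ * N) / (2 * (Real.log N ^ 2 * Nat.totient (Uni.WW w))) := by field_simp
    rw [e1, le_div_iff₀ (by positivity)]
    have e2 : Real.log (N : ℝ) ^ (2 : ℝ) = Real.log N ^ 2 := by
      rw [← Real.rpow_natCast]; norm_num
    rw [e2] at l0
    have h8 := mul_le_mul_of_nonneg_left l0 (show 0 ≤ 4 * (Nat.totient (Uni.WW w) : ℝ) * (N : ℝ) ^ (1 / 2 : ℝ) by positivity)
    have h9 : (N : ℝ) ^ (1 / 2 : ℝ) * (N : ℝ) ^ (1 / 2 : ℝ) = N := by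
      rw [← Real.rpow_add hN0]; norm_num
    calc 2 * (N : ℝ) ^ (1 / 2 : ℝ) * (2 * (Real.log N ^ 2 * Nat.totient (Uni.WW w))) =
        4 * (Nat.totient (Uni.WW w) : ℝ) * (N : ℝ) ^ (1 / 2 : ℝ) * Real.log N ^ 2 := by ring
      _ ≤ 4 * (Nat.totient (Uni.WW w) : ℝ) * (N : ℝ) ^ (1 / 2 : ℝ) *
          (κ / (4 * Nat.totient (Uni.WW w)) * (N : ℝ) ^ (1 / 2 : ℝ)) := h8
      _ = κ * ((N : ℝ) ^ (1 / 2 : ℝ) * (N : ℝ) ^ (1 / 2 : ℝ)) := by field_simp
      _ = κ * N := by rw [h9]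
  have h10 : κ / 2 * (N / Real.log N ^ 2 / Nat.totient (Uni.WW w)) ≤ κ / 2 * Fb N w b :=
    mul_le_mul_of_nonneg_left hF1 (by positivity)
  linarith

open Classical in
/-- the primes `p ≤ N` with `p + b` and the `p + d` almost primes -/
noncomputable def cU (N b : ℕ) (D : Finset ℕ) : ℕ :=
  ((Icc 1 N).filter (fun p => p.Prime ∧ AP N (p + b) ∧ ∀ d ∈ D, AP N (p + d))).card

lemma AP_up {N M m : ℕ} (h : N ≤ M) (hm : AP M m) : AP N m := by
  refine ⟨hm.1, fun p hp hpm => le_trans ?_ (hm.2 p hp hpm)⟩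
  exact Real.rpow_le_rpow (Nat.cast_nonneg _) (by exact_mod_cast h) (by norm_num)

lemma FS_fiber {N M W b : ℕ} (hNM : N ≤ M) (hW : 0 < W) (D : Finset ℕ) (a : ℕ → Prop) [DecidablePred a] :
    ∑ ν ∈ (range W).filter a, ((FS M (Sn N M W ν b) D).card : ℝ) ≤ (cU N b D : ℝ) := by
  classical
  have h1 : cU N b D = ∑ ν ∈ range W, (((Icc 1 N).filter (fun n => n % W = ν)).filter
      (fun p => p.Prime ∧ AP N (p + b) ∧ ∀ d ∈ D, AP N (p + d))).card := by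
    unfold cU
    exact fiber_sum (Icc 1 N) hW _
  rw [h1, Nat.cast_sum]
  refine (sum_le_sum_of_subset_of_nonneg (filter_subset a _) (fun _ _ _ => Nat.cast_nonneg _)).trans ?_
  apply sum_le_sum
  intro ν _
  rw [Nat.cast_le]
  apply card_le_card
  intro n hn
  unfold FS Sn DP at hn
  simp only [mem_filter, mem_Ioc] at hn
  obtain ⟨⟨⟨h2, h3, h4, h5⟩, h6⟩, h7⟩ := hn
  rw [mem_filter, mem_filter, mem_Icc]
  exact ⟨⟨⟨by omega, h2.2⟩, h3⟩, h4, h5, fun d hd => AP_up hNM (h7 d hd)⟩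

lemma Sn_cond {N M W ν b v : ℕ} (hMN : M = 2 * N) (hvN : v ≤ N)
    (h3 : (M : ℝ) ^ (1 / 16 : ℝ) ≤ (N : ℝ) ^ (3 / 25 : ℝ)) (hsq : (M : ℝ) ^ (1 / 16 : ℝ) ≤ Nat.sqrt M) :
    ∀ n ∈ Sn N M W ν b, Nat.sqrt M < n ∧ n + v ≤ M ∧ n % W = ν ∧
        ∀ t ∈ ({0, b} : Finset ℕ), ∀ p : ℕ, p.Prime → p ∣ n + t → (M : ℝ) ^ (1 / 16 : ℝ) ≤ p := by
  intro n hn
  unfold Sn DP at hn
  simp only [mem_filter, mem_Ioc] at hn
  obtain ⟨⟨h1, h2, h4, h5⟩, h6⟩ := hn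
  refine ⟨h6, by omega, h2, fun t ht p hp hpd => ?_⟩
  rw [mem_insert, mem_singleton] at ht
  rcases ht with rfl | rfl
  · rw [add_zero] at hpd
    rw [(Nat.prime_dvd_prime_iff_eq hp h4).1 hpd]
    have : ((Nat.sqrt M : ℕ) : ℝ) ≤ n := by exact_mod_cast h6.le
    linarith
  · exact h3.trans (h5.2 p hp hpd)

lemma swap2 (R : Finset ℕ) (P : Finset (Finset ℕ)) (a : ℕ → Prop) (b : ℕ → Finset ℕ → Prop)
    (c : ℕ → Finset ℕ → Prop) [DecidablePred a] [∀ ν, DecidablePred (b ν)] [∀ ν D, Decidable (c ν D)]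
    (h : ∀ ν D, c ν D ↔ a ν ∧ b ν D) (f : ℕ → Finset ℕ → ℝ) :
    ∑ ν ∈ R.filter a, ∑ D ∈ P.filter (b ν), f ν D = ∑ D ∈ P, ∑ ν ∈ R.filter (fun ν => c ν D), f ν D := by
  simp only [sum_filter]
  rw [sum_comm]
  conv_rhs => rw [sum_comm]
  rw [sum_comm]
  apply sum_congr rfl
  intro ν _
  by_cases ha : a ν
  · rw [if_pos ha]
    apply sum_congr rfl
    intro D _
    by_cases hb : b ν D
    · rw [if_pos hb, if_pos ((h ν D).2 ⟨ha, hb⟩)]
    · rw [if_neg hb, if_neg (fun hc => hb ((h ν D).1 hc).2)]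
  · rw [if_neg ha]
    symm
    apply sum_eq_zero
    intro D _
    rw [if_neg (fun hc => ha ((h ν D).1 hc).1)]

end Pool.Agent.L0h43.TG
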