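import Pool.Agent.L0h43.TG.Tail
import Pool.Agent.L0h43.TE.Fin
import Pool.Agent.L0h43.TD.Nbr
import Pool.Agent.L0h10.UX.DBL

/-!
# Every difference up to `N`, windows anywhere: the tail of the truncated singular series
-/

set_option autoImplicit false

namespace Pool.Agent.L0h43.TG

open Finset Filter Topology Pool.Agent.H387R2
open Pool.Agent.L0h43.TA Pool.Agent.L0h43.TB Pool.Agent.L0h43.TD Pool.Agent.L0h43.TF
open Pool.Agent.H386R2.HL
open Pool.Agent.L0h43.TE (FS FS_ins FS_empty FS_sub sdiff_un Jv_pow OK_union)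

lemma LT_img {M w v : ℕ} {T : Finset ℕ} (h2 : (2 : ℝ) ≤ (M : ℝ) ^ (1 / 256 : ℝ)) (hM1 : 1 ≤ M)
    (hT : ∀ t ∈ T, t ≤ M) : Pool.Agent.L0h43.TF.LT w (J0 M) (T.image (fs M v)) =
      Pool.Agent.L0h43.TF.LT w (J0 M) T := by
  classical
  have hMR : (1 : ℝ) ≤ M := by exact_mod_cast hM1
  have h16 : (M : ℝ) ^ (1 / 256 : ℝ) ≤ (M : ℝ) ^ (1 / 16 : ℝ) :=
    Real.rpow_le_rpow_of_exponent_le hMR (by norm_num)
  have hpr : ∀ p ∈ Pw w (J0 M), (p : ℝ) < (M : ℝ) ^ (1 / 16 : ℝ) := by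
    intro p hp
    have h3 : (p : ℝ) < ((2 ^ 2 ^ J0 M : ℕ) : ℝ) := by exact_mod_cast Pw_lt hp
    push_cast at h3
    exact (h3.trans_le (J0_le h2)).trans_le h16
  unfold Pool.Agent.L0h43.TF.LT
  apply prod_congr rfl
  intro p hp
  unfold Uni.locT
  rw [fs_nuT _ (Pw_prime hp) (hpr p hp), fs_card hT]

/-- few sets of shifts have a large truncated singular series -/
theorem tailL (j k : ℕ) (η : ℝ) (hη : 0 < η) : ∃ w0 : ℕ, ∀ w : ℕ, w0 ≤ w → ∀ A : ℝ, 0 ≤ A → ∃ M₀ : ℕ,
    ∀ M : ℕ, M₀ ≤ M → ∀ B : Finset ℕ, B.card = j → (∀ t ∈ B, t ≤ M) → ∀ ν v H : ℕ, v + H ≤ M →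
      Real.log M ≤ H → (H : ℝ) ≤ Real.log M ^ A →
      ((((Jv (Uni.WW w) ν v H \ B).powersetCard k).filter (fun D =>
        2 * Pool.Agent.L0h43.TF.LT w (J0 M) B < Pool.Agent.L0h43.TF.LT w (J0 M) (B ∪ D))).card : ℝ) ≤
      η * ((Nat.totient (Uni.WW w) : ℝ) / Uni.WW w * H) ^ k := by
  classical
  obtain ⟨C, hC⟩ : ∃ C : ℝ, C = ((k : ℝ) + 2 * k * (j + k) + 1) * 2 ^ k := ⟨_, rfl⟩
  have hj0 : (0 : ℝ) ≤ j := Nat.cast_nonneg _
  have hk0 : (0 : ℝ) ≤ k := Nat.cast_nonneg _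
  have h2k : (1 : ℝ) ≤ 2 ^ k := one_le_pow₀ (by norm_num)
  have hC0 : 0 < C := by rw [hC]; positivity
  have hjk : 0 ≤ 2 * (k : ℝ) * (j + k) := by positivity
  have hC1 : (k : ℝ) + 2 * k * (j + k) + 1 ≤ C := by
    rw [hC]; exact le_mul_of_one_le_right (by positivity) h2k
  obtain ⟨δ, hδ⟩ : ∃ δ : ℝ, δ = min 1 η / C := ⟨_, rfl⟩
  have hm0 : 0 < min 1 η := lt_min one_pos hη
  have hδ0 : 0 < δ := by rw [hδ]; positivity
  have hδC : δ * C = min 1 η := by rw [hδ]; field_simp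
  have hδC1 : δ * C ≤ 1 := by rw [hδC]; exact min_le_left _ _
  have hδCη : δ * C ≤ η := by rw [hδC]; exact min_le_right _ _
  have hd1 : δ * ((k : ℝ) + 2 * k * (j + k) + 1) ≤ 1 := (mul_le_mul_of_nonneg_left hC1 hδ0.le).trans hδC1
  have hδk : 2 * (k : ℝ) * (j + k) * δ ≤ 1 := by nlinarith [mul_nonneg hδ0.le hk0]
  have hδ1 : (k : ℝ) * δ ≤ 1 := by nlinarith [mul_nonneg hδ0.le hjk]
  obtain ⟨w1, hw11, hw1⟩ := m_avgG Pool.Agent.L0h10.GE.t_MAV (2 * (j + k)) δ hδ0
  refine ⟨max w1 (max (⌈4 * ((j + k : ℕ) : ℝ) / δ⌉₊) (max (4 * (j + k + 1)) (2 * j ^ 2 + 1))), fun w hw A hA => ?_⟩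
  have hww1 : w1 ≤ w := (le_max_left _ _).trans hw
  have hw2 : ⌈4 * ((j + k : ℕ) : ℝ) / δ⌉₊ ≤ w := ((le_max_left _ _).trans (le_max_right _ _)).trans hw
  have hw3 : 4 * (j + k + 1) ≤ w :=
    ((le_max_left _ _).trans ((le_max_right _ _).trans (le_max_right _ _))).trans hw
  have hw4 : 2 * j ^ 2 + 1 ≤ w :=
    ((le_max_right _ _).trans ((le_max_right _ _).trans (le_max_right _ _))).trans hw
  have hw0R : (0 : ℝ) < w := by exact_mod_cast (by omega : 0 < w)
  have hw2' : 4 * ((j + k : ℕ) : ℝ) ≤ δ * w := by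
    have h1 : 4 * ((j + k : ℕ) : ℝ) / δ ≤ w := (Nat.le_ceil _).trans (by exact_mod_cast hw2)
    rw [div_le_iff₀ hδ0] at h1
    linarith
  obtain ⟨W, hW⟩ : ∃ W, W = Uni.WW w := ⟨_, rfl⟩
  have hWpos : 0 < W := by rw [hW]; exact Uni.WW_pos w
  have hW0 : (0 : ℝ) < W := by exact_mod_cast hWpos
  have hφ0 : (0 : ℝ) < Nat.totient W := by exact_mod_cast Nat.totient_pos.2 hWpos
  obtain ⟨M1, hM1⟩ := hw1 w hww1 W hWpos (by rw [hW]; exact fun p hp => dvd_WW hp) A hA
  rw [← hW]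
  have tN : Tendsto (fun N : ℕ => (N : ℝ)) atTop atTop := tendsto_natCast_atTop_atTop
  have tL : Tendsto (fun N : ℕ => Real.log (N : ℝ)) atTop atTop := Real.tendsto_log_atTop.comp tN
  have tp : Tendsto (fun N : ℕ => (N : ℝ) ^ (1 / 256 : ℝ)) atTop atTop :=
    (tendsto_rpow_atTop (by norm_num)).comp tN
  obtain ⟨M₀, hM₀⟩ := eventually_atTop.1 ((tL.eventually_ge_atTop (max 1 (W : ℝ))).and
    ((tp.eventually_ge_atTop 2).and (eventually_ge_atTop (max M1 3))))
  refine ⟨M₀, fun M hM B hB hBM ν v H hvH hLH hHA => ?_⟩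
  obtain ⟨l1, l2, l3⟩ := hM₀ M hM
  have hL1 : 1 ≤ Real.log M := (le_max_left _ _).trans l1
  have hLW : (W : ℝ) ≤ Real.log M := (le_max_right _ _).trans l1
  have hMM1 : M1 ≤ M := (le_max_left _ _).trans l3
  have hM3 : 3 ≤ M := (le_max_right _ _).trans l3
  have hvM : v ≤ M := by omega
  obtain ⟨Φ, hΦ⟩ : ∃ Φ : ℝ, Φ = (Nat.totient W : ℝ) / W * H := ⟨_, rfl⟩
  have hΦ0 : 0 ≤ Φ := by rw [hΦ]; positivity
  rw [← hΦ]
  obtain ⟨f, hf⟩ : ∃ f : Finset ℕ → ℝ,
      f = fun D => Pool.Agent.L0h43.TF.LT w (J0 M) (B.image (fs M v) ∪ D) := ⟨_, rfl⟩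
  obtain ⟨J, hJ⟩ : ∃ J, J = Jv W ((ν + v) % W) 0 H \ B.image (fs M v) := ⟨_, rfl⟩
  have hf0 : ∀ D, 0 ≤ f D := by intro D; rw [hf]; exact LT_nonneg _ _ _
  have hBc : (B.image (fs M v)).card = j := by rw [fs_card hBM, hB]
  have hfe : f ∅ = Pool.Agent.L0h43.TF.LT w (J0 M) B := by
    rw [hf]
    simp only
    rw [union_empty, LT_img l2 (by omega) hBM]
  have hfpos : 0 < f ∅ := by
    rw [hfe]
    have := LT_ge (w := w) (J := J0 M) B (by omega) (by rw [hB]; omega)
    linarith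
  have hJc : (J.card : ℝ) ≤ 2 * Φ := by
    have h1 := Jv_card_le (ν := (ν + v) % W) (u := 0) (H := H) hWpos (B.image (fs M v))
    rw [← hJ] at h1
    have h2 : (W : ℝ) / Nat.totient W * (J.card : ℝ) ≤ (W : ℝ) / Nat.totient W * (2 * Φ) := by
      refine h1.trans ?_
      have e1 : (W : ℝ) / Nat.totient W * (2 * Φ) = 2 * H := by rw [hΦ]; field_simp
      rw [e1]
      linarith
    exact le_of_mul_le_mul_left h2 (by positivity)
  have hJsub : J ⊆ Jv W ((ν + v) % W) 0 H := by rw [hJ]; exact sdiff_subset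
  have hdisj : ∀ D ⊆ J, D.card ≤ k → (B.image (fs M v) ∪ D).card ≤ j + k := by
    intro D _ hDk
    have := card_union_le (B.image (fs M v)) D
    omega
  have htot : ∀ D ⊆ J, D.card < k → ∑ x ∈ J \ D, f (insert x D) ≤
      f D * (((J \ D).card : ℝ) + (j + D.card) * (δ * Φ)) := by
    intro D hD hDk
    have h1 := LT_total (w := w) (J := J0 M) (r := j + k) (T := B.image (fs M v) ∪ D) (R := J \ D)
      (sdiff_subset.trans hJsub) (by
        rw [disjoint_left]
        intro x hx hx2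
        rw [Finset.mem_sdiff] at hx
        rcases mem_union.1 hx2 with h | h
        · rw [hJ, Finset.mem_sdiff] at hx
          exact hx.1.2 h
        · exact hx.2 h) (hdisj D hD hDk.le) (c := δ * Φ) (by
        intro t ht
        rw [hΦ]
        apply hM1 M hMM1 H hLH (J0 M) ((ν + v) % W) 0 t (J0_le l2) (by rw [Nat.zero_add]; exact hHA)
        rcases mem_union.1 ht with h | h
        · rw [mem_image] at h
          obtain ⟨s, hs, rfl⟩ := h
          exact fs_Gd hvM (hBM s hs)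
        · left
          have h3 := hJsub (hD h)
          unfold Jv at h3
          rw [mem_filter, mem_Ioc] at h3
          have h4 : (t : ℝ) ≤ H := by
            have : t ≤ H := by omega
            exact_mod_cast this
          refine (h4.trans hHA).trans ?_
          exact Real.rpow_le_rpow_of_exponent_le hL1 (by linarith))
    have e1 : ∀ x ∈ J \ D, f (insert x D) =
        Pool.Agent.L0h43.TF.LT w (J0 M) (insert x (B.image (fs M v) ∪ D)) := by
      intro x _
      rw [hf]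
      simp only
      rw [union_insert]
    rw [sum_congr rfl e1]
    refine h1.trans ?_
    have e2 : Pool.Agent.L0h43.TF.LT w (J0 M) (B.image (fs M v) ∪ D) = f D := by rw [hf]
    rw [e2]
    apply mul_le_mul_of_nonneg_left _ (hf0 D)
    apply add_le_add_right
    apply mul_le_mul_of_nonneg_right _ (by positivity)
    have h5 := card_union_le (B.image (fs M v)) D
    rw [hBc] at h5
    exact_mod_cast h5
  have hlow : ∀ D ⊆ J, D.card < k → ∀ x ∈ J \ D, (1 - δ) * f D ≤ f (insert x D) := by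
    intro D hD hDk x hx
    have h5 := hdisj D hD hDk.le
    have h1 := LT_low (w := w) (J := J0 M) (h := x) (T := B.image (fs M v) ∪ D) (by
      intro hx2
      rw [Finset.mem_sdiff] at hx
      rcases mem_union.1 hx2 with h | h
      · rw [hJ, Finset.mem_sdiff] at hx
        exact hx.1.2 h
      · exact hx.2 h) (by omega)
    have e1 : f (insert x D) = Pool.Agent.L0h43.TF.LT w (J0 M) (insert x (B.image (fs M v) ∪ D)) := by
      rw [hf]
      simp only
      rw [union_insert]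
    have e2 : Pool.Agent.L0h43.TF.LT w (J0 M) (B.image (fs M v) ∪ D) = f D := by rw [hf]
    rw [e1]
    rw [e2] at h1
    refine le_trans ?_ h1
    apply mul_le_mul_of_nonneg_right _ (hf0 D)
    apply sub_le_sub_left
    rw [div_le_iff₀ hw0R]
    refine le_trans ?_ hw2'
    have : (((B.image (fs M v) ∪ D).card : ℕ) : ℝ) ≤ ((j + k : ℕ) : ℝ) := by exact_mod_cast h5
    linarith
  have hfew := avg_few (J := J) (f := f) (j := j) (k := k) hδ0.le hΦ0 hδk hf0 hJc htot hlow hfpos hδ1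
  -- back to the true shifts
  have e3 : ((((Jv W ν v H \ B).powersetCard k).filter (fun D =>
        2 * Pool.Agent.L0h43.TF.LT w (J0 M) B < Pool.Agent.L0h43.TF.LT w (J0 M) (B ∪ D))).card : ℝ) =
      (((J.powersetCard k).filter (fun D => 2 * f ∅ < f D)).card : ℝ) := by
    rw [card_filter, card_filter, Nat.cast_sum, Nat.cast_sum, sum_win (M := M) hvH, ← hJ]
    apply sum_congr rfl
    intro D hD
    rw [mem_powersetCard] at hD
    have h6 : (B ∪ D.map (addLeftEmbedding v)).image (fs M v) = B.image (fs M v) ∪ D := by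
      rw [image_union]
      congr 1
      ext d
      simp only [mem_image, Finset.mem_map, addLeftEmbedding_apply]
      constructor
      · rintro ⟨_, ⟨d', hd', rfl⟩, rfl⟩
        unfold fs
        rw [if_pos (by omega), Nat.add_sub_cancel_left]
        exact hd'
      · intro hd
        refine ⟨v + d, ⟨d, hd, rfl⟩, ?_⟩
        unfold fs
        rw [if_pos (by omega), Nat.add_sub_cancel_left]
    have h7 : Pool.Agent.L0h43.TF.LT w (J0 M) (B ∪ D.map (addLeftEmbedding v)) = f D := by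
      rw [hf]
      simp only
      rw [← h6, LT_img l2 (by omega)]
      intro t ht
      rcases mem_union.1 ht with h | h
      · exact hBM t h
      · rw [Finset.mem_map] at h
        obtain ⟨d, hd, rfl⟩ := h
        have h8 := hJsub (hD.1 hd)
        unfold Jv at h8
        rw [mem_filter, mem_Ioc] at h8
        simp only [addLeftEmbedding_apply]
        omega
    rw [h7, hfe]
  rw [e3]
  refine hfew.trans ?_
  rw [mul_pow, ← mul_assoc]
  apply mul_le_mul_of_nonneg_right _ (by positivity)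
  refine le_trans ?_ hδCη
  rw [hC]
  have e4 : (k * δ + 2 * k * (j + k) * δ) * 2 ^ k = δ * (((k : ℝ) + 2 * k * (j + k)) * 2 ^ k) := by ring
  rw [e4]
  apply mul_le_mul_of_nonneg_left _ hδ0.le
  apply mul_le_mul_of_nonneg_right _ (by positivity)
  linarith

end Pool.Agent.L0h43.TG
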