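import Pool.Agent.L0h43.TG.FamG
import Pool.Agent.L0h43.TF.Sg

/-!
# A window anywhere: the translated shifts
-/

set_option autoImplicit false

namespace Pool.Agent.L0h43.TG

open Finset Filter Topology Pool.Agent.H387R2
open Pool.Agent.L0h43.TA Pool.Agent.L0h43.TB Pool.Agent.L0h43.TD Pool.Agent.L0h43.TF
open Pool.Agent.H386R2.HL
open Pool.Agent.L0h43.TE (FS FS_ins FS_empty FS_sub sdiff_un Jv_pow)

/-- a multiple of all the primes `< M ^ (1 / 16)`, larger than `2 M + 1` -/
noncomputable def QQ (M : ℕ) : ℕ := primorial ⌊(M : ℝ) ^ (1 / 16 : ℝ)⌋₊ * (2 * M + 2)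

lemma QQ_ge (M : ℕ) : 2 * M + 2 ≤ QQ M := by
  unfold QQ
  exact Nat.le_mul_of_pos_left _ (primorial_pos _)

lemma QQ_zmod {M p : ℕ} (hp : p.Prime) (hpM : (p : ℝ) < (M : ℝ) ^ (1 / 16 : ℝ)) : ((QQ M : ℕ) : ZMod p) = 0 := by
  rw [ZMod.natCast_eq_zero_iff]
  unfold QQ
  apply dvd_mul_of_dvd_left
  unfold primorial
  apply dvd_prod_of_mem
  rw [mem_filter, mem_range]
  exact ⟨Nat.lt_succ_of_le (Nat.le_floor hpM.le), hp⟩

/-- a shift which stands for `t - v` -/
noncomputable def fs (M v t : ℕ) : ℕ := if v ≤ t then t - v else (v - t) * (QQ M - 1)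

lemma fs_zmod {M v t p : ℕ} (hp : p.Prime) (hpM : (p : ℝ) < (M : ℝ) ^ (1 / 16 : ℝ)) :
    ((fs M v t : ℕ) : ZMod p) = (t : ZMod p) - v := by
  unfold fs
  split_ifs with h
  · rw [Nat.cast_sub h]
  · have h1 := QQ_zmod hp hpM
    have h2 := QQ_ge M
    have h3 : t ≤ v := by omega
    rw [Nat.cast_mul, Nat.cast_sub h3, Nat.cast_sub (show 1 ≤ QQ M by omega), h1]
    push_cast
    ring

lemma fs_gt {M v t : ℕ} (h : t < v) : 2 * M < fs M v t := by
  unfold fs
  rw [if_neg (by omega)]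
  have h2 := QQ_ge M
  calc 2 * M < QQ M - 1 := by omega
    _ ≤ (v - t) * (QQ M - 1) := Nat.le_mul_of_pos_left _ (by omega)

lemma fs_inj {M v t s : ℕ} (ht : t ≤ M) (hs : s ≤ M) (h : fs M v t = fs M v s) : t = s := by
  rcases Nat.lt_or_ge t v with h1 | h1
  · rcases Nat.lt_or_ge s v with h2 | h2
    · unfold fs at h
      rw [if_neg (by omega), if_neg (by omega)] at h
      have h3 := QQ_ge M
      have := Nat.eq_of_mul_eq_mul_right (by omega) h
      omega
    · have h3 := fs_gt (M := M) h1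
      have h4 : fs M v s = s - v := by unfold fs; rw [if_pos h2]
      omega
  · rcases Nat.lt_or_ge s v with h2 | h2
    · have h3 := fs_gt (M := M) h2
      have h4 : fs M v t = t - v := by unfold fs; rw [if_pos h1]
      omega
    · have h3 : fs M v t = t - v := by unfold fs; rw [if_pos h1]
      have h4 : fs M v s = s - v := by unfold fs; rw [if_pos h2]
      omega

lemma fs_Gd {M v t : ℕ} {A : ℝ} (hv : v ≤ M) (ht : t ≤ M) : Gd M A (fs M v t) := by
  have hMM : M ≤ M ^ 2 := Nat.le_self_pow two_ne_zero M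
  rcases Nat.lt_or_ge t v with h1 | h1
  · right; left
    refine ⟨v - t, by omega, by omega, fun p hp hpM => ?_⟩
    rw [← ZMod.natCast_eq_zero_iff]
    push_cast
    rw [fs_zmod hp hpM, Nat.cast_sub h1.le]
    ring
  · have h4 : fs M v t = t - v := by unfold fs; rw [if_pos h1]
    rw [h4]
    rcases le_total ((t - v : ℕ) : ℝ) (Real.log M ^ (A + 1)) with h5 | h5
    · left; exact h5
    · right; right
      exact ⟨h5, t - v, h5, by omega, fun p _ _ => Nat.ModEq.refl _⟩

/-- the number of classes does not change under the translation -/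
lemma fs_nuT {M v p : ℕ} (B : Finset ℕ) (hp : p.Prime) (hpM : (p : ℝ) < (M : ℝ) ^ (1 / 16 : ℝ)) :
    Uni.nuT (B.image (fs M v)) p = Uni.nuT B p := by
  rw [nuT_zmod, nuT_zmod]
  have h1 : (B.image (fs M v)).image (fun t : ℕ => (t : ZMod p)) =
      (B.image (fun t : ℕ => (t : ZMod p))).image (fun x => x - (v : ZMod p)) := by
    rw [image_image, image_image]
    apply image_congr
    intro t _
    exact fs_zmod hp hpM
  rw [h1, card_image_of_injective]
  intro a b hab
  simpa using hab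

lemma fs_card {M v : ℕ} {B : Finset ℕ} (hB : ∀ t ∈ B, t ≤ M) : (B.image (fs M v)).card = B.card :=
  card_image_of_injOn fun _ ht _ hs h => fs_inj (hB _ ht) (hB _ hs) h

/-- the translated tuples -/
lemma img_sub {M W ν v : ℕ} {B S : Finset ℕ}
    (hS : ∀ n ∈ S, Nat.sqrt M < n ∧ n + v ≤ M ∧ n % W = ν ∧
      ∀ t ∈ B, ∀ p : ℕ, p.Prime → p ∣ n + t → (M : ℝ) ^ (1 / 16 : ℝ) ≤ p) :
    S.image (fun n => n + v) ⊆ QS M W ((ν + v) % W) (B.image (fs M v)) := by
  classical
  intro n' hn'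
  rw [mem_image] at hn'
  obtain ⟨n, hn, rfl⟩ := hn'
  obtain ⟨h1, h2, h3, h4⟩ := hS n hn
  unfold QS
  rw [mem_filter, mem_Ioc]
  refine ⟨⟨by omega, h2⟩, ?_, ?_⟩
  · rw [← h3, Nat.mod_add_mod]
  · intro t' ht' p hp hpd
    rw [mem_image] at ht'
    obtain ⟨t, ht, rfl⟩ := ht'
    by_contra hlt
    push Not at hlt
    have h5 := (ZMod.natCast_eq_zero_iff _ _).2 hpd
    push_cast at h5
    rw [fs_zmod hp hlt] at h5
    have h6 : p ∣ n + t := by
      rw [← ZMod.natCast_eq_zero_iff]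
      push_cast
      linear_combination h5
    linarith [h4 t ht p hp h6]

lemma FS_img {M v : ℕ} (S D : Finset ℕ) :
    (FS M (S.image (fun n => n + v)) D).card = (FS M S (D.map (addLeftEmbedding v))).card := by
  classical
  have e : FS M (S.image (fun n => n + v)) D = (FS M S (D.map (addLeftEmbedding v))).image (fun n => n + v) := by
    ext m
    unfold FS
    simp only [mem_filter, mem_image, Finset.mem_map, addLeftEmbedding_apply]
    constructor
    · rintro ⟨⟨n, hn, rfl⟩, h⟩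
      refine ⟨n, ⟨hn, ?_⟩, rfl⟩
      rintro d ⟨d', hd', rfl⟩
      rw [← add_assoc]
      exact h d' hd'
    · rintro ⟨n, ⟨hn, h⟩, rfl⟩
      refine ⟨⟨n, hn, rfl⟩, fun d hd => ?_⟩
      rw [add_assoc]
      exact h (v + d) ⟨d, hd, rfl⟩
  rw [e, card_image_of_injective]
  intro a b hab
  simpa using hab

lemma card_img {v : ℕ} (S : Finset ℕ) : (S.image (fun n => n + v)).card = S.card := by
  rw [card_image_of_injective]
  intro a b hab
  simpa using hab

/-- the window, translated -/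
lemma Jv_map {M W ν v H : ℕ} {B : Finset ℕ} (hHM : v + H ≤ M) :
    (Jv W ((ν + v) % W) 0 H \ B.image (fs M v)).map (addLeftEmbedding v) = Jv W ν v H \ B := by
  classical
  have hcop : ∀ h, Nat.Coprime W ((ν + v) % W + h) ↔ Nat.Coprime W (ν + (v + h)) := by
    intro h
    have h1 : (ν + v) % W + h ≡ ν + (v + h) [MOD W] := by
      rw [← add_assoc]
      exact (Nat.mod_modEq _ _).add_right h
    unfold Nat.Coprime
    rw [Nat.gcd_comm, h1.gcd_eq, Nat.gcd_comm]
  ext d
  rw [Finset.mem_map]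
  simp only [Finset.mem_sdiff, addLeftEmbedding_apply, mem_image]
  unfold Jv
  simp only [mem_filter, mem_Ioc]
  constructor
  · rintro ⟨h, ⟨⟨⟨h1, h2⟩, h3⟩, h4⟩, rfl⟩
    refine ⟨⟨⟨by omega, by omega⟩, (hcop h).1 h3⟩, fun hB => ?_⟩
    apply h4
    refine ⟨v + h, hB, ?_⟩
    unfold fs
    rw [if_pos (by omega)]
    omega
  · rintro ⟨⟨⟨h1, h2⟩, h3⟩, h4⟩
    refine ⟨d - v, ⟨⟨⟨by omega, by omega⟩, ?_⟩, ?_⟩, by omega⟩
    · rw [hcop]
      rw [show v + (d - v) = d by omega]
      exact h3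
    · rintro ⟨t, ht, hte⟩
      rcases Nat.lt_or_ge t v with h5 | h5
      · have := fs_gt (M := M) h5
        omega
      · have h6 : fs M v t = t - v := by unfold fs; rw [if_pos h5]
        have h7 : t = d := by omega
        rw [h7] at ht
        exact h4 ht

lemma sum_win {M W ν v H k : ℕ} {B : Finset ℕ} (hHM : v + H ≤ M) (f : Finset ℕ → ℝ) :
    ∑ D ∈ (Jv W ν v H \ B).powersetCard k, f D =
      ∑ D ∈ (Jv W ((ν + v) % W) 0 H \ B.image (fs M v)).powersetCard k, f (D.map (addLeftEmbedding v)) := by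
  rw [← Jv_map (M := M) hHM, powersetCard_map, sum_map]
  rfl

end Pool.Agent.L0h43.TG
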