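import Pool.Agent.L0h43.TG.Real

/-!
# Windows anywhere, arbitrary sets of tuples: the sum over the classes
-/

set_option autoImplicit false

namespace Pool.Agent.L0h43.TG

open Finset Filter Topology Pool.Agent.H387R2
open Pool.Agent.L0h43.TA Pool.Agent.L0h43.TB Pool.Agent.L0h43.TD Pool.Agent.L0h43.TF
open Pool.Agent.H386R2.HL
open Pool.Agent.L0h43.TE (FS FS_ins FS_empty FS_sub sdiff_un Jv_pow OK_union)

lemma sy_split {M w y : ℕ} (T : Finset ℕ) (hy : y + 1 = 2 ^ 2 ^ J0 M) (hw : w < 2 ^ 2 ^ J0 M) :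
    ((Uni.WW y : ℝ) / Nat.totient (Uni.WW y)) ^ T.card * ((Uni.gT (Uni.WW y) T : ℝ) / Uni.WW y) =
      ((Uni.WW w : ℝ) / Nat.totient (Uni.WW w)) ^ T.card *
      ((Uni.gT (Uni.WW w) T : ℝ) / Uni.WW w) * Pool.Agent.L0h43.TF.LT w (J0 M) T := by
  have h3 := V1_split (w := y) (J := J0 M) (by omega)
  have h4 : V1w y (J0 M) = 1 := by
    unfold V1w
    have h4 : Pw y (J0 M) = ∅ := by
      unfold Pw Ps
      apply filter_eq_empty_iff.2
      intro p hp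
      rw [mem_filter, mem_range] at hp
      omega
    rw [h4, prod_empty]
  rw [h4, mul_one] at h3
  have h5 := V1_split hw
  rw [h3] at h5
  have hWy : (0 : ℝ) < Uni.WW y := by exact_mod_cast (Uni.WW_pos y)
  have hφy : (0 : ℝ) < Nat.totient (Uni.WW y) := by exact_mod_cast Nat.totient_pos.2 (Uni.WW_pos y)
  have hWw : (0 : ℝ) < Uni.WW w := by exact_mod_cast (Uni.WW_pos w)
  have hφw : (0 : ℝ) < Nat.totient (Uni.WW w) := by exact_mod_cast Nat.totient_pos.2 (Uni.WW_pos w)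
  have hV := V1w_pos w (J0 M)
  rw [gT_VT hy, VT_split hw, Vw_LT]
  have h6 : (Uni.WW y : ℝ) / Nat.totient (Uni.WW y) * V1w w (J0 M) = (Uni.WW w : ℝ) / Nat.totient (Uni.WW w) := by
    have h7 : (Uni.WW y : ℝ) / Nat.totient (Uni.WW y) = (Uni.WW w : ℝ) / Nat.totient (Uni.WW w) / V1w w (J0 M) := by
      rw [← inv_div, h5]
      field_simp
    rw [h7]
    field_simp
  rw [← h6, mul_pow]
  ring

/-- the truncated singular series is at most twice the singular series -/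
lemma CT_geL {M w : ℕ} (T : Finset ℕ) (hw : w < 2 ^ 2 ^ J0 M) (hT : 2 * T.card ^ 2 + 2 ≤ 2 ^ 2 ^ J0 M) :
    ((Uni.WW w : ℝ) / Nat.totient (Uni.WW w)) ^ T.card *
      ((Uni.gT (Uni.WW w) T : ℝ) / Uni.WW w) * Pool.Agent.L0h43.TF.LT w (J0 M) T ≤ 2 * Uni.CT T := by
  obtain ⟨y, hy⟩ : ∃ y, y + 1 = 2 ^ 2 ^ J0 M := ⟨2 ^ 2 ^ J0 M - 1, Nat.sub_add_cancel Nat.one_le_two_pow⟩
  rw [← hy] at hT
  have hT2 : T.card ≤ T.card ^ 2 := Nat.le_self_pow two_ne_zero _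
  rw [← sy_split T hy hw]
  have h1 := Pool.Agent.Helper22K9.Trp.CT_ge' T y (by omega) (by omega)
  have hy0 : (0 : ℝ) < y := by exact_mod_cast (by omega : 0 < y)
  have h2 : (1 : ℝ) / 2 ≤ 1 - (T.card : ℝ) ^ 2 / y := by
    have : (T.card : ℝ) ^ 2 / y ≤ 1 / 2 := by
      rw [div_le_div_iff₀ hy0 (by norm_num)]
      have : 2 * T.card ^ 2 ≤ y := by omega
      have : (2 * (T.card : ℝ) ^ 2) ≤ y := by exact_mod_cast this
      linarith
    linarith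
  have h3 : 0 ≤ ((Uni.WW y : ℝ) / Nat.totient (Uni.WW y)) ^ T.card * ((Uni.gT (Uni.WW y) T : ℝ) / Uni.WW y) := by
    positivity
  have h4 := mul_le_mul_of_nonneg_right h2 h3
  linarith

open Classical in
theorem baseU : ∃ c0 : ℝ, 0 < c0 ∧ c0 ≤ 1 ∧ ∀ (j k : ℕ) (ε : ℝ), 0 < ε →
    ∃ K : ℝ, 1 ≤ K ∧ ∃ w0 : ℕ, ∀ w : ℕ, w0 ≤ w → ∀ A : ℝ, 0 ≤ A → ∃ N₀ : ℕ, ∀ N : ℕ, N₀ ≤ N →
      ∀ B : Finset ℕ, B.card = j → (∀ t ∈ B, t ≤ N) →
      ∀ v H : ℕ, v + H ≤ N → K * Real.log N ≤ H → (H : ℝ) ≤ Real.log N ^ A → ∀ g : Finset ℕ → ℝ,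
      (∀ D, 0 ≤ g D) → (∀ D, g D ≤ 1) → ∀ S : Finset ℕ, (∀ n ∈ S, Nat.sqrt (2 * N) < n ∧ n ≤ N ∧
        ∀ t ∈ B, ∀ p : ℕ, p.Prime → p ∣ n + t → ((2 * N : ℕ) : ℝ) ^ (1 / 16 : ℝ) ≤ p) →
      (c0 * ((Uni.WW w : ℝ) / Nat.totient (Uni.WW w)) / Real.log N) ^ k *
          (∑ D ∈ (Ioc v (v + H) \ B).powersetCard k, g D *
            ((S.filter (fun n => ∀ d ∈ D, Nat.Coprime (Uni.WW w) (n + d))).card : ℝ)) -
          ε * ((H / Real.log N) ^ k * (N / Real.log N ^ j * Uni.CT B)) ≤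
        ∑ D ∈ (Ioc v (v + H) \ B).powersetCard k, g D * ((FS N S D).card : ℝ) := by
  obtain ⟨c0, hc0, hc1, HF⟩ := winL
  refine ⟨c0 / 2, by positivity, by linarith, fun j k ε hε => ?_⟩
  obtain ⟨K, hK, w0, H1⟩ := HF j k (ε / 4) (by positivity)
  refine ⟨2 * K, by linarith, w0, fun w hw A hA => ?_⟩
  obtain ⟨M1, hM1⟩ := H1 w hw A hA
  have tN : Tendsto (fun N : ℕ => (N : ℝ)) atTop atTop := tendsto_natCast_atTop_atTop
  have tp : Tendsto (fun N : ℕ => (N : ℝ) ^ (1 / 512 : ℝ)) atTop atTop :=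
    (tendsto_rpow_atTop (by norm_num)).comp tN
  obtain ⟨N₀, hN₀⟩ := eventually_atTop.1 ((tp.eventually_ge_atTop (max ((w : ℝ) + 2) (2 * (j : ℝ) ^ 2 + 2))).and
    (eventually_ge_atTop (max M1 3)))
  refine ⟨N₀, fun N hN B hBj hBN v H hvH hKH hHA g hg0 hg1 S hS => ?_⟩
  obtain ⟨l1, l2⟩ := hN₀ N hN
  have hpw : (w : ℝ) + 2 ≤ (N : ℝ) ^ (1 / 512 : ℝ) := (le_max_left _ _).trans l1
  have hpj : 2 * (j : ℝ) ^ 2 + 2 ≤ (N : ℝ) ^ (1 / 512 : ℝ) := (le_max_right _ _).trans l1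
  have hNM1 : M1 ≤ N := (le_max_left _ _).trans l2
  have hN3 : 3 ≤ N := (le_max_right _ _).trans l2
  have hN3R : (3 : ℝ) ≤ N := by exact_mod_cast hN3
  have hN0R : (0 : ℝ) < N := by linarith
  obtain ⟨M, hM⟩ : ∃ M, M = 2 * N := ⟨_, rfl⟩
  rw [← hM] at hS
  have hNM : N ≤ M := by omega
  have hNMR : (N : ℝ) ≤ M := by exact_mod_cast hNM
  have hM0R : (0 : ℝ) < M := by linarith
  have hM1R : (1 : ℝ) ≤ M := by linarith
  obtain ⟨L, hL⟩ : ∃ L, L = Real.log (N : ℝ) := ⟨_, rfl⟩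
  obtain ⟨Lm, hLm⟩ : ∃ Lm, Lm = Real.log (M : ℝ) := ⟨_, rfl⟩
  have hL0 : 0 < L := by rw [hL]; exact Real.log_pos (by linarith)
  have hLLm : L ≤ Lm := by rw [hL, hLm]; exact Real.log_le_log hN0R hNMR
  have hLm2 : Lm ≤ 2 * L := by
    have h1 : (M : ℝ) ≤ (N : ℝ) ^ 2 := by rw [hM]; push_cast; nlinarith
    have h2 : Real.log (M : ℝ) ≤ Real.log ((N : ℝ) ^ 2) := Real.log_le_log hM0R h1
    rw [Real.log_pow] at h2
    rw [hLm, hL]
    exact_mod_cast h2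
  have hLm0 : 0 < Lm := by linarith
  have hMp : (N : ℝ) ^ (1 / 512 : ℝ) ≤ (M : ℝ) ^ (1 / 512 : ℝ) :=
    Real.rpow_le_rpow hN0R.le hNMR (by norm_num)
  have hw0R : (0 : ℝ) ≤ w := Nat.cast_nonneg _
  have hM256 : (2 : ℝ) ≤ (M : ℝ) ^ (1 / 256 : ℝ) :=
    (show (2 : ℝ) ≤ (M : ℝ) ^ (1 / 512 : ℝ) by linarith).trans
      (Real.rpow_le_rpow_of_exponent_le hM1R (by norm_num))
  have hJb := J0_big (M := M)
  have hwM : w < 2 ^ 2 ^ J0 M := by
    have h2 : (w : ℝ) < (2 : ℝ) ^ 2 ^ J0 M := by linarith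
    exact_mod_cast h2
  have hjM : 2 * j ^ 2 + 2 ≤ 2 ^ 2 ^ J0 M := by
    have h2 : 2 * (j : ℝ) ^ 2 + 2 ≤ (2 : ℝ) ^ 2 ^ J0 M := by linarith
    exact_mod_cast h2
  have hwp : (w : ℝ) < (M : ℝ) ^ (1 / 16 : ℝ) := by
    have h2 : (M : ℝ) ^ (1 / 512 : ℝ) ≤ (M : ℝ) ^ (1 / 16 : ℝ) :=
      Real.rpow_le_rpow_of_exponent_le hM1R (by norm_num)
    linarith
  rw [← hL] at hKH hHA ⊢
  have hKH' : K * Real.log M ≤ H := by
    rw [← hLm]
    calc K * Lm ≤ K * (2 * L) := mul_le_mul_of_nonneg_left hLm2 (by linarith)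
      _ = 2 * K * L := by ring
      _ ≤ H := hKH
  have hHA' : (H : ℝ) ≤ Real.log M ^ A := by
    rw [← hLm]
    exact hHA.trans (Real.rpow_le_rpow hL0.le hLLm hA)
  have hH0 : (0 : ℝ) ≤ H := Nat.cast_nonneg _
  obtain ⟨W, hW⟩ : ∃ W, W = Uni.WW w := ⟨_, rfl⟩
  rw [← hW]
  have hWpos : 0 < W := by rw [hW]; exact Uni.WW_pos w
  have hφ0 : (0 : ℝ) < Nat.totient W := by exact_mod_cast Nat.totient_pos.2 hWpos
  have hW0 : (0 : ℝ) < W := by exact_mod_cast hWpos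
  have hBM : ∀ t ∈ B, t ≤ M := fun t ht => (hBN t ht).trans hNM
  obtain ⟨P, hP⟩ : ∃ P, P = (Ioc v (v + H) \ B).powersetCard k := ⟨_, rfl⟩
  rw [← hP]
  obtain ⟨Sν, hSν⟩ : ∃ Sν : ℕ → Finset ℕ, ∀ ν, Sν ν = S.filter (fun n => n % W = ν) := ⟨_, fun _ => rfl⟩
  have hSe : ∀ ν, ¬ OK W ν B → Sν ν = ∅ := by
    intro ν hOK
    rw [eq_empty_iff_forall_notMem]
    intro n hn
    apply hOK
    rw [hSν, mem_filter] at hn
    obtain ⟨h1, h2, h3⟩ := hS n hn.1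
    intro t ht
    rw [cop_shift hn.2]
    apply Nat.coprime_of_dvd
    intro p hp hpW hpn
    have h4 := h3 t ht p hp hpn
    rw [hW, dvd_WW hp] at hpW
    have h5 : (p : ℝ) ≤ w := by exact_mod_cast hpW
    linarith
  have e1 : ∑ ν ∈ range W, ∑ D ∈ P, g D * ((FS M (Sν ν) D).card : ℝ) = ∑ D ∈ P, g D * ((FS M S D).card : ℝ) := by
    rw [sum_comm]
    apply sum_congr rfl
    intro D _
    unfold FS
    rw [← mul_sum, fiber_sum S hWpos (fun n => ∀ d ∈ D, AP M (n + d)), Nat.cast_sum]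
    simp only [hSν]
  have r1 : ∀ ν, ∑ D ∈ P.filter (fun D => OK W ν D), g D * ((FS M (Sν ν) D).card : ℝ) ≤
      ∑ D ∈ P, g D * ((FS M (Sν ν) D).card : ℝ) := by
    intro ν
    apply sum_le_sum_of_subset_of_nonneg (filter_subset _ _)
    intro D _ _
    exact mul_nonneg (hg0 D) (Nat.cast_nonneg _)
  obtain ⟨E, hE⟩ : ∃ E, E = Eo M w (B.image (fs M v)) := ⟨_, rfl⟩
  have hEe : E = M / Lm ^ j * (1 / (W : ℝ) * ((W : ℝ) / Nat.totient W) ^ j *
      Pool.Agent.L0h43.TF.LT w (J0 M) B) := by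
    rw [hE]
    unfold Eo Xo
    rw [fs_card hBM, hBj, LT_img hM256 (by omega) hBM, ← hLm, ← hW]
  have e3 : ∑ ν ∈ range W, (if OK W ν B then ε / 4 * ((H / Lm) ^ k * E) else 0) ≤
      ε * ((H / L) ^ k * (N / L ^ j * Uni.CT B)) := by
    rw [← sum_filter, sum_const, nsmul_eq_mul]
    have h1 : (((range W).filter (fun ν => OK W ν B)).card : ℝ) = (Uni.gT W B : ℝ) := rfl
    rw [h1]
    have h2 := CT_geL (M := M) (w := w) B hwM (by rw [hBj]; exact hjM)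
    rw [hBj, ← hW] at h2
    have h3 : (Uni.gT W B : ℝ) * E ≤ 4 * (N / L ^ j * Uni.CT B) := by
      have h4 : (Uni.gT W B : ℝ) * E = M / Lm ^ j * (((W : ℝ) / Nat.totient W) ^ j *
          ((Uni.gT W B : ℝ) / W) * Pool.Agent.L0h43.TF.LT w (J0 M) B) := by
        rw [hEe]; ring
      rw [h4]
      have h5 : (M : ℝ) / Lm ^ j ≤ 2 * N / L ^ j := by
        have h6 : (M : ℝ) = 2 * N := by rw [hM]; push_cast; ring
        rw [h6]
        exact div_le_div_of_nonneg_left (by positivity) (by positivity) (pow_le_pow_left₀ hL0.le hLLm _)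
      have h7 := LT_nonneg w (J0 M) B
      have hCT := Uni.CT_nonneg B
      calc (M : ℝ) / Lm ^ j * (((W : ℝ) / Nat.totient W) ^ j * ((Uni.gT W B : ℝ) / W) *
            Pool.Agent.L0h43.TF.LT w (J0 M) B) ≤ 2 * N / L ^ j * (2 * Uni.CT B) :=
            mul_le_mul h5 h2 (by positivity) (by positivity)
        _ = _ := by ring
    have h8 : (H / Lm) ^ k ≤ (H / L) ^ k := by
      apply pow_le_pow_left₀ (by positivity)
      exact div_le_div_of_nonneg_left hH0 hL0 hLLm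
    have hCT := Uni.CT_nonneg B
    have hE0 : 0 ≤ E := by rw [hE]; exact Eo_nonneg (by omega)
    calc (Uni.gT W B : ℝ) * (ε / 4 * ((H / Lm) ^ k * E)) = ε / 4 * ((H / Lm) ^ k * ((Uni.gT W B : ℝ) * E)) := by ring
      _ ≤ ε / 4 * ((H / L) ^ k * (4 * (N / L ^ j * Uni.CT B))) := by
          apply mul_le_mul_of_nonneg_left _ (by positivity)
          exact mul_le_mul h8 h3 (by positivity) (by positivity)
      _ = _ := by ring
  have key : ∀ ν ∈ range W, (c0 * ((W : ℝ) / Nat.totient W / Lm)) ^ k *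
      (∑ D ∈ P.filter (fun D => OK W ν D), g D * ((Sν ν).card : ℝ)) -
      (if OK W ν B then ε / 4 * ((H / Lm) ^ k * E) else 0) ≤
      ∑ D ∈ P, g D * ((FS M (Sν ν) D).card : ℝ) := by
    intro ν hν
    rw [mem_range] at hν
    by_cases hOK : OK W ν B
    · rw [if_pos hOK]
      have h1 := hM1 M (by omega) B hBj hBM ν (by rw [← hW]; exact hν) (by rw [← hW]; exact hOK) v H (by omega)
        hKH' hHA' g hg0 hg1 (Sν ν) (by
          intro n hn
          rw [hSν, mem_filter] at hn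
          obtain ⟨h1, h2, h3⟩ := hS n hn.1
          exact ⟨h1, by omega, by rw [← hW]; exact hn.2, h3⟩)
      rw [← hW, Jv_pow, ← hP, ← hE, ← hLm] at h1
      refine le_trans ?_ (h1.trans (r1 ν))
      rw [← sum_mul, mul_assoc]
    · rw [if_neg hOK, hSe ν hOK, card_empty, Nat.cast_zero]
      simp only [mul_zero, sum_const_zero, sub_zero]
      exact sum_nonneg fun D _ => mul_nonneg (hg0 D) (Nat.cast_nonneg _)
  have hsum := sum_le_sum key
  rw [sum_sub_distrib, ← mul_sum, e1] at hsum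
  have e2 : ∑ ν ∈ range W, ∑ D ∈ P.filter (fun D => OK W ν D), g D * ((Sν ν).card : ℝ) =
      ∑ D ∈ P, g D * ((S.filter (fun n => ∀ d ∈ D, Nat.Coprime W (n + d))).card : ℝ) := by
    have h1 : ∀ ν ∈ range W, ∑ D ∈ P.filter (fun D => OK W ν D), g D * ((Sν ν).card : ℝ) =
        ∑ D ∈ P, g D * (((Sν ν).filter (fun n => ∀ d ∈ D, Nat.Coprime W (n + d))).card : ℝ) := by
      intro ν _
      rw [sum_filter]
      apply sum_congr rfl
      intro D _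
      by_cases hc : OK W ν D
      · rw [if_pos hc]
        congr 2
        rw [filter_true_of_mem]
        intro n hn d hd
        rw [hSν, mem_filter] at hn
        exact (cop_shift hn.2).1 (hc d hd)
      · rw [if_neg hc]
        rw [filter_false_of_mem, card_empty, Nat.cast_zero, mul_zero]
        intro n hn h3
        rw [hSν, mem_filter] at hn
        exact hc fun d hd => (cop_shift hn.2).2 (h3 d hd)
    rw [sum_congr rfl h1, sum_comm]
    apply sum_congr rfl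
    intro D _
    rw [← mul_sum, fiber_sum S hWpos (fun n => ∀ d ∈ D, Nat.Coprime W (n + d)), Nat.cast_sum]
    simp only [hSν]
  rw [e2] at hsum
  obtain ⟨Y, hY⟩ : ∃ Y, Y = ∑ D ∈ P, g D * ((S.filter (fun n => ∀ d ∈ D, Nat.Coprime W (n + d))).card : ℝ) := ⟨_, rfl⟩
  have hY0 : 0 ≤ Y := by
    rw [hY]
    exact sum_nonneg fun D _ => mul_nonneg (hg0 D) (Nat.cast_nonneg _)
  rw [← hY] at hsum ⊢
  have t1 : (c0 / 2 * ((W : ℝ) / Nat.totient W) / L) ^ k ≤ (c0 * ((W : ℝ) / Nat.totient W / Lm)) ^ k := by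
    apply pow_le_pow_left₀ (by positivity)
    have h1 : c0 / 2 * ((W : ℝ) / Nat.totient W) / L = c0 * ((W : ℝ) / Nat.totient W / (2 * L)) := by
      field_simp
    rw [h1]
    apply mul_le_mul_of_nonneg_left _ hc0.le
    exact div_le_div_of_nonneg_left (by positivity) hLm0 hLm2
  have t2 := mul_le_mul_of_nonneg_right t1 hY0
  have t3 : ∑ D ∈ P, g D * ((FS M S D).card : ℝ) ≤ ∑ D ∈ P, g D * ((FS N S D).card : ℝ) := by
    apply sum_le_sum
    intro D _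
    apply mul_le_mul_of_nonneg_left _ (hg0 D)
    rw [Nat.cast_le]
    apply card_le_card
    intro n hn
    unfold FS at hn ⊢
    rw [mem_filter] at hn ⊢
    exact ⟨hn.1, fun d hd => AP_up hNM (hn.2 d hd)⟩
  linarith

end Pool.Agent.L0h43.TG
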