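import Pool.Agent.L0h43.TG.Gen

/-!
# Windows anywhere, arbitrary sets of tuples: real `x`
-/

set_option autoImplicit false

namespace Pool.Agent.L0h43.TG

open Finset Filter Topology Pool.Agent.H387R2
open Pool.Agent.L0h43.TA Pool.Agent.L0h43.TB Pool.Agent.L0h43.TD Pool.Agent.L0h43.TF
open Pool.Agent.H386R2.HL
open Pool.Agent.L0h43.TE (FS FS_ins FS_empty FS_sub sdiff_un Jv_pow OK_union pow_card)

open Classical in
/-- the `n ≤ x` for which every `n + t` is prime or has no small prime factor -/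
noncomputable def RU (x : ℝ) (T : Finset ℕ) : Finset ℕ := (Icc 1 ⌊x⌋₊).filter (fun n =>
  ∀ t ∈ T, (n + t).Prime ∨ ∀ p : ℕ, p.Prime → p ∣ n + t → x ^ (1 / 15 : ℝ) ≤ p)

lemma RU_cond {x : ℝ} {T S : Finset ℕ} (hx : 1 ≤ x) (h15 : 2 ≤ x ^ (1 / 15 : ℝ)) (hN3 : 3 ≤ ⌊x⌋₊) (hS : S ⊆ RU x T) :
    ∀ n ∈ S.filter (fun n => Nat.sqrt (2 * ⌊x⌋₊) < n), Nat.sqrt (2 * ⌊x⌋₊) < n ∧ n ≤ ⌊x⌋₊ ∧
        ∀ t ∈ T, ∀ p : ℕ, p.Prime → p ∣ n + t → ((2 * ⌊x⌋₊ : ℕ) : ℝ) ^ (1 / 16 : ℝ) ≤ p := by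
  classical
  have a6 : (⌊x⌋₊ : ℝ) ≤ x := Nat.floor_le (by linarith)
  have hx0 : 0 < x := by linarith
  obtain ⟨N, hN⟩ : ∃ N, N = ⌊x⌋₊ := ⟨_, rfl⟩
  rw [← hN] at a6 hN3 ⊢
  have hN3R : (3 : ℝ) ≤ N := by exact_mod_cast hN3
  have hN0 : (0 : ℝ) < N := by linarith
  obtain ⟨M, hM⟩ : ∃ M, M = 2 * N := ⟨_, rfl⟩
  rw [← hM]
  have hMR : (M : ℝ) = 2 * N := by rw [hM]; push_cast; ring
  have hM1 : (1 : ℝ) ≤ M := by linarith
  have hM16 : (M : ℝ) ^ (1 / 16 : ℝ) ≤ x ^ (1 / 15 : ℝ) := by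
    have h1 : (M : ℝ) ≤ x ^ (16 / 15 : ℝ) := by
      have h2 : x ^ (16 / 15 : ℝ) = x ^ (1 / 15 : ℝ) * x := by
        rw [show (16 / 15 : ℝ) = 1 / 15 + 1 by norm_num, Real.rpow_add hx0, Real.rpow_one]
      rw [h2, hMR]
      exact mul_le_mul h15 a6 hN0.le (by positivity)
    refine (Real.rpow_le_rpow (by linarith) h1 (by norm_num)).trans (le_of_eq ?_)
    rw [← Real.rpow_mul hx0.le]
    norm_num
  intro n hn
  rw [mem_filter] at hn
  have h2 := hS hn.1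
  unfold RU at h2
  rw [mem_filter, mem_Icc, ← hN] at h2
  refine ⟨hn.2, h2.1.2, fun t ht p hp hpd => ?_⟩
  rcases h2.2 t ht with h3 | h3
  · rw [Nat.prime_dvd_prime_iff_eq hp h3] at hpd
    rw [hpd]
    have h4 : M < n * n := Nat.sqrt_lt.1 hn.2
    have h5 : (M : ℝ) ≤ (n : ℝ) ^ 2 := by
      rw [sq]; exact_mod_cast h4.le
    have h6 : (n : ℝ) ≤ ((n + t : ℕ) : ℝ) := by push_cast; linarith [Nat.cast_nonneg (α := ℝ) t]
    refine le_trans ?_ h6
    calc (M : ℝ) ^ (1 / 16 : ℝ) ≤ (M : ℝ) ^ (1 / 2 : ℝ) :=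
          Real.rpow_le_rpow_of_exponent_le hM1 (by norm_num)
      _ ≤ ((n : ℝ) ^ 2) ^ (1 / 2 : ℝ) := Real.rpow_le_rpow (by linarith) h5 (by norm_num)
      _ = n := by
          rw [← Real.sqrt_eq_rpow, Real.sqrt_sq (Nat.cast_nonneg _)]
  · exact hM16.trans (h3 p hp hpd)

open Classical in
theorem baseRU : ∃ c0 : ℝ, 0 < c0 ∧ c0 ≤ 1 ∧ ∀ (j k : ℕ) (ε : ℝ), 0 < ε →
    ∃ K : ℝ, 1 ≤ K ∧ ∃ w0 : ℕ, ∀ w : ℕ, w0 ≤ w → ∀ A : ℝ, 0 ≤ A → ∀ᶠ x : ℝ in atTop,
      ∀ T : Finset ℕ, T.card = j → Uni.CT T ≠ 0 → (∀ t ∈ T, (t : ℝ) ≤ x) →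
      ∀ u H : ℕ, ((u + H : ℕ) : ℝ) ≤ x → K * Real.log x ≤ H → (H : ℝ) ≤ Real.log x ^ A → ∀ g : Finset ℕ → ℝ,
      (∀ D, 0 ≤ g D) → (∀ D, g D ≤ 1) → ∀ S ⊆ RU x T,
        (c0 * ((Uni.WW w : ℝ) / Nat.totient (Uni.WW w)) / Real.log x) ^ k *
          (∑ D ∈ (Ioc u (u + H) \ T).powersetCard k, g D *
            ((S.filter (fun n => ∀ d ∈ D, Nat.Coprime (Uni.WW w) (n + d))).card : ℝ)) -
          ε * ((H / Real.log x) ^ k * (Uni.CT T * (x / Real.log x ^ j))) ≤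
        ∑ D ∈ (Ioc u (u + H) \ T).powersetCard k, g D * ((S.filter (fun n => ∀ d ∈ D, APx x (n + d))).card : ℝ) := by
  obtain ⟨c0, hc0, hc1, HN⟩ := baseU
  refine ⟨c0, hc0, hc1, fun j k ε hε => ?_⟩
  obtain ⟨c, hc, hlow⟩ := CT_pos_low j
  obtain ⟨η, hη0, hη1, hη⟩ := choose_eta (j + k) 1 one_pos le_rfl
  obtain ⟨K, hK, w0, H0⟩ := HN j k (ε / 4) (by positivity)
  refine ⟨K, hK, w0, fun w hw A hA => ?_⟩
  obtain ⟨N₀, hN₀⟩ := H0 w hw (A + 1) (by linarith)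
  obtain ⟨W, hW⟩ : ∃ W, W = Uni.WW w := ⟨_, rfl⟩
  have hWpos : 0 < W := by rw [hW]; exact Uni.WW_pos w
  have hφ1 : (1 : ℝ) ≤ Nat.totient W := by exact_mod_cast Nat.totient_pos.2 hWpos
  have hφ0 : (0 : ℝ) < Nat.totient W := by linarith
  have hW0 : (0 : ℝ) < W := by exact_mod_cast hWpos
  filter_upwards [ev_real η A hη0 hA (max N₀ 3), ev_19, TB.ev_small (ε * c / (4 * W ^ k)) (by positivity) ((j : ℕ) : ℝ),
    (tendsto_rpow_atTop (show (0 : ℝ) < 1 / 15 by norm_num)).eventually_ge_atTop 2]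
    with x h1 h19 hsm h15
  obtain ⟨a1, a2, a3, a4, a5, a6, a7⟩ := h1
  intro T hTj hCT hTA u H huH hKH hHA g hg0 hg1 S hS
  have hAP : ∀ m, AP ⌊x⌋₊ m → APx x m := by
    intro m hm
    exact ⟨hm.1, fun p hp hpd => h19.trans (hm.2 p hp hpd)⟩
  rw [Real.rpow_natCast] at hsm
  have hS'Q := RU_cond a7 h15 ((le_max_right _ _).trans a1) hS
  have hTN : ∀ t ∈ T, t ≤ ⌊x⌋₊ := fun t ht => Nat.le_floor (hTA t ht)
  have huN : u + H ≤ ⌊x⌋₊ := Nat.le_floor huH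
  have hRS : ∀ n ∈ S, 1 ≤ n := by
    intro n hn
    have h6 := hS hn
    unfold RU at h6
    rw [mem_filter, mem_Icc] at h6
    exact h6.1.1
  obtain ⟨N, hN⟩ : ∃ N, N = ⌊x⌋₊ := ⟨_, rfl⟩
  rw [← hN] at a1 a2 a3 a4 a5 a6 hAP hS'Q hTN huN
  set L := Real.log (N : ℝ) with hL
  set l := Real.log x with hl
  have hL0 : 0 < L := by linarith
  have hl0 : 0 < l := by linarith
  have hx0 : 0 < x := by linarith
  have hN0 : (0 : ℝ) < N := by
    have : (3 : ℝ) ≤ N := by exact_mod_cast (le_max_right _ _).trans a1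
    linarith
  have hKL : K * L ≤ H := (mul_le_mul_of_nonneg_left a3 (by linarith)).trans hKH
  have hH0 : (0 : ℝ) < H := lt_of_lt_of_le (by positivity) hKL
  obtain ⟨S', hS'⟩ : ∃ S', S' = S.filter (fun n => Nat.sqrt (2 * N) < n) := ⟨_, rfl⟩
  rw [← hS'] at hS'Q
  have hS'S : S' ⊆ S := by rw [hS']; exact filter_subset _ _
  have hmain := hN₀ N ((le_max_left _ _).trans a1) T hTj hTN u H huN hKL (hHA.trans a5)
    g hg0 hg1 S' hS'Q
  rw [← hL, ← hW] at hmain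
  rw [← hW]
  obtain ⟨P, hP⟩ : ∃ P, P = (Ioc u (u + H) \ T).powersetCard k := ⟨_, rfl⟩
  rw [← hP] at hmain ⊢
  have hPH : (P.card : ℝ) ≤ (H : ℝ) ^ k := by
    rw [hP]
    exact pow_card sdiff_subset k
  -- right-hand side
  have r1 : ∑ D ∈ P, g D * ((FS N S' D).card : ℝ) ≤
      ∑ D ∈ P, g D * ((S.filter (fun n => ∀ d ∈ D, APx x (n + d))).card : ℝ) := by
    apply sum_le_sum
    intro D _
    apply mul_le_mul_of_nonneg_left _ (hg0 D)
    have : FS N S' D ⊆ S.filter (fun n => ∀ d ∈ D, APx x (n + d)) := by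
      intro n hn
      unfold FS at hn
      rw [mem_filter] at hn ⊢
      exact ⟨hS'S hn.1, fun d hd => hAP _ (hn.2 d hd)⟩
    exact_mod_cast card_le_card this
  -- left-hand side
  have r2 : ∑ D ∈ P, g D * ((S.filter (fun n => ∀ d ∈ D, Nat.Coprime W (n + d))).card : ℝ) ≤
      ∑ D ∈ P, g D * ((S'.filter (fun n => ∀ d ∈ D, Nat.Coprime W (n + d))).card : ℝ) + (H : ℝ) ^ k * (2 * x ^ (1 / 2 : ℝ)) := by
    have h2 : ∀ D ∈ P, g D * ((S.filter (fun n => ∀ d ∈ D, Nat.Coprime W (n + d))).card : ℝ) ≤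
        g D * ((S'.filter (fun n => ∀ d ∈ D, Nat.Coprime W (n + d))).card : ℝ) + 2 * x ^ (1 / 2 : ℝ) := by
      intro D _
      have h3 : (S.filter (fun n => ∀ d ∈ D, Nat.Coprime W (n + d))).card ≤
          (S'.filter (fun n => ∀ d ∈ D, Nat.Coprime W (n + d))).card + Nat.sqrt (2 * N) := by
        have h4 : S.filter (fun n => ∀ d ∈ D, Nat.Coprime W (n + d)) ⊆
            S'.filter (fun n => ∀ d ∈ D, Nat.Coprime W (n + d)) ∪ Icc 1 (Nat.sqrt (2 * N)) := by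
          intro n hn
          rw [mem_filter] at hn
          rw [mem_union, mem_filter, mem_Icc, hS', mem_filter]
          by_cases h5 : Nat.sqrt (2 * N) < n
          · left; exact ⟨⟨hn.1, h5⟩, hn.2⟩
          · right
            exact ⟨hRS n hn.1, by omega⟩
        have h5 := (card_le_card h4).trans (card_union_le _ _)
        rwa [Nat.card_Icc, Nat.add_sub_cancel] at h5
      have h4 : ((S.filter (fun n => ∀ d ∈ D, Nat.Coprime W (n + d))).card : ℝ) ≤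
          ((S'.filter (fun n => ∀ d ∈ D, Nat.Coprime W (n + d))).card : ℝ) + (Nat.sqrt (2 * N) : ℝ) := by exact_mod_cast h3
      have h5 : (Nat.sqrt (2 * N) : ℝ) ≤ 2 * x ^ (1 / 2 : ℝ) := by
        refine (Real.nat_sqrt_le_real_sqrt).trans ?_
        have h7 : √((2 * N : ℕ) : ℝ) ≤ √(4 * x) := by
          apply Real.sqrt_le_sqrt
          push_cast
          linarith
        refine h7.trans (le_of_eq ?_)
        rw [Real.sqrt_mul (by norm_num), ← Real.sqrt_eq_rpow]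
        congr 1
        rw [show (4 : ℝ) = 2 ^ 2 by norm_num, Real.sqrt_sq (by norm_num)]
      have h6 := mul_le_mul_of_nonneg_left (h4.trans (add_le_add le_rfl h5)) (hg0 D)
      rw [mul_add] at h6
      have h7 : g D * (2 * x ^ (1 / 2 : ℝ)) ≤ 2 * x ^ (1 / 2 : ℝ) := mul_le_of_le_one_left (by positivity) (hg1 D)
      linarith
    refine (sum_le_sum h2).trans ?_
    rw [sum_add_distrib, sum_const, nsmul_eq_mul]
    exact add_le_add le_rfl (mul_le_mul_of_nonneg_right hPH (by positivity))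
  obtain ⟨Q, hQ⟩ : ∃ Q, Q = ∑ D ∈ P, g D * ((S.filter (fun n => ∀ d ∈ D, Nat.Coprime W (n + d))).card : ℝ) :=
    ⟨_, rfl⟩
  obtain ⟨Q', hQ'⟩ : ∃ Q', Q' = ∑ D ∈ P, g D * ((S'.filter (fun n => ∀ d ∈ D, Nat.Coprime W (n + d))).card : ℝ) :=
    ⟨_, rfl⟩
  rw [← hQ, ← hQ'] at r2
  rw [← hQ'] at hmain
  rw [← hQ]
  have hQ'0 : 0 ≤ Q' := by
    rw [hQ']; exact sum_nonneg fun D _ => mul_nonneg (hg0 D) (Nat.cast_nonneg _)
  have hCTc : c ≤ Uni.CT T := hlow T hTj hCT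
  have hCT0 := Uni.CT_nonneg T
  have hxk : (H / L) ^ k * (N / L ^ j) ≤ 2 * ((H / l) ^ k * (x / l ^ j)) := by
    have h3 : (N : ℝ) / L ^ (j + k) ≤ (1 + η) ^ (j + k) * (x / l ^ (j + k)) := by
      rw [mul_div_assoc', div_le_div_iff₀ (by positivity) (by positivity)]
      have : l ^ (j + k) ≤ ((1 + η) * L) ^ (j + k) := pow_le_pow_left₀ hl0.le a4 _
      calc (N : ℝ) * l ^ (j + k) ≤ x * ((1 + η) * L) ^ (j + k) := mul_le_mul a6 this (by positivity) hx0.le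
        _ = _ := by rw [mul_pow]; ring
    have h4 : (N : ℝ) / L ^ (j + k) ≤ 2 * (x / l ^ (j + k)) := by
      refine h3.trans (mul_le_mul_of_nonneg_right ?_ (by positivity))
      linarith
    have e1 : (H / L) ^ k * (N / L ^ j) = N / L ^ (j + k) * (H : ℝ) ^ k := by rw [pow_add, div_pow]; field_simp
    have e2 : 2 * ((H / l) ^ k * (x / l ^ j)) = 2 * (x / l ^ (j + k)) * (H : ℝ) ^ k := by
      rw [pow_add, div_pow]; field_simp
    rw [e1, e2]
    exact mul_le_mul_of_nonneg_right h4 (by positivity)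
  have f1 : ε / 4 * ((H / L) ^ k * (N / L ^ j * Uni.CT T)) ≤ ε / 2 * ((H / l) ^ k * (Uni.CT T * (x / l ^ j))) := by
    have h2 := mul_le_mul_of_nonneg_left hxk (show 0 ≤ ε / 4 * Uni.CT T by positivity)
    calc ε / 4 * ((H / L) ^ k * (N / L ^ j * Uni.CT T)) = ε / 4 * Uni.CT T * ((H / L) ^ k * (N / L ^ j)) := by ring
      _ ≤ ε / 4 * Uni.CT T * (2 * ((H / l) ^ k * (x / l ^ j))) := h2
      _ = _ := by ring
  have f2 : (c0 * ((W : ℝ) / Nat.totient W) / l) ^ k * ((H : ℝ) ^ k * (2 * x ^ (1 / 2 : ℝ))) ≤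
      ε / 2 * ((H / l) ^ k * (Uni.CT T * (x / l ^ j))) := by
    have h2 : (W : ℝ) / Nat.totient W ≤ W := div_le_self hW0.le hφ1
    have h3 : c0 * ((W : ℝ) / Nat.totient W) ≤ W := by
      calc c0 * ((W : ℝ) / Nat.totient W) ≤ 1 * W := mul_le_mul hc1 h2 (by positivity) zero_le_one
        _ = W := one_mul _
    have h4 : x ^ (1 / 2 : ℝ) * l ^ j ≤ ε * c / (4 * W ^ k) * x := by
      calc x ^ (1 / 2 : ℝ) * l ^ j ≤ x ^ (1 / 2 : ℝ) * (ε * c / (4 * W ^ k) * x ^ (1 / 2 : ℝ)) :=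
            mul_le_mul_of_nonneg_left hsm (by positivity)
        _ = ε * c / (4 * W ^ k) * (x ^ (1 / 2 : ℝ) * x ^ (1 / 2 : ℝ)) := by ring
        _ = _ := by rw [← Real.rpow_add hx0]; norm_num
    have h5 : (W : ℝ) ^ k * (2 * x ^ (1 / 2 : ℝ)) ≤ ε / 2 * (c * (x / l ^ j)) := by
      rw [mul_div_assoc', mul_div_assoc', le_div_iff₀ (by positivity)]
      calc (W : ℝ) ^ k * (2 * x ^ (1 / 2 : ℝ)) * l ^ j = 2 * W ^ k * (x ^ (1 / 2 : ℝ) * l ^ j) := by ring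
        _ ≤ 2 * W ^ k * (ε * c / (4 * W ^ k) * x) := mul_le_mul_of_nonneg_left h4 (by positivity)
        _ = _ := by
            field_simp
            norm_num
    have h6 : (c0 * ((W : ℝ) / Nat.totient W)) ^ k ≤ W ^ k := pow_le_pow_left₀ (by positivity) h3 k
    calc (c0 * ((W : ℝ) / Nat.totient W) / l) ^ k * ((H : ℝ) ^ k * (2 * x ^ (1 / 2 : ℝ))) =
        (c0 * ((W : ℝ) / Nat.totient W)) ^ k * (2 * x ^ (1 / 2 : ℝ) * (H / l) ^ k) := by
          rw [div_pow, div_pow]; ring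
      _ ≤ W ^ k * (2 * x ^ (1 / 2 : ℝ) * (H / l) ^ k) := mul_le_mul_of_nonneg_right h6 (by positivity)
      _ = (W ^ k * (2 * x ^ (1 / 2 : ℝ))) * (H / l) ^ k := by ring
      _ ≤ (ε / 2 * (c * (x / l ^ j))) * (H / l) ^ k := mul_le_mul_of_nonneg_right h5 (by positivity)
      _ ≤ (ε / 2 * (Uni.CT T * (x / l ^ j))) * (H / l) ^ k := by
          apply mul_le_mul_of_nonneg_right _ (by positivity)
          apply mul_le_mul_of_nonneg_left _ (by positivity)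
          exact mul_le_mul_of_nonneg_right hCTc (by positivity)
      _ = _ := by ring
  have f3 : (c0 * ((W : ℝ) / Nat.totient W) / l) ^ k * Q ≤ (c0 * ((W : ℝ) / Nat.totient W) / L) ^ k * Q' +
      (c0 * ((W : ℝ) / Nat.totient W) / l) ^ k * ((H : ℝ) ^ k * (2 * x ^ (1 / 2 : ℝ))) := by
    have h2 := mul_le_mul_of_nonneg_left r2 (show 0 ≤ (c0 * ((W : ℝ) / Nat.totient W) / l) ^ k by positivity)
    rw [mul_add] at h2
    refine h2.trans (add_le_add ?_ le_rfl)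
    apply mul_le_mul_of_nonneg_right _ hQ'0
    apply pow_le_pow_left₀ (by positivity)
    exact div_le_div_of_nonneg_left (by positivity) hL0 a3
  linarith

open Classical in
/-- the bad sets of shifts, for a set `S` of tuples -/
noncomputable def bdSU (x c ε : ℝ) (W j k : ℕ) (T S I : Finset ℕ) : Finset (Finset ℕ) :=
  ((I \ T).powersetCard k).filter (fun D => ((S.filter (fun n => ∀ d ∈ D, APx x (n + d))).card : ℝ) <
    (c * ((W : ℝ) / Nat.totient W) / Real.log x) ^ k *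
      ((S.filter (fun n => ∀ d ∈ D, Nat.Coprime W (n + d))).card : ℝ) -
    ε * Uni.CT T * (x / Real.log x ^ (j + k)))

theorem baseAEU : ∃ c0 : ℝ, 0 < c0 ∧ c0 ≤ 1 ∧ ∀ (j k : ℕ) (ε : ℝ), 0 < ε →
    ∃ K : ℝ, 1 ≤ K ∧ ∃ w0 : ℕ, ∀ w : ℕ, w0 ≤ w → ∀ A : ℝ, 0 ≤ A → ∀ᶠ x : ℝ in atTop,
      ∀ T : Finset ℕ, T.card = j → Uni.CT T ≠ 0 → (∀ t ∈ T, (t : ℝ) ≤ x) →
      ∀ u H : ℕ, ((u + H : ℕ) : ℝ) ≤ x → K * Real.log x ≤ H → (H : ℝ) ≤ Real.log x ^ A → ∀ S ⊆ RU x T,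
        ((bdSU x c0 ε (Uni.WW w) j k T S (Ioc u (u + H))).card : ℝ) ≤ ε * (H.choose k : ℝ) := by
  classical
  obtain ⟨c0, hc0, hc1, HB⟩ := baseRU
  refine ⟨c0, hc0, hc1, fun j k ε hε => ?_⟩
  have hf0 : (0 : ℝ) < k.factorial := by exact_mod_cast k.factorial_pos
  obtain ⟨e, he⟩ : ∃ e : ℝ, e = ε * ε / (2 ^ k * k.factorial) := ⟨_, rfl⟩
  have he0 : 0 < e := by rw [he]; positivity
  obtain ⟨K, hK, w0, h1⟩ := HB j k e he0
  refine ⟨K, hK, w0, fun w hw A hA => ?_⟩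
  filter_upwards [h1 w hw A hA, Real.tendsto_log_atTop.eventually_ge_atTop (max 1 (2 * k : ℝ)),
    eventually_gt_atTop 0] with x g1 hlog hx0
  intro T hTj hCT hTA u H huH hKH hHA S hS
  have hl1 : 1 ≤ Real.log x := (le_max_left _ _).trans hlog
  have hl2 : (2 * k : ℝ) ≤ Real.log x := (le_max_right _ _).trans hlog
  have hl0 : 0 < Real.log x := by linarith
  have hlH : Real.log x ≤ H := (le_mul_of_one_le_left hl0.le hK).trans hKH
  have hkH : 2 * k ≤ H := by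
    have : ((2 * k : ℕ) : ℝ) ≤ H := by push_cast; linarith
    exact_mod_cast this
  have hchoose := TB.pow_le_choose k H hkH
  have hCTpos : 0 < Uni.CT T := lt_of_le_of_ne (Uni.CT_nonneg _) (Ne.symm hCT)
  obtain ⟨W, hW⟩ : ∃ W, W = Uni.WW w := ⟨_, rfl⟩
  rw [← hW]
  obtain ⟨Bd, hBd⟩ : ∃ Bd, Bd = bdSU x c0 ε W j k T S (Ioc u (u + H)) := ⟨_, rfl⟩
  rw [← hBd]
  have hmain := g1 T hTj hCT hTA u H huH hKH hHA (fun D => if D ∈ Bd then 1 else 0)
    (fun D => by split_ifs <;> norm_num) (fun D => by split_ifs <;> norm_num) S hS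
  rw [← hW] at hmain
  obtain ⟨P, hP⟩ : ∃ P, P = (Ioc u (u + H) \ T).powersetCard k := ⟨_, rfl⟩
  have hBdP : Bd ⊆ P := by
    rw [hBd, hP]
    unfold bdSU
    exact filter_subset _ _
  rw [← hP] at hmain
  have hind : ∀ F : Finset ℕ → ℝ, ∑ D ∈ P, (if D ∈ Bd then (1 : ℝ) else 0) * F D = ∑ D ∈ Bd, F D := by
    intro F
    simp only [ite_mul, one_mul, zero_mul]
    rw [← sum_filter]
    apply sum_congr _ (fun _ _ => rfl)
    ext D
    rw [mem_filter]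
    exact ⟨fun h => h.2, fun h => ⟨hBdP h, h⟩⟩
  rw [hind, hind] at hmain
  have h2 : ∑ D ∈ Bd, ((S.filter (fun n => ∀ d ∈ D, APx x (n + d))).card : ℝ) ≤
      ∑ D ∈ Bd, ((c0 * ((W : ℝ) / Nat.totient W) / Real.log x) ^ k *
        ((S.filter (fun n => ∀ d ∈ D, Nat.Coprime W (n + d))).card : ℝ) -
        ε * Uni.CT T * (x / Real.log x ^ (j + k))) := by
    apply sum_le_sum
    intro D hD
    rw [hBd] at hD
    unfold bdSU at hD
    rw [mem_filter] at hD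
    exact hD.2.le
  rw [sum_sub_distrib, ← mul_sum, sum_const, nsmul_eq_mul] at h2
  have e1 : e * ((H / Real.log x) ^ k * (Uni.CT T * (x / Real.log x ^ j))) =
      (e * (H : ℝ) ^ k) * (Uni.CT T * (x / Real.log x ^ (j + k))) := by
    rw [pow_add, div_pow]
    field_simp
  rw [e1] at hmain
  have h3 : ((Bd.card : ℝ) * ε) * (Uni.CT T * (x / Real.log x ^ (j + k))) ≤
      (e * (H : ℝ) ^ k) * (Uni.CT T * (x / Real.log x ^ (j + k))) := by
    have e2 : ((Bd.card : ℝ) * ε) * (Uni.CT T * (x / Real.log x ^ (j + k))) =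
        (Bd.card : ℝ) * (ε * Uni.CT T * (x / Real.log x ^ (j + k))) := by ring
    rw [e2]
    linarith
  have h4 := le_of_mul_le_mul_right h3 (by positivity)
  have h5 : e * (H : ℝ) ^ k ≤ ε * (ε * (H.choose k : ℝ)) := by
    refine (mul_le_mul_of_nonneg_left hchoose he0.le).trans (le_of_eq ?_)
    rw [he]
    field_simp
  have h6 : ε * (Bd.card : ℝ) ≤ ε * (ε * (H.choose k : ℝ)) := by linarith
  exact le_of_mul_le_mul_left h6 hε

/-- windows of any length, for one shift -/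
lemma long_win {P : Finset ℕ → Prop} [DecidablePred P] {T : Finset ℕ} {x ε K : ℝ} (hK : 1 ≤ K)
    (hl : 2 * K + 1 ≤ Real.log x) (h : ∀ v H : ℕ, ((v + H : ℕ) : ℝ) ≤ x → K * Real.log x ≤ H →
      (H : ℝ) ≤ Real.log x ^ (2 : ℝ) →
        ((((Ioc v (v + H) \ T).powersetCard 1).filter P).card : ℝ) ≤ ε * H) :
    ∀ v H : ℕ, ((v + H : ℕ) : ℝ) ≤ x → K * Real.log x ≤ H →
      ((((Ioc v (v + H) \ T).powersetCard 1).filter P).card : ℝ) ≤ ε * H := by
  classical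
  have hl0 : 0 < Real.log x := by linarith
  have hKl : 0 ≤ K * Real.log x := by positivity
  have hl2 : 2 * (K * Real.log x) + 1 ≤ Real.log x ^ (2 : ℝ) := by
    have e : Real.log x ^ (2 : ℝ) = Real.log x * Real.log x := by
      rw [show (2 : ℝ) = ((2 : ℕ) : ℝ) by norm_num, Real.rpow_natCast, sq]
    rw [e]
    nlinarith
  obtain ⟨h0, hh0⟩ : ∃ h0 : ℕ, h0 = ⌈K * Real.log x⌉₊ := ⟨_, rfl⟩
  have hh1 : K * Real.log x ≤ h0 := by rw [hh0]; exact Nat.le_ceil _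
  have hh2 : (h0 : ℝ) < K * Real.log x + 1 := by rw [hh0]; exact Nat.ceil_lt_add_one (by positivity)
  have hh00 : 0 < h0 := by
    have : (0 : ℝ) < h0 := lt_of_lt_of_le (by positivity) hh1
    exact_mod_cast this
  intro v H
  induction H using Nat.strong_induction_on generalizing v with
  | _ H ih =>
    intro hvH hKH
    rcases le_or_gt (H : ℝ) (Real.log x ^ (2 : ℝ)) with h1 | h1
    · exact h v H hvH hKH h1
    · have h3 : (h0 : ℝ) < H := by linarith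
      have h4 : h0 < H := by exact_mod_cast h3
      have hc1 : ((v + h0 : ℕ) : ℝ) ≤ x := by
        refine le_trans ?_ hvH
        exact_mod_cast (by omega : v + h0 ≤ v + H)
      have h5 := h v h0 hc1 hh1 (by linarith)
      have e1 : (v + h0) + (H - h0) = v + H := by omega
      have h6 := ih (H - h0) (by omega) (v + h0) (by rw [e1]; exact hvH) (by
        rw [Nat.cast_sub h4.le]
        linarith)
      rw [e1] at h6
      have h7 : (((Ioc v (v + H) \ T).powersetCard 1).filter P).card ≤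
          (((Ioc v (v + h0) \ T).powersetCard 1).filter P).card +
          (((Ioc (v + h0) (v + H) \ T).powersetCard 1).filter P).card := by
        refine le_trans (card_le_card ?_) (card_union_le _ _)
        intro D hD
        rw [mem_filter, mem_powersetCard] at hD
        rw [mem_union, mem_filter, mem_filter, mem_powersetCard, mem_powersetCard]
        obtain ⟨d, hd⟩ := card_eq_one.1 hD.1.2
        have h8 : d ∈ Ioc v (v + H) \ T := hD.1.1 (by rw [hd]; exact mem_singleton_self d)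
        rw [Finset.mem_sdiff, mem_Ioc] at h8
        rcases Nat.lt_or_ge (v + h0) d with h9 | h9
        · right
          refine ⟨⟨?_, hD.1.2⟩, hD.2⟩
          rw [hd, singleton_subset_iff, Finset.mem_sdiff, mem_Ioc]
          exact ⟨⟨h9, h8.1.2⟩, h8.2⟩
        · left
          refine ⟨⟨?_, hD.1.2⟩, hD.2⟩
          rw [hd, singleton_subset_iff, Finset.mem_sdiff, mem_Ioc]
          exact ⟨⟨h8.1.1, h9⟩, h8.2⟩
      have h8 : ((((Ioc v (v + H) \ T).powersetCard 1).filter P).card : ℝ) ≤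
          ((((Ioc v (v + h0) \ T).powersetCard 1).filter P).card : ℝ) +
          ((((Ioc (v + h0) (v + H) \ T).powersetCard 1).filter P).card : ℝ) := by exact_mod_cast h7
      refine h8.trans ((add_le_add h5 h6).trans (le_of_eq ?_))
      rw [Nat.cast_sub h4.le]
      ring

/-- both theorems, with windows of any length if `k = 1` -/
theorem finU : ∃ c : ℝ, 0 < c ∧ c ≤ 1 ∧
    (∀ (k : ℕ) (ε : ℝ), 0 < ε → ∃ K : ℝ, 1 ≤ K ∧ ∀ A : ℝ, 0 ≤ A →
      ∀ᶠ x : ℝ in atTop, ∀ b : ℕ, 1 ≤ b → (b : ℝ) ≤ x → Even b → ∀ v H : ℕ, ((v + H : ℕ) : ℝ) ≤ x →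
        K * Real.log x ≤ H → (k = 1 ∨ (H : ℝ) ≤ Real.log x ^ A) →
        ((bdX x b c k (Ioc v (v + H) \ {0, b})).card : ℝ) ≤ ε * (H.choose k : ℝ)) ∧
    ∀ (j k : ℕ) (ε : ℝ), 0 < ε → ∃ K : ℝ, 1 ≤ K ∧ ∃ w0 : ℕ, ∀ w : ℕ, w0 ≤ w → ∀ A : ℝ, 0 ≤ A →
      ∀ᶠ x : ℝ in atTop, ∀ T : Finset ℕ, T.card = j → Uni.CT T ≠ 0 → (∀ t ∈ T, (t : ℝ) ≤ x) →
        ∀ v H : ℕ, ((v + H : ℕ) : ℝ) ≤ x → K * Real.log x ≤ H → (k = 1 ∨ (H : ℝ) ≤ Real.log x ^ A) →
        ∀ S ⊆ RU x T, ((bdSU x c ε (Uni.WW w) j k T S (Ioc v (v + H))).card : ℝ) ≤ ε * (H.choose k : ℝ) := by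
  classical
  obtain ⟨c1, hc1, hc11, H1⟩ := realU
  obtain ⟨c2, hc2, hc21, H2⟩ := baseAEU
  obtain ⟨c, hc⟩ : ∃ c, c = min c1 c2 := ⟨_, rfl⟩
  have hc0 : 0 < c := by rw [hc]; exact lt_min hc1 hc2
  have hcc1 : c ≤ c1 := by rw [hc]; exact min_le_left _ _
  have hcc2 : c ≤ c2 := by rw [hc]; exact min_le_right _ _
  refine ⟨c, hc0, hcc1.trans hc11, ?_, ?_⟩
  · intro k ε hε
    obtain ⟨K, hK, h1⟩ := H1 k ε hε
    refine ⟨K, hK, fun A hA => ?_⟩
    filter_upwards [h1 A hA, h1 2 (by norm_num), Real.tendsto_log_atTop.eventually_ge_atTop (2 * K + 1),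
      eventually_gt_atTop 0] with x g1 g2 hl hx0
    intro b hb1 hbx he v H hvH hKH hk
    have hl0 : 0 < Real.log x := by linarith
    have hsub : ((bdX x b c k (Ioc v (v + H) \ {0, b})).card : ℝ) ≤
        ((bdX x b c1 k (Ioc v (v + H) \ {0, b})).card : ℝ) := by
      rw [Nat.cast_le]
      apply card_le_card
      intro D hD
      unfold bdX at hD ⊢
      rw [mem_filter] at hD ⊢
      refine ⟨hD.1, lt_of_lt_of_le hD.2 ?_⟩
      have := Uni.CT_nonneg ({0, b} ∪ D)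
      exact mul_le_mul_of_nonneg_right (pow_le_pow_left₀ hc0.le hcc1 _) (by positivity)
    refine hsub.trans ?_
    rcases hk with hk | hk
    · subst hk
      rw [Nat.choose_one_right]
      unfold bdX
      apply long_win hK hl _ v H hvH hKH
      intro v' H' h3 h4 h5
      have h6 := g2 b hb1 hbx he v' H' h3 h4 h5
      rw [Nat.choose_one_right] at h6
      unfold bdX at h6
      exact h6
    · exact g1 b hb1 hbx he v H hvH hKH hk
  · intro j k ε hε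
    obtain ⟨K, hK, w0, h1⟩ := H2 j k ε hε
    refine ⟨K, hK, w0, fun w hw A hA => ?_⟩
    filter_upwards [h1 w hw A hA, h1 w hw 2 (by norm_num), Real.tendsto_log_atTop.eventually_ge_atTop (2 * K + 1),
      eventually_gt_atTop 0] with x g1 g2 hl hx0
    intro T hTj hCT hTx v H hvH hKH hk S hS
    have hl0 : 0 < Real.log x := by linarith
    have hsub : ((bdSU x c ε (Uni.WW w) j k T S (Ioc v (v + H))).card : ℝ) ≤
        ((bdSU x c2 ε (Uni.WW w) j k T S (Ioc v (v + H))).card : ℝ) := by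
      rw [Nat.cast_le]
      apply card_le_card
      intro D hD
      unfold bdSU at hD ⊢
      rw [mem_filter] at hD ⊢
      refine ⟨hD.1, lt_of_lt_of_le hD.2 ?_⟩
      apply sub_le_sub_right
      apply mul_le_mul_of_nonneg_right _ (Nat.cast_nonneg _)
      apply pow_le_pow_left₀ (by positivity)
      apply div_le_div_of_nonneg_right _ hl0.le
      exact mul_le_mul_of_nonneg_right hcc2 (by positivity)
    refine hsub.trans ?_
    rcases hk with hk | hk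
    · subst hk
      rw [Nat.choose_one_right]
      unfold bdSU
      apply long_win hK hl _ v H hvH hKH
      intro v' H' h3 h4 h5
      have h6 := g2 T hTj hCT hTx v' H' h3 h4 h5 S hS
      rw [Nat.choose_one_right] at h6
      unfold bdSU at h6
      exact h6
    · exact g1 T hTj hCT hTx v H hvH hKH hk S hS

end Pool.Agent.L0h43.TG
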