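import Pool.Agent.L0h43.TG.Avg
import Pool.Agent.L0h43.TD.MTM

/-!
# One more almost prime: general shifts
-/

set_option autoImplicit false

namespace Pool.Agent.L0h43.TG

open Finset Filter Topology Pool.Agent.H387R2
open Pool.Agent.L0h43.TA Pool.Agent.L0h43.TB Pool.Agent.L0h43.TD Pool.Agent.L0h43.TF
open Pool.Agent.H386R2.HL
open Pool.Agent.R490.P3c (lam Pi1 wt)

open Classical in
/-- the minorant of the almost primes: the variance -/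
theorem MTLaG (hMAV : S_MAV) : ∃ c0 : ℝ, 0 < c0 ∧ ∀ (j : ℕ) (ε : ℝ), 0 < ε → ε ≤ 1 →
    ∃ K : ℝ, 1 ≤ K ∧ ∃ w0 : ℕ, ∀ w : ℕ, w0 ≤ w → ∀ A : ℝ, 0 ≤ A → ∃ N₀ : ℕ, ∀ N : ℕ, N₀ ≤ N →
      ∀ T : Finset ℕ, T.card = j →
      (∀ t ∈ T, Gd N A t) → ∀ ν : ℕ, ν < Uni.WW w → (∀ t ∈ T, Nat.Coprime (Uni.WW w) (ν + t)) →
      ∀ u H : ℕ, K * Real.log N ≤ H → ((u + H : ℕ) : ℝ) ≤ Real.log N ^ A → ∀ g : ℕ → ℝ,
      (∀ h, 0 ≤ g h) → (∀ h, g h ≤ 1) →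
      ∃ (m Cc E2 : ℝ) (J : ℕ) (P : Finset ℕ) (a : Finset ℕ → ℝ), 1 ≤ N ∧
        (2 : ℝ) ^ 2 ^ J ≤ (N : ℝ) ^ (1 / 256 : ℝ) ∧ 0 ≤ Cc ∧ Cc * E2 ≤ ε ^ 2 ∧
        c0 * ((Uni.WW w : ℝ) / Nat.totient (Uni.WW w)) * (∑ h ∈ Jv (Uni.WW w) ν u H \ T, g h) / Real.log N ≤ m ∧
        (∀ h ∈ Ioc u (u + H), h < 2 ^ 2 ^ J) ∧ 2 ^ 2 ^ J ≤ N ∧
        (∀ m : ℕ, m ≠ 0 → m ≤ 2 * N → Ro J m → lam P a m ≤ 1 ∧ (0 < lam P a m →
          (∀ p : ℕ, p.Prime → (N : ℝ) ^ (3 / 25 : ℝ) ≤ p → (p : ℝ) < (N : ℝ) ^ (47 / 100 : ℝ) → ¬ p ^ 2 ∣ m) →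
          AP N m)) ∧
        ((NN N (Uni.WW w) ν J T).card : ℝ) ≤ Cc * Eo N w T ∧
        ∑ n ∈ NN N (Uni.WW w) ν J T, (Yf J P a (Jv (Uni.WW w) ν u H \ T) g n - m) ^ 2 ≤
          E2 * (Eo N w T * (H / Real.log N) ^ 2) := by
  obtain ⟨c0, hc0, HS⟩ := setupL
  obtain ⟨C, hC, HC⟩ := CG_w
  refine ⟨c0, hc0, fun j ε hε hε1 => ?_⟩
  obtain ⟨b, k, B, U0, s, hb, hB, hU0, hs, hpar0, N1, hN1⟩ := HS C (j + 2) j (j + 3) hC (ε ^ 2 / 305) (by positivity)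
  have hBj : (1 : ℝ) ≤ B ^ j := one_le_pow₀ hB
  obtain ⟨ε1, hε1def⟩ : ∃ ε1 : ℝ, ε1 = ε ^ 2 / 305 / B ^ j := ⟨_, rfl⟩
  have hε10 : 0 < ε1 := by rw [hε1def]; positivity
  have hε11 : ε1 ≤ 1 := by
    rw [hε1def, div_div, div_le_one (by positivity)]
    have h1 : ε ^ 2 ≤ 1 := pow_le_one₀ hε.le hε1
    linarith
  have hpar : B ^ (2 + j) * U0 ^ 2 * (1 / 2) ^ b ≤ ε1 := by
    rw [hε1def, le_div_iff₀ (by positivity)]
    refine le_trans (le_of_eq ?_) hpar0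
    rw [show 2 + 2 * j = (2 + j) + j by ring, pow_add B (2 + j) j]
    ring
  have hBp : (1 : ℝ) ≤ B ^ (2 + j) := one_le_pow₀ hB
  have hU02 : (1 : ℝ) ≤ U0 ^ 2 := one_le_pow₀ hU0
  obtain ⟨δ', hδ'def⟩ : ∃ δ' : ℝ, δ' = ε1 / (8 * B ^ (2 + j) * U0 ^ 2 * (2 * j + 1)) := ⟨_, rfl⟩
  have hj0 : (0 : ℝ) ≤ j := Nat.cast_nonneg _
  have hδ'0 : 0 < δ' := by rw [hδ'def]; positivity
  have hσ : (2 * (j : ℝ) + 1) * δ' = ε1 / (8 * B ^ (2 + j) * U0 ^ 2) := by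
    rw [hδ'def]; field_simp
  have hσ1 : (2 * (j : ℝ) + 1) * δ' ≤ 1 := by
    rw [hσ, div_le_one (by positivity)]
    have h1 : 1 ≤ B ^ (2 + j) * U0 ^ 2 := one_le_mul_of_one_le_of_one_le hBp hU02
    linarith
  have hjδ : (j : ℝ) * δ' ≤ 1 := by
    have h1 : (j : ℝ) * δ' ≤ (2 * (j : ℝ) + 1) * δ' := mul_le_mul_of_nonneg_right (by linarith) hδ'0.le
    linarith
  obtain ⟨w1, hw11, hw1⟩ := m_avgG hMAV (2 * (2 * j + 1)) δ' hδ'0
  obtain ⟨k3, hk3⟩ : ∃ k3 : ℝ, k3 = (2 * 2 ^ k) ^ 2 := ⟨_, rfl⟩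
  have hk31 : 1 ≤ k3 := by
    rw [hk3]
    apply one_le_pow₀
    have : (1 : ℝ) ≤ 2 ^ k := one_le_pow₀ (by norm_num)
    linarith
  obtain ⟨K, hK⟩ : ∃ K : ℝ, K = max 1 (16 * k3 * B ^ (j + 1) / ε1) := ⟨_, rfl⟩
  have hK1 : 1 ≤ K := by rw [hK]; exact le_max_left _ _
  have hKc : 16 * k3 * B ^ (j + 1) / ε1 ≤ K := by rw [hK]; exact le_max_right _ _
  refine ⟨K, hK1, max w1 (max (4 * (j + 1)) (max (2 * j ^ 2 + 1) ⌈64 * j * B ^ (2 + j) * U0 ^ 2 / ε1⌉₊)), ?_⟩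
  intro w hw A hA
  have hww1 : w1 ≤ w := (le_max_left _ _).trans hw
  have hw4 : 4 * (j + 1) ≤ w := ((le_max_left _ _).trans (le_max_right _ _)).trans hw
  have hwj : 2 * j ^ 2 + 1 ≤ w := ((le_max_left _ _).trans ((le_max_right _ _).trans (le_max_right _ _))).trans hw
  have hwc : (64 * j * B ^ (2 + j) * U0 ^ 2 / ε1 : ℝ) ≤ w := by
    have h1 : ⌈64 * j * B ^ (2 + j) * U0 ^ 2 / ε1⌉₊ ≤ w :=
      ((le_max_right _ _).trans ((le_max_right _ _).trans (le_max_right _ _))).trans hw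
    exact (Nat.le_ceil _).trans (by exact_mod_cast h1)
  have hw1' : 1 ≤ w := hw11.trans hww1
  have hw0R : (0 : ℝ) < w := by exact_mod_cast hw1'
  obtain ⟨W, hW⟩ : ∃ W, W = Uni.WW w := ⟨_, rfl⟩
  have hWpos : 0 < W := by rw [hW]; exact Uni.WW_pos w
  have hWw : ∀ p : ℕ, p.Prime → (p ∣ W ↔ p ≤ w) := fun p hp => by rw [hW]; exact dvd_WW hp
  have hW0 : (0 : ℝ) < W := by exact_mod_cast hWpos
  have hφ0 : (0 : ℝ) < Nat.totient W := by exact_mod_cast Nat.totient_pos.2 hWpos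
  obtain ⟨NH, hNH⟩ := hw1 w hww1 W hWpos hWw A hA
  obtain ⟨H0, hH0⟩ : ∃ H0 : ℕ, H0 = 0 := ⟨_, rfl⟩
  rw [← hW]
  obtain ⟨cQ, hcQ⟩ : ∃ cQ : ℝ, cQ = (1 + k3 + 4 * (B * U0) + 4 * (B * U0) ^ 2) / (ε1 * (1 / (2 * (W : ℝ)))) := ⟨_, rfl⟩
  obtain ⟨c1, hc1⟩ : ∃ c1 : ℝ, c1 = 2 + w + 2 * j ^ 2 + 16 * B ^ (2 + j) * U0 ^ 3 / ε1 := ⟨_, rfl⟩
  have hq0 : 0 ≤ 16 * B ^ (2 + j) * U0 ^ 3 / ε1 := by positivity
  -- limits
  have tN : Tendsto (fun N : ℕ => (N : ℝ)) atTop atTop := tendsto_natCast_atTop_atTop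
  have tL : Tendsto (fun N : ℕ => Real.log (N : ℝ)) atTop atTop := Real.tendsto_log_atTop.comp tN
  have tp : Tendsto (fun N : ℕ => (N : ℝ) ^ s) atTop atTop := (tendsto_rpow_atTop hs).comp tN
  have hsmall : ∀ᶠ N : ℕ in atTop, Real.log N ^ A ≤ 1 / 2 * (N : ℝ) ^ s := by
    have h := (isLittleO_log_rpow_rpow_atTop A (s := s) hs).def (show (0 : ℝ) < 1 / 2 by norm_num)
    filter_upwards [tN.eventually h, tL.eventually_ge_atTop 0] with N h1 h2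
    rw [Real.norm_of_nonneg (by positivity), Real.norm_of_nonneg (by positivity)] at h1
    exact h1
  obtain ⟨N₀, hN₀⟩ := eventually_atTop.1 (hsmall.and ((tL.eventually_ge_atTop (max 10
    (max (H0 : ℝ) (max (W : ℝ) cQ)))).and ((tp.eventually_ge_atTop (2 * c1)).and
    (eventually_ge_atTop (max (max N1 NH) 1)))))
  refine ⟨N₀, ?_⟩
  intro N hN T hTj hTA ν hν hcop u H hKH hHA g hg0 hg1
  obtain ⟨l1, l2, l3, l4⟩ := hN₀ N hN
  have hNN1 : N1 ≤ N := ((le_max_left _ _).trans (le_max_left _ _)).trans l4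
  have hNNH : NH ≤ N := ((le_max_right _ _).trans (le_max_left _ _)).trans l4
  have hN1' : 1 ≤ N := (le_max_right _ _).trans l4
  have hN1R : (1 : ℝ) ≤ N := by exact_mod_cast hN1'
  have hN0 : (0 : ℝ) < N := by linarith
  set L := Real.log (N : ℝ) with hL
  have hL10 : 10 ≤ L := (le_max_left _ _).trans l2
  have hLH0 : (H0 : ℝ) ≤ L := ((le_max_left _ _).trans (le_max_right _ _)).trans l2
  have hLW : (W : ℝ) ≤ L := ((le_max_left _ _).trans ((le_max_right _ _).trans (le_max_right _ _))).trans l2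
  have hLcQ : cQ ≤ L := ((le_max_right _ _).trans ((le_max_right _ _).trans (le_max_right _ _))).trans l2
  have hL0 : 0 < L := by linarith
  obtain ⟨J, P, a, D, hQ, hPz, ha, hzs, hzN, hVL, hVS, hS0, hSU, hPiU, hsU, hkN, hD1, hADD, hE4, hdet⟩ := hN1 N hNN1
  rw [← hL] at hVL hVS hE4
  have hzR : ((2 ^ 2 ^ J : ℕ) : ℝ) = (2 : ℝ) ^ 2 ^ J := by push_cast; rfl
  have hLAz : L ^ A + c1 ≤ (2 : ℝ) ^ 2 ^ J := by
    refine le_trans ?_ hzs
    linarith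
  have hLA0 : 0 ≤ L ^ A := by positivity
  have hBg : Big J P := fun p hp => (hPz p hp).2.le
  have hwz : w < 2 ^ 2 ^ J := by
    have : (w : ℝ) < ((2 ^ 2 ^ J : ℕ) : ℝ) := by
      rw [hzR]
      refine lt_of_lt_of_le ?_ hLAz
      rw [hc1]
      have : 0 ≤ (j : ℝ) ^ 2 := by positivity
      linarith
    exact_mod_cast this
  have hjz : 2 * j ^ 2 + 1 < 2 ^ 2 ^ J := by
    have : ((2 * j ^ 2 + 1 : ℕ) : ℝ) < ((2 ^ 2 ^ J : ℕ) : ℝ) := by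
      rw [hzR]
      refine lt_of_lt_of_le ?_ hLAz
      rw [hc1]
      push_cast
      linarith
    exact_mod_cast this
  have hH1L : L ≤ H := by
    refine le_trans ?_ hKH
    exact le_mul_of_one_le_left hL0.le hK1
  have hH1 : (1 : ℝ) ≤ H := by linarith
  have hHpos : (0 : ℝ) < H := by linarith
  have hHH0 : H0 ≤ H := by
    have : (H0 : ℝ) ≤ H := hLH0.trans hH1L
    exact_mod_cast this
  have hHW : (W : ℝ) ≤ H := hLW.trans hH1L
  have hLAHA : L ^ A ≤ (H : ℝ) ^ A := Real.rpow_le_rpow hL0.le hH1L hA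
  have hzI : ∀ h ∈ Ioc u (u + H), h < 2 ^ 2 ^ J := by
    intro h hh
    have h1 : (h : ℝ) ≤ ((u + H : ℕ) : ℝ) := by exact_mod_cast (mem_Ioc.1 hh).2
    have : (h : ℝ) < ((2 ^ 2 ^ J : ℕ) : ℝ) := by
      rw [hzR]
      refine lt_of_lt_of_le ?_ hLAz
      have : 0 ≤ (j : ℝ) ^ 2 := by positivity
      have : 0 < c1 := by rw [hc1]; linarith
      linarith
    exact_mod_cast this
  have hz1 : 1 ≤ 2 ^ 2 ^ J := Nat.one_le_two_pow
  have hzleN : 2 ^ 2 ^ J ≤ N := by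
    have h1 : (2 : ℝ) ^ 2 ^ J ≤ N := by
      refine hzN.trans ?_
      calc (N : ℝ) ^ (1 / 256 : ℝ) ≤ (N : ℝ) ^ (1 : ℝ) := Real.rpow_le_rpow_of_exponent_le hN1R (by norm_num)
        _ = N := Real.rpow_one _
    rw [← hzR] at h1
    exact_mod_cast h1
  obtain ⟨R, hR⟩ : ∃ R, R = Jv W ν u H \ T := ⟨_, rfl⟩
  have hRJ : R ⊆ Jv W ν u H := by rw [hR]; exact sdiff_subset
  have hRI : ∀ h ∈ R, h ∈ Ioc u (u + H) := by
    intro h hh
    have := hRJ hh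
    unfold Jv at this
    exact (mem_filter.1 this).1
  have hRT : Disjoint R T := by rw [hR]; exact sdiff_disjoint
  have hRcop : ∀ h ∈ R, Nat.Coprime W (ν + h) := by
    intro h hh
    have := hRJ hh
    unfold Jv at this
    exact (mem_filter.1 this).2
  rw [← hR]
  -- the gcd sum
  have hgT : 0 < Uni.gT W T := gT_pos hν hcop
  have hgT0 : (0 : ℝ) < Uni.gT W T := by exact_mod_cast hgT
  obtain ⟨X0, hX0⟩ : ∃ X0 : ℝ, X0 = Xo N w T := ⟨_, rfl⟩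
  have hX0low : 1 / (2 * (W : ℝ)) ≤ X0 := by
    rw [hX0]
    have := Xo_low (N := N) (w := w) T hw1' (by rw [hTj]; omega)
    rwa [← hW] at this
  have hX0pos : 0 < X0 := lt_of_lt_of_le (by positivity) hX0low
  obtain ⟨ρ0, hρ0⟩ : ∃ ρ0 : ℝ, ρ0 = 1 / (W : ℝ) * Vw w J T := ⟨_, rfl⟩
  have hρ00 : 0 ≤ ρ0 := by rw [hρ0]; exact mul_nonneg (by positivity) (Vw_nonneg _ _ _)
  have hρle : ρ0 ≤ 2 * V1 J ^ j * X0 := by
    rw [hρ0, hX0]
    have := rho_leo (N := N) (w := w) (J := J) T (le_J0 hzN) (by rw [hTj]; exact hjz) hwz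
    rwa [← hW, hTj] at this
  obtain ⟨V, hV⟩ : ∃ V : ℝ, V = V1w w J := ⟨_, rfl⟩
  have hV0 : 0 < V := by rw [hV]; exact V1w_pos _ _
  have hVV : V1 J = (Nat.totient W : ℝ) / W * V := by
    rw [hV, hW]; exact V1_split hwz
  obtain ⟨HV, hHV⟩ : ∃ HV : ℝ, HV = (Nat.totient W : ℝ) / W * (H + W) := ⟨_, rfl⟩
  have hHV0 : 0 < HV := by rw [hHV]; positivity
  have hVHV : V * HV = V1 J * (H + W) := by rw [hHV, hVV]; ring
  have hV1L : V1 J ≤ B / L := by rw [le_div_iff₀ hL0]; exact hVL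
  have hV1pos := V1_pos J
  have hVHV2 : V * HV ≤ 2 * B * (H / L) := by
    rw [hVHV]
    calc V1 J * (H + W) ≤ B / L * (H + H) := by
          apply mul_le_mul hV1L (by linarith) (by positivity) (by positivity)
      _ = _ := by ring
  -- cardinalities
  have hJvcard : ((Jv W ν u H).card : ℝ) ≤ HV := by
    have := cop_up W ν u H hWpos
    unfold Jv
    refine this.trans (le_of_eq ?_)
    rw [hHV]
    field_simp
  have hRcard : (R.card : ℝ) ≤ HV := le_trans (by exact_mod_cast card_le_card hRJ) hJvcard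
  have hRH : (R.card : ℝ) ≤ H := by
    have h1 : R ⊆ Ioc u (u + H) := fun h hh => hRI h hh
    have h2 := card_le_card h1
    rw [Nat.card_Ioc] at h2
    have h3 : R.card ≤ H := by omega
    exact_mod_cast h3
  obtain ⟨G, hG⟩ : ∃ G : ℝ, G = ∑ h ∈ R, g h := ⟨_, rfl⟩
  have hG0 : 0 ≤ G := by rw [hG]; exact sum_nonneg fun h _ => hg0 h
  have hGH : G ≤ HV := by
    rw [hG]
    refine (sum_le_sum fun h _ => hg1 h).trans ?_
    rw [sum_const, nsmul_eq_mul, mul_one]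
    exact hRcard
  -- the averages of the local factors
  obtain ⟨Φ, hΦ⟩ : ∃ Φ : ℝ, Φ = (Nat.totient W : ℝ) / W * H := ⟨_, rfl⟩
  have hΦ0 : 0 ≤ Φ := by rw [hΦ]; positivity
  have hΦHV : Φ ≤ HV := by
    rw [hΦ, hHV]
    apply mul_le_mul_of_nonneg_left _ (by positivity)
    linarith
  have hm : ∀ t ∈ T ∪ R, ∑ h ∈ (Jv W ν u H).filter (fun h => h ≠ t),
      (mm w J (2 * (2 * j + 1)) (ds h t) - 1) ≤ δ' * Φ := by
    intro t ht
    rw [hΦ]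
    apply hNH N hNNH H hH1L J ν u t hzN hHA
    rcases mem_union.1 ht with ht | ht
    · exact hTA t ht
    · left
      have h2 : (t : ℝ) ≤ ((u + H : ℕ) : ℝ) := by exact_mod_cast (mem_Ioc.1 (hRI t ht)).2
      exact (h2.trans hHA).trans (Real.rpow_le_rpow_of_exponent_le (by linarith) (by linarith))
  have hs1 := sum_up1 (J := J) (w := w) (r := 2 * j + 1) hRJ hRT (by rw [hTj]; omega)
    (fun t ht => hm t (mem_union_left _ ht))
  have hs2 := sum_up2 (J := J) (w := w) (r := 2 * j + 1) (g := g) hRJ hRT (by rw [hTj]) (fun h _ => hg0 h)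
    (fun h _ => hg1 h) hm
  rw [hTj, ← hV] at hs1 hs2
  rw [← hG] at hs2
  -- the counting hypothesis
  obtain ⟨hNcard, hCG⟩ := HC (j + 2) b J N W w ν T hb (by rw [hTj]) hWpos hWw hwz hν hcop
  have hCG' := hCG R hRcop
  rw [← hρ0] at hNcard
  have hEg0 := Eg_nonneg C (j + 2) b J
  obtain ⟨gg, hgg⟩ : ∃ gg : ℝ, gg = S0 P a := ⟨_, rfl⟩
  rw [← hgg] at hVS hS0 hSU
  obtain ⟨η1, hη1⟩ : ∃ η1 : ℝ, η1 = U0 ^ 3 / ((2 : ℝ) ^ 2 ^ J) := ⟨_, rfl⟩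
  have hzp : (0 : ℝ) < (2 : ℝ) ^ 2 ^ J := by positivity
  have hzm : 16 * B ^ (2 + j) * U0 ^ 3 / ε1 ≤ (2 : ℝ) ^ 2 ^ J := by
    have : 0 ≤ (j : ℝ) ^ 2 := by positivity
    rw [hc1] at hLAz
    linarith
  have hη10 : 0 ≤ η1 := by rw [hη1]; positivity
  have hη1B : 16 * B ^ (2 + j) * η1 ≤ ε1 := by
    rw [hη1, mul_div_assoc', div_le_iff₀ hzp]
    rw [div_le_iff₀ hε10] at hzm
    linarith
  have hPi0 := Pool.Agent.R490.P3c.Pi1_nonneg P (fun p hp => hQ p hp)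
  obtain ⟨e1, he1⟩ : ∃ e1 : ℝ, e1 = η1 + (1 / 2) ^ b * U0 ^ 2 := ⟨_, rfl⟩
  have he10 : 0 ≤ e1 := by rw [he1]; positivity
  have hsP0 : 0 ≤ ∑ p ∈ P, 1 / (p : ℝ) := sum_nonneg fun p _ => by positivity
  have he1' : (2 : ℝ) ^ 2 * (Pi1 P ^ 2 * ((∑ p ∈ P, 1 / (p : ℝ)) / ((2 ^ 2 ^ J : ℕ) : ℝ))) +
      (1 / 2) ^ b * (2 * Pi1 P) ^ 2 ≤ e1 := by
    rw [he1, hη1, hzR]
    have h4 : (2 * Pi1 P) ^ 2 ≤ U0 ^ 2 := pow_le_pow_left₀ (by positivity) hPiU 2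
    have h5 : (1 / 2 : ℝ) ^ b * (2 * Pi1 P) ^ 2 ≤ (1 / 2) ^ b * U0 ^ 2 :=
      mul_le_mul_of_nonneg_left h4 (by positivity)
    have h6 : (2 : ℝ) ^ 2 * (Pi1 P ^ 2 * ((∑ p ∈ P, 1 / (p : ℝ)) / (2 : ℝ) ^ 2 ^ J)) ≤
        U0 ^ 3 / (2 : ℝ) ^ 2 ^ J := by
      calc (2 : ℝ) ^ 2 * (Pi1 P ^ 2 * ((∑ p ∈ P, 1 / (p : ℝ)) / (2 : ℝ) ^ 2 ^ J)) =
          ((2 * Pi1 P) ^ 2 * (∑ p ∈ P, 1 / (p : ℝ))) / (2 : ℝ) ^ 2 ^ J := by ring
        _ ≤ (U0 ^ 2 * U0) / (2 : ℝ) ^ 2 ^ J := by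
            apply div_le_div_of_nonneg_right _ hzp.le
            exact mul_le_mul h4 hsU hsP0 (by positivity)
        _ = _ := by ring
    linarith
  obtain ⟨ε2, hε2⟩ : ∃ ε2 : ℝ, ε2 = 4 * j / w := ⟨_, rfl⟩
  have hε20 : 0 ≤ ε2 := by rw [hε2]; positivity
  have hε2B : 16 * B ^ (2 + j) * ε2 * U0 ^ 2 ≤ ε1 := by
    have e : 16 * B ^ (2 + j) * ε2 * U0 ^ 2 = (64 * j * B ^ (2 + j) * U0 ^ 2) / w := by
      rw [hε2]; ring
    rw [e, div_le_iff₀ hw0R]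
    rw [div_le_iff₀ hε10] at hwc
    linarith
  obtain ⟨m, hmdef⟩ : ∃ m : ℝ, m = G * V * gg := ⟨_, rfl⟩
  have hm0 : 0 ≤ m := by rw [hmdef]; positivity
  obtain ⟨σ, hσdef⟩ : ∃ σ : ℝ, σ = (2 * (j : ℝ) + 1) * δ' := ⟨_, rfl⟩
  have hσ0 : 0 ≤ σ := by rw [hσdef]; positivity
  rw [← hσdef] at hσ hσ1
  have hlow : ∀ h ∈ R, (1 - ε2) * (ρ0 * V) ≤ 1 / (W : ℝ) * Vw w J (insert h (insert h T)) := by
    intro h _
    have h1 := Vw_low (J := J) (w := w) T h (by rw [hTj]; exact hw4)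
    rw [hTj, ← hε2, ← hV] at h1
    rw [insert_eq_of_mem (mem_insert_self h T), hρ0]
    have h2 := mul_le_mul_of_nonneg_left h1 (show (0 : ℝ) ≤ 1 / W by positivity)
    have e : (1 - ε2) * (1 / (W : ℝ) * Vw w J T * V) = 1 / (W : ℝ) * ((1 - ε2) * (Vw w J T * V)) := by ring
    rw [e]
    exact h2
  have hup1 : ∑ h ∈ R, 1 / (W : ℝ) * Vw w J (insert h (insert h T)) ≤ 2 * ρ0 * V * HV := by
    have h1 : ∀ h ∈ R, 1 / (W : ℝ) * Vw w J (insert h (insert h T)) = 1 / (W : ℝ) * Vw w J (insert h T) := by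
      intro h _
      rw [insert_eq_of_mem (mem_insert_self h T)]
    rw [sum_congr rfl h1, ← mul_sum]
    have h2 := mul_le_mul_of_nonneg_left hs1 (show (0 : ℝ) ≤ 1 / W by positivity)
    refine h2.trans ?_
    have e : 1 / (W : ℝ) * (Vw w J T * V * (R.card + j * (δ' * Φ))) = ρ0 * V * (R.card + j * δ' * Φ) := by
      rw [hρ0]; ring
    rw [e]
    have h3 : (R.card : ℝ) + j * δ' * Φ ≤ 2 * HV := by
      have : j * δ' * Φ ≤ 1 * HV := mul_le_mul hjδ hΦHV hΦ0 zero_le_one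
      linarith
    have h4 := mul_le_mul_of_nonneg_left h3 (show 0 ≤ ρ0 * V by positivity)
    linarith
  have hup2 : ∑ x ∈ R.offDiag, g x.1 * g x.2 * (1 / (W : ℝ) * Vw w J (insert x.1 (insert x.2 T))) ≤
      ρ0 * V ^ 2 * (G ^ 2 + σ * HV ^ 2) := by
    have h1 : ∑ x ∈ R.offDiag, g x.1 * g x.2 * (1 / (W : ℝ) * Vw w J (insert x.1 (insert x.2 T))) =
        1 / (W : ℝ) * ∑ x ∈ R.offDiag, g x.1 * g x.2 * Vw w J (insert x.1 (insert x.2 T)) := by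
      rw [mul_sum]
      apply sum_congr rfl
      intro x _
      ring
    rw [h1]
    have h2 := mul_le_mul_of_nonneg_left hs2 (show (0 : ℝ) ≤ 1 / W by positivity)
    refine h2.trans ?_
    have e : 1 / (W : ℝ) * (Vw w J T * V ^ 2 * (G ^ 2 + (2 * j + 1) * (R.card * (δ' * Φ)))) =
        ρ0 * V ^ 2 * (G ^ 2 + (2 * j + 1) * (R.card * (δ' * Φ))) := by
      rw [hρ0]; ring
    rw [e]
    apply mul_le_mul_of_nonneg_left _ (by positivity)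
    have h3 : (R.card : ℝ) * (δ' * Φ) ≤ HV * (δ' * HV) := by
      apply mul_le_mul hRcard _ (by positivity) hHV0.le
      exact mul_le_mul_of_nonneg_left hΦHV hδ'0.le
    have h4 := mul_le_mul_of_nonneg_left h3 (show 0 ≤ 2 * (j : ℝ) + 1 by positivity)
    rw [hσdef]
    have e2 : (2 * (j : ℝ) + 1) * δ' * HV ^ 2 = (2 * (j : ℝ) + 1) * (HV * (δ' * HV)) := by ring
    rw [e2]
    linarith
  have hvar := fvar (k := k) (y := 2 ^ 2 ^ J) hCG' hQ hBg ha hz1 hPz hN0.le hEg0 (fun h hh => hzI h (hRI h hh))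
    (by
      intro n hn h hh
      have h1 := NN_mem hn
      have h2 := hzI h (hRI h hh)
      constructor
      · omega
      · omega)
    (fun h1 h2 => mul_nonneg (by positivity) (Vw_nonneg _ _ _)) (g := g) (fun h _ => hg0 h) (fun h _ => hg1 h)
    hρ00 hV0.le hε20 (show 0 ≤ σ * HV ^ 2 by positivity) hG hGH hRH hgg hS0.le hmdef he1' he10 hNcard hlow hup1 hup2
  -- the main terms
  obtain ⟨Eh, hEh⟩ : ∃ Eh : ℝ, Eh = N / L ^ j * X0 * (H / L) ^ 2 := ⟨_, rfl⟩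
  have hEh0 : 0 ≤ Eh := by rw [hEh]; positivity
  have hXρ : N * ρ0 ≤ 2 * B ^ j * (N / L ^ j * X0) := by
    have h1 : V1 J ^ j ≤ (B / L) ^ j := pow_le_pow_left₀ hV1pos.le hV1L j
    calc N * ρ0 ≤ N * (2 * V1 J ^ j * X0) := mul_le_mul_of_nonneg_left hρle hN0.le
      _ ≤ N * (2 * (B / L) ^ j * X0) := by gcongr
      _ = _ := by rw [div_pow]; ring
  have hP : N * ρ0 * V ^ 2 * HV ^ 2 ≤ 8 * B ^ (2 + j) * Eh := by
    have h1 : (V * HV) ^ 2 ≤ (2 * B * (H / L)) ^ 2 := pow_le_pow_left₀ (by positivity) hVHV2 2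
    calc N * ρ0 * V ^ 2 * HV ^ 2 = (N * ρ0) * (V * HV) ^ 2 := by ring
      _ ≤ (2 * B ^ j * (N / L ^ j * X0)) * (2 * B * (H / L)) ^ 2 :=
          mul_le_mul hXρ h1 (by positivity) (by positivity)
      _ = 8 * B ^ (2 + j) * Eh := by rw [hEh, pow_add]; ring
  have hmain := mt_alg' (P := N * ρ0 * V ^ 2 * HV ^ 2) (Eh := Eh) (B := B) (U0 := U0) (β := (1 / 2) ^ b) (ε1 := ε1)
    (ε2 := ε2) (η1 := η1) (σ := σ) (gg := gg) (UU := 2 * Pi1 P) (e1 := e1) (Vv := N * ρ0 * V ^ 2) (HV := HV ^ 2)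
    (j := j) hP hEh0 hB hU0 (by positivity) hε20 hη10 hσ0 hσ1 hS0.le hSU (by positivity) hPiU he1 rfl hε2B hη1B
    (by rw [hσ]; field_simp; exact le_rfl) hpar
  have hDD : k3 * (4 * (N * ρ0 * V * HV)) ≤ ε1 * Eh := by
    have h1 : N * ρ0 * V * HV ≤ (2 * B ^ j * (N / L ^ j * X0)) * (2 * B * (H / L)) := by
      calc N * ρ0 * V * HV = (N * ρ0) * (V * HV) := by ring
        _ ≤ _ := mul_le_mul hXρ hVHV2 (by positivity) (by positivity)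
    have h2 : 16 * k3 * B ^ (j + 1) ≤ ε1 * (H / L) := by
      have h3 : K ≤ H / L := by rw [le_div_iff₀ hL0]; exact hKH
      have h4 := hKc.trans h3
      rw [div_le_iff₀ hε10] at h4
      linarith
    calc k3 * (4 * (N * ρ0 * V * HV)) ≤
          k3 * (4 * ((2 * B ^ j * (N / L ^ j * X0)) * (2 * B * (H / L)))) := by
          apply mul_le_mul_of_nonneg_left _ (by positivity)
          linarith
      _ = (16 * k3 * B ^ (j + 1)) * (N / L ^ j * X0 * (H / L)) := by rw [pow_succ]; ring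
      _ ≤ (ε1 * (H / L)) * (N / L ^ j * X0 * (H / L)) := mul_le_mul_of_nonneg_right h2 (by positivity)
      _ = ε1 * Eh := by rw [hEh]; ring
  have hAD0 := AD_nonneg P a
  have hBU : 1 ≤ B * U0 := one_le_mul_of_one_le_of_one_le hB hU0
  have hmB : m ≤ 2 * (B * U0) * H := by
    have h1 : G * V ≤ HV * V := mul_le_mul_of_nonneg_right hGH hV0.le
    have h2 : m ≤ HV * V * U0 := by
      rw [hmdef]
      exact mul_le_mul h1 hSU hS0.le (by positivity)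
    have h3 : 2 * B * (H / L) ≤ 2 * B * H := by
      apply mul_le_mul_of_nonneg_left _ (by positivity)
      exact div_le_self hHpos.le (by linarith)
    have e : HV * V = V * HV := mul_comm _ _
    rw [e] at h2
    refine h2.trans ?_
    calc V * HV * U0 ≤ (2 * B * H) * U0 := mul_le_mul_of_nonneg_right (hVHV2.trans h3) (by linarith)
      _ = _ := by ring
  have hcQ' : (1 + k3 + 4 * (B * U0) + 4 * (B * U0) ^ 2) / (ε1 * X0) ≤ L := by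
    refine le_trans ?_ hLcQ
    rw [hcQ]
    apply div_le_div_of_nonneg_left (by positivity) (by positivity)
    exact mul_le_mul_of_nonneg_left hX0low hε10.le
  have herr := err_alg (Hc := (H : ℝ)) (E := Eg C (j + 2) b J) (A4 := D ^ 2) (A2 := D)
    (Q := Eg C (j + 2) b J * D ^ 2) (m := m) (B := B * U0) (L := L) (k3 := k3) (N := N) (Eh := Eh)
    (ε1 := ε1) (D1 := N * ρ0 * V * HV) (X0 := X0) (j := j) hH1 hEg0 (one_le_pow₀ hD1)
    (le_self_pow₀ hD1 (by norm_num)) (by linarith) rfl hmB hm0 hBU (by linarith)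
    hk31 hE4 hEh hX0pos hε10 hcQ' hDD
  have hfin : ∑ n ∈ NN N W ν J T, (Yf J P a R g n - m) ^ 2 ≤ 61 * ε1 * Eh := by
    refine hvar.trans ?_
    have h1 : (H : ℝ) ^ 2 * (Eg C (j + 2) b J * AD P a ^ 2) ≤ (H : ℝ) ^ 2 * (Eg C (j + 2) b J * D ^ 2) := by
      apply mul_le_mul_of_nonneg_left _ (by positivity)
      exact mul_le_mul_of_nonneg_left (pow_le_pow_left₀ hAD0 hADD 2) hEg0
    have h2 : 2 * m * ((H : ℝ) * (Eg C (j + 2) b J * AD P a)) ≤ 2 * m * ((H : ℝ) * (Eg C (j + 2) b J * D)) := by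
      apply mul_le_mul_of_nonneg_left _ (by positivity)
      apply mul_le_mul_of_nonneg_left _ (by positivity)
      exact mul_le_mul_of_nonneg_left hADD hEg0
    rw [← hk3]
    linarith
  -- the cardinality of the rough tuples
  have hEw : Eo N w T = N / L ^ j * X0 := by
    unfold Eo
    rw [hTj, ← hX0]
  have hcard : ((NN N W ν J T).card : ℝ) ≤ 5 * B ^ j * Eo N w T := by
    refine card_alg (j := j) le_rfl hNcard (mul_nonneg hN0.le hρ00) (pow_le_one₀ (by norm_num) (by norm_num)) hEg0 hD1 hE4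
      (by linarith only [hL10]) hN0.le hX0pos hε10 hε11 ?_ hcQ' hEw hBj (by rw [hEw]; exact hXρ)
    have h1 : 0 ≤ (B * U0) ^ 2 := sq_nonneg _
    linarith only [h1, hk31, hBU]
  refine ⟨m, 5 * B ^ j, 61 * ε1, J, P, a, hN1', hzN, by positivity, ?_, ?_, hzI, hzleN, hdet, hcard, ?_⟩
  · rw [hε1def]
    apply le_of_eq
    field_simp
    ring
  · have h1 : (W : ℝ) / Nat.totient W * (c0 / L) ≤ V * gg := by
      have e : V * gg = (W : ℝ) / Nat.totient W * (V1 J * gg) := by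
        rw [hVV]; field_simp
      rw [e]
      exact mul_le_mul_of_nonneg_left hVS (by positivity)
    rw [hmdef, ← hG]
    calc c0 * ((W : ℝ) / Nat.totient W) * G / L = G * ((W : ℝ) / Nat.totient W * (c0 / L)) := by ring
      _ ≤ G * (V * gg) := mul_le_mul_of_nonneg_left h1 hG0
      _ = _ := by ring
  · rw [hEw, ← hEh]
    exact hfin

open Classical in
/-- **the almost primes in a window at a distance from a rough tuple: a minorant with small variance** -/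
theorem MTLvG (hMAV : S_MAV) : ∃ c0 : ℝ, 0 < c0 ∧ ∀ (j : ℕ) (ε : ℝ), 0 < ε → ε ≤ 1 →
    ∃ K : ℝ, 1 ≤ K ∧ ∃ w0 : ℕ, ∀ w : ℕ, w0 ≤ w → ∀ A : ℝ, 0 ≤ A → ∃ N₀ : ℕ, ∀ N : ℕ, N₀ ≤ N →
      ∀ T : Finset ℕ, T.card = j →
      (∀ t ∈ T, Gd N A t) → ∀ ν : ℕ, ν < Uni.WW w → (∀ t ∈ T, Nat.Coprime (Uni.WW w) (ν + t)) →
      ∀ u H : ℕ, K * Real.log N ≤ H → ((u + H : ℕ) : ℝ) ≤ Real.log N ^ A → ∀ g : ℕ → ℝ,
      (∀ h, 0 ≤ g h) → (∀ h, g h ≤ 1) →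
      ∃ (m : ℝ) (y : ℕ → ℝ),
        c0 * ((Uni.WW w : ℝ) / Nat.totient (Uni.WW w)) * (∑ h ∈ Jv (Uni.WW w) ν u H \ T, g h) / Real.log N ≤ m ∧
        (∀ n ∈ Ioc 0 N, y n ≤ ∑ h ∈ Jv (Uni.WW w) ν u H \ T,
          g h * ((if AP N (n + h) then (1 : ℝ) else 0) + (if SQ N (n + h) then (1 : ℝ) else 0))) ∧
        ∑ n ∈ QS N (Uni.WW w) ν T, |y n - m| ≤ ε * (Eo N w T * (H / Real.log N)) := by
  obtain ⟨c0, hc0, HA⟩ := MTLaG hMAV
  refine ⟨c0, hc0, fun j ε hε hε1 => ?_⟩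
  obtain ⟨K, hK, w0, H0⟩ := HA j ε hε hε1
  refine ⟨K, hK, w0, fun w hw A hA => ?_⟩
  obtain ⟨N₀, hN₀⟩ := H0 w hw A hA
  refine ⟨N₀, fun N hN T hTj hTA ν hν hcop u H hKH hHA g hg0 hg1 => ?_⟩
  obtain ⟨m, Cc, E2, J, P, a, hN1', hzN, hCc, hCE, hm, hzI, hzleN, hdet, hcard, hfin⟩ :=
    hN₀ N hN T hTj hTA ν hν hcop u H hKH hHA g hg0 hg1
  obtain ⟨W, hW⟩ : ∃ W, W = Uni.WW w := ⟨_, rfl⟩
  rw [← hW] at hm hcard hfin hν hcop ⊢
  have hN1R : (1 : ℝ) ≤ N := by exact_mod_cast hN1'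
  have hN0 : (0 : ℝ) < N := by linarith
  have hzR : ((2 ^ 2 ^ J : ℕ) : ℝ) = (2 : ℝ) ^ 2 ^ J := by push_cast; rfl
  obtain ⟨R, hR⟩ : ∃ R, R = Jv W ν u H \ T := ⟨_, rfl⟩
  have hRI : ∀ h ∈ R, h ∈ Ioc u (u + H) := by
    intro h hh
    rw [hR, Finset.mem_sdiff] at hh
    have := hh.1
    unfold Jv at this
    exact (mem_filter.1 this).1
  rw [← hR] at hm hfin ⊢
  have hEw0 : 0 ≤ Eo N w T := Eo_nonneg hN1'
  have hL0 : 0 ≤ Real.log N := Real.log_nonneg hN1R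
  have hsub : QS N W ν T ⊆ NN N W ν J T := by
    intro n hn
    unfold QS at hn
    rw [mem_filter, mem_Ioc] at hn
    unfold NN
    rw [mem_filter, mem_Ioc]
    refine ⟨⟨by omega, hn.1.2⟩, hn.2.1, fun t ht p hp hpd => ?_⟩
    have h1 := mem_filter.1 hp
    have h2 := mem_range.1 h1.1
    have h3 := hn.2.2 t ht p h1.2 hpd
    have h4 : (p : ℝ) < (2 : ℝ) ^ 2 ^ J := by
      rw [← hzR]; exact_mod_cast h2
    have h5 : (N : ℝ) ^ (1 / 256 : ℝ) ≤ (N : ℝ) ^ (1 / 16 : ℝ) :=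
      Real.rpow_le_rpow_of_exponent_le hN1R (by norm_num)
    linarith
  refine ⟨m, Yf J P a R g, hm, ?_, ?_⟩
  · intro n hn
    rw [mem_Ioc] at hn
    unfold Yf
    apply sum_le_sum
    intro h hh
    apply mul_le_mul_of_nonneg_left _ (hg0 h)
    have hh2 := hzI h (hRI h hh)
    have i1 : (0 : ℝ) ≤ (if AP N (n + h) then (1 : ℝ) else 0) := by split_ifs <;> norm_num
    have i2 : (0 : ℝ) ≤ (if SQ N (n + h) then (1 : ℝ) else 0) := by split_ifs <;> norm_num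
    unfold fa
    by_cases hRo : Ro J (n + h)
    · rw [if_pos hRo]
      obtain ⟨g1, g2⟩ := hdet (n + h) (by omega) (by omega) hRo
      by_cases hsq : SQ N (n + h)
      · rw [if_pos hsq]
        linarith
      · by_cases hpos : 0 < lam P a (n + h)
        · have hap := g2 hpos (fun p hp hp1 hp2 hpd => hsq ⟨p, hp, hp1, hp2, hpd⟩)
          rw [if_pos hap]
          linarith
        · push Not at hpos
          linarith
    · rw [if_neg hRo]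
      linarith
  · have h1 := sq_sum_le_card_mul_sum_sq (s := QS N W ν T) (f := fun n => |Yf J P a R g n - m|)
    simp only [sq_abs] at h1
    have h2 : ∑ n ∈ QS N W ν T, (Yf J P a R g n - m) ^ 2 ≤ E2 * (Eo N w T * (H / Real.log N) ^ 2) := by
      refine le_trans ?_ hfin
      exact sum_le_sum_of_subset_of_nonneg hsub (fun n _ _ => sq_nonneg _)
    have h0 : ((QS N W ν T).card : ℝ) ≤ Cc * Eo N w T := le_trans (by exact_mod_cast card_le_card hsub) hcard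
    have h3 : (∑ n ∈ QS N W ν T, |Yf J P a R g n - m|) ^ 2 ≤ (ε * (Eo N w T * (H / Real.log N))) ^ 2 := by
      refine h1.trans ?_
      calc ((QS N W ν T).card : ℝ) * ∑ n ∈ QS N W ν T, (Yf J P a R g n - m) ^ 2 ≤
          (Cc * Eo N w T) * (E2 * (Eo N w T * (H / Real.log N) ^ 2)) :=
            mul_le_mul h0 h2 (sum_nonneg fun n _ => sq_nonneg _) (by positivity)
        _ = (Cc * E2) * (Eo N w T * (H / Real.log N)) ^ 2 := by ring
        _ ≤ ε ^ 2 * (Eo N w T * (H / Real.log N)) ^ 2 := mul_le_mul_of_nonneg_right hCE (sq_nonneg _)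
        _ = _ := by ring
    exact (sq_le_sq₀ (sum_nonneg fun n _ => abs_nonneg _) (by positivity)).1 h3

end Pool.Agent.L0h43.TG
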