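import Pool.Agent.L0h43.TG.Cls

/-!
# Every difference up to `N`, windows anywhere: almost all sets of shifts
-/

set_option autoImplicit false

namespace Pool.Agent.L0h43.TG

open Finset Filter Topology Pool.Agent.H387R2
open Pool.Agent.L0h43.TA Pool.Agent.L0h43.TB Pool.Agent.L0h43.TD Pool.Agent.L0h43.TF
open Pool.Agent.H386R2.HL
open Pool.Agent.L0h43.TE (FS FS_ins FS_empty FS_sub sdiff_un Jv_pow OK_union)

open Classical in
/-- the bad sets of shifts -/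
noncomputable def bdU (N b : ℕ) (c : ℝ) (k : ℕ) (I : Finset ℕ) : Finset (Finset ℕ) :=
  (I.powersetCard k).filter (fun D =>
    (cU N b D : ℝ) < c ^ (k + 1) * (Uni.CT ({0, b} ∪ D) * (N / Real.log N ^ (k + 2))))

theorem evenU : ∃ c : ℝ, 0 < c ∧ c ≤ 1 ∧ ∀ (k : ℕ) (ε : ℝ), 0 < ε → ∃ K : ℝ, 1 ≤ K ∧ ∀ A : ℝ, 0 ≤ A →
    ∃ N₀ : ℕ, ∀ N : ℕ, N₀ ≤ N → ∀ b : ℕ, 1 ≤ b → b ≤ N → Even b → ∀ v H : ℕ, v + H ≤ N →
      K * Real.log N ≤ H → (H : ℝ) ≤ Real.log N ^ A →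
      ((bdU N b c k (Ioc v (v + H) \ {0, b})).card : ℝ) ≤ ε * (H.choose k : ℝ) := by
  classical
  obtain ⟨c0, hc0, hc1, HT⟩ := winL
  obtain ⟨κ, hκ0, hκ1, HS⟩ := Sn_low
  obtain ⟨c, hc⟩ : ∃ c : ℝ, c = κ * c0 / 8 := ⟨_, rfl⟩
  have hcpos : 0 < c := by rw [hc]; positivity
  have hcκ : c ≤ κ / 8 := by rw [hc]; nlinarith
  have hcc0 : c ≤ c0 / 2 := by rw [hc]; nlinarith
  refine ⟨c, hcpos, by linarith, fun k ε hε => ?_⟩
  have hck : c ^ (k + 1) ≤ κ / 8 * (c0 / 2) ^ k := by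
    rw [pow_succ, mul_comm]
    exact mul_le_mul hcκ (pow_le_pow_left₀ hcpos.le hcc0 k) (by positivity) (by positivity)
  obtain ⟨w1, hw1⟩ : ∃ w1 : ℕ, w1 = 8 * (k + 3) := ⟨_, rfl⟩
  have hW1pos : (0 : ℝ) < Uni.WW w1 := by exact_mod_cast Uni.WW_pos w1
  obtain ⟨a, ha⟩ : ∃ a : ℝ, a = 1 / (Uni.WW w1 : ℝ) * (1 / 2) ^ k := ⟨_, rfl⟩
  have ha0 : 0 < a := by rw [ha]; positivity
  have hf0 : (0 : ℝ) < k.factorial := by exact_mod_cast k.factorial_pos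
  obtain ⟨τ, hτ⟩ : ∃ τ : ℝ, τ = ε * a / (2 * (2 ^ k * k.factorial)) := ⟨_, rfl⟩
  have hτ0 : 0 < τ := by rw [hτ]; positivity
  obtain ⟨C1, hC1⟩ : ∃ C1 : ℝ, C1 = κ / 4 * (c0 / 2) ^ k := ⟨_, rfl⟩
  have hC10 : 0 < C1 := by rw [hC1]; positivity
  obtain ⟨K, hK, w0, H0⟩ := HT 2 k (C1 * τ) (by positivity)
  obtain ⟨w2, H2⟩ := tailL 2 k τ hτ0
  obtain ⟨M3, H3⟩ := CTL (k + 2)
  -- the level of the class
  obtain ⟨J, hJ⟩ : ∃ J, J = max w0 (max w2 (max w1 8)) := ⟨_, rfl⟩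
  obtain ⟨w, hw⟩ : ∃ w, w = 2 ^ 2 ^ J - 1 := ⟨_, rfl⟩
  have hJJ : J < 2 ^ 2 ^ J := (Nat.lt_two_pow_self).trans (Nat.lt_two_pow_self)
  have hwJ : w + 1 = 2 ^ 2 ^ J := by omega
  have hww0 : w0 ≤ w := by omega
  have hww2 : w2 ≤ w := by omega
  have hww1 : w1 ≤ w := by omega
  have hw8 : 8 ≤ w := by omega
  refine ⟨2 * K, by linarith, fun A hA => ?_⟩
  obtain ⟨M1, hM1⟩ := H0 w hww0 A hA
  obtain ⟨M2, hM2⟩ := H2 w hww2 A hA
  obtain ⟨N2, hN2⟩ := HS w hw8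
  have tN : Tendsto (fun N : ℕ => (N : ℝ)) atTop atTop := tendsto_natCast_atTop_atTop
  have tL : Tendsto (fun N : ℕ => Real.log (N : ℝ)) atTop atTop := Real.tendsto_log_atTop.comp tN
  have tp : Tendsto (fun N : ℕ => (N : ℝ) ^ (1 / 512 : ℝ)) atTop atTop :=
    (tendsto_rpow_atTop (by norm_num)).comp tN
  obtain ⟨N₀, hN₀⟩ := eventually_atTop.1 ((tL.eventually_ge_atTop (max 1 (2 * k : ℝ))).and
    ((tp.eventually_ge_atTop (max 2 ((w : ℝ) + 1))).and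
      (eventually_ge_atTop (max (max M1 M2) (max (max M3 N2) 3)))))
  refine ⟨N₀, fun N hN b hb1 hbN he v H hvH hKH hHA => ?_⟩
  obtain ⟨l1, l2, l3⟩ := hN₀ N hN
  have hL1 : 1 ≤ Real.log N := (le_max_left _ _).trans l1
  have hLk : (2 * k : ℝ) ≤ Real.log N := (le_max_right _ _).trans l1
  have hp2 : (2 : ℝ) ≤ (N : ℝ) ^ (1 / 512 : ℝ) := (le_max_left _ _).trans l2
  have hpw : (w : ℝ) + 1 ≤ (N : ℝ) ^ (1 / 512 : ℝ) := (le_max_right _ _).trans l2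
  have hn1 : M1 ≤ N := by omega
  have hn2 : M2 ≤ N := by omega
  have hn3 : M3 ≤ N := by omega
  have hn4 : N2 ≤ N := by omega
  have hN3 : 3 ≤ N := by omega
  obtain ⟨M, hM⟩ : ∃ M, M = 2 * N := ⟨_, rfl⟩
  have hNM : N ≤ M := by omega
  have hN3R : (3 : ℝ) ≤ N := by exact_mod_cast hN3
  have hN0R : (0 : ℝ) < N := by linarith
  have hNMR : (N : ℝ) ≤ M := by exact_mod_cast hNM
  have hM0R : (0 : ℝ) < M := by linarith
  have hM1R : (1 : ℝ) ≤ M := by linarith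
  obtain ⟨L, hL⟩ : ∃ L, L = Real.log (N : ℝ) := ⟨_, rfl⟩
  obtain ⟨Lm, hLm⟩ : ∃ Lm, Lm = Real.log (M : ℝ) := ⟨_, rfl⟩
  have hL0 : 0 < L := by rw [hL]; linarith
  have hLLm : L ≤ Lm := by rw [hL, hLm]; exact Real.log_le_log hN0R hNMR
  have hLm2 : Lm ≤ 2 * L := by
    have h1 : (M : ℝ) ≤ (N : ℝ) ^ 2 := by rw [hM]; push_cast; nlinarith
    have h2 : Real.log (M : ℝ) ≤ Real.log ((N : ℝ) ^ 2) := Real.log_le_log hM0R h1
    rw [Real.log_pow] at h2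
    rw [hLm, hL]
    exact_mod_cast h2
  have hLm0 : 0 < Lm := by linarith
  -- powers of M
  have hMp : (N : ℝ) ^ (1 / 512 : ℝ) ≤ (M : ℝ) ^ (1 / 512 : ℝ) :=
    Real.rpow_le_rpow hN0R.le hNMR (by norm_num)
  have hM256 : (2 : ℝ) ≤ (M : ℝ) ^ (1 / 256 : ℝ) :=
    (hp2.trans hMp).trans (Real.rpow_le_rpow_of_exponent_le hM1R (by norm_num))
  have hwM : w < 2 ^ 2 ^ J0 M := by
    have h1 := J0_big (M := M)
    have h2 : (w : ℝ) < (2 : ℝ) ^ 2 ^ J0 M := by linarith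
    exact_mod_cast h2
  have hM16 : (M : ℝ) ^ (1 / 16 : ℝ) ≤ (N : ℝ) ^ (3 / 25 : ℝ) := by
    have h1 : (2 : ℝ) ≤ (N : ℝ) ^ (23 / 25 : ℝ) :=
      hp2.trans (Real.rpow_le_rpow_of_exponent_le (by linarith) (by norm_num))
    have h2 : (M : ℝ) ≤ (N : ℝ) ^ (48 / 25 : ℝ) := by
      have h3 : (N : ℝ) ^ (48 / 25 : ℝ) = (N : ℝ) ^ (23 / 25 : ℝ) * N := by
        rw [show (48 / 25 : ℝ) = 23 / 25 + 1 by norm_num, Real.rpow_add hN0R, Real.rpow_one]
      rw [h3, hM]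
      push_cast
      exact mul_le_mul_of_nonneg_right h1 hN0R.le
    refine (Real.rpow_le_rpow hM0R.le h2 (by norm_num)).trans (le_of_eq ?_)
    rw [← Real.rpow_mul hN0R.le]
    norm_num
  have hMsq : (M : ℝ) ^ (1 / 16 : ℝ) ≤ Nat.sqrt M := by
    have h1 : √(M : ℝ) < Nat.sqrt M + 1 := Real.real_sqrt_lt_nat_sqrt_succ
    rw [Real.sqrt_eq_rpow] at h1
    have h2 : (M : ℝ) ^ (1 / 16 : ℝ) ≤ (M : ℝ) ^ (1 / 4 : ℝ) :=
      Real.rpow_le_rpow_of_exponent_le hM1R (by norm_num)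
    have h3 : (M : ℝ) ^ (1 / 4 : ℝ) * (M : ℝ) ^ (1 / 4 : ℝ) = (M : ℝ) ^ (1 / 2 : ℝ) := by
      rw [← Real.rpow_add hM0R]; norm_num
    have h4 : (2 : ℝ) ≤ (M : ℝ) ^ (1 / 4 : ℝ) :=
      hM256.trans (Real.rpow_le_rpow_of_exponent_le hM1R (by norm_num))
    nlinarith
  rw [← hL] at hKH hHA hLk hL1
  have hKH' : K * Real.log M ≤ H := by
    rw [← hLm]
    calc K * Lm ≤ K * (2 * L) := mul_le_mul_of_nonneg_left hLm2 (by linarith)
      _ = 2 * K * L := by ring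
      _ ≤ H := hKH
  have hHA' : (H : ℝ) ≤ Real.log M ^ A := by
    rw [← hLm]
    exact hHA.trans (Real.rpow_le_rpow hL0.le hLLm hA)
  have hLmH : Real.log M ≤ H := by
    refine le_trans ?_ hKH'
    rw [← hLm]
    exact le_mul_of_one_le_left hLm0.le hK
  have hLH : L ≤ H := by rw [← hLm] at hLmH; linarith
  have hH0 : (0 : ℝ) < H := by linarith
  have hkH : 2 * k ≤ H := by
    have h1 : ((2 * k : ℕ) : ℝ) ≤ H := by
      push_cast
      linarith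
    exact_mod_cast h1
  have hvHM : v + H ≤ M := by omega
  obtain ⟨W, hW⟩ : ∃ W, W = Uni.WW w := ⟨_, rfl⟩
  have hWpos : 0 < W := by rw [hW]; exact Uni.WW_pos w
  have hφ0 : (0 : ℝ) < Nat.totient W := by exact_mod_cast Nat.totient_pos.2 hWpos
  have hW0 : (0 : ℝ) < W := by exact_mod_cast hWpos
  have hbc : ({0, b} : Finset ℕ).card = 2 := card_pair (by omega)
  have hBM : ∀ t ∈ ({0, b} : Finset ℕ), t ≤ M := by
    intro t ht
    rw [mem_insert, mem_singleton] at ht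
    omega
  -- the main quantities
  obtain ⟨F, hF⟩ : ∃ F, F = Fb N w b := ⟨_, rfl⟩
  obtain ⟨G0, hG0⟩ : ∃ G0 : ℝ, G0 = Uni.gT W {0, b} := ⟨_, rfl⟩
  have hG00 : 0 ≤ G0 := by rw [hG0]; exact Nat.cast_nonneg _
  have hFlow := Fb_low (N := N) (w := w) (by omega) hb1 he
  rw [← hW, ← hF, ← hG0, ← hL] at hFlow
  have hbφ : (0 : ℝ) < Nat.totient b := by exact_mod_cast Nat.totient_pos.2 (by omega)
  have hbR : (0 : ℝ) < b := by exact_mod_cast (by omega : 0 < b)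
  have hM0 : 0 < N / L ^ 2 * ((b : ℝ) / Nat.totient b) := by positivity
  have hFG : 0 < F * G0 := by linarith
  have hG0p : 0 < G0 := by
    rcases lt_or_eq_of_le hG00 with h | h
    · exact h
    · rw [← h, mul_zero] at hFG
      exact absurd hFG (lt_irrefl _)
  have hF0 : 0 < F := by
    by_contra h
    push Not at h
    have := mul_nonpos_of_nonpos_of_nonneg h hG00
    linarith
  obtain ⟨R, hR⟩ : ∃ R, R = ∏ p ∈ b.primeFactors.filter (fun p => w < p), (1 - 1 / (p : ℝ))⁻¹ := ⟨_, rfl⟩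
  have hFs := Fb_split (N := N) (w := w) hb1
  rw [← hF, ← hW, ← hR, ← hL] at hFs
  have hLR := LT_le_R (M := M) (w := w) (b := b) (by omega) hb1
  rw [← hR] at hLR
  have hEF := Eo_le_Fb (w := w) (v := v) (by omega : 2 ≤ N) hM (by omega) hM256 hb1 (by omega)
  rw [← hF] at hEF
  obtain ⟨U, hU⟩ : ∃ U : ℝ, U = ((W : ℝ) / Nat.totient W) ^ k * F / L ^ k := ⟨_, rfl⟩
  have hU0 : 0 < U := by rw [hU]; positivity
  obtain ⟨Φ, hΦ⟩ : ∃ Φ : ℝ, Φ = (Nat.totient W : ℝ) / W * H := ⟨_, rfl⟩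
  have hΦ0 : 0 < Φ := by rw [hΦ]; positivity
  -- the sets
  obtain ⟨P, hP⟩ : ∃ P, P = (Ioc v (v + H) \ {0, b}).powersetCard k := ⟨_, rfl⟩
  obtain ⟨Bd, hBd⟩ : ∃ Bd, Bd = bdU N b c k (Ioc v (v + H) \ {0, b}) := ⟨_, rfl⟩
  rw [← hBd]
  have hBdP : Bd ⊆ P := by
    rw [hBd, hP]
    unfold bdU
    exact filter_subset _ _
  have hTc : ∀ D ∈ P, ({0, b} ∪ D).card = k + 2 := by
    intro D hD
    rw [hP, mem_powersetCard] at hD
    rw [card_union_of_disjoint, hbc, hD.2, add_comm]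
    rw [disjoint_left]
    intro t ht1 ht2
    have h := hD.1 ht2
    rw [Finset.mem_sdiff] at h
    exact h.2 ht1
  have hDc : ∀ D ∈ P, D.card = k := by
    intro D hD
    rw [hP, mem_powersetCard] at hD
    exact hD.2
  have hTM : ∀ D ∈ P, ∀ t ∈ ({0, b} : Finset ℕ) ∪ D, t ≤ M := by
    intro D hD t ht
    rcases mem_union.1 ht with h | h
    · exact hBM t h
    · rw [hP, mem_powersetCard] at hD
      have h2 := hD.1 h
      rw [Finset.mem_sdiff, mem_Ioc] at h2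
      omega
  have hBdlt : ∀ D ∈ Bd, (cU N b D : ℝ) < c ^ (k + 1) * (Uni.CT ({0, b} ∪ D) * (N / L ^ (k + 2))) := by
    intro D hD
    rw [hBd] at hD
    unfold bdU at hD
    rw [mem_filter, ← hL] at hD
    exact hD.2
  have hBdCT : ∀ D ∈ Bd, 0 < Uni.CT ({0, b} ∪ D) := by
    intro D hD
    have h1 := hBdlt D hD
    have h2 : (0 : ℝ) ≤ cU N b D := Nat.cast_nonneg _
    by_contra h
    push Not at h
    have h3 : Uni.CT ({0, b} ∪ D) * (N / L ^ (k + 2)) ≤ 0 :=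
      mul_nonpos_of_nonpos_of_nonneg h (by positivity)
    have h4 : c ^ (k + 1) * (Uni.CT ({0, b} ∪ D) * (N / L ^ (k + 2))) ≤ 0 :=
      mul_nonpos_of_nonneg_of_nonpos (by positivity) h3
    linarith
  have hgTl : ∀ D ∈ Bd, a * (((Nat.totient W : ℝ) / W) ^ k * G0) ≤ (Uni.gT W ({0, b} ∪ D) : ℝ) := by
    intro D hD
    have hgp : 0 < Uni.gT (Uni.WW w1) ({0, b} ∪ D) := by
      rw [Nat.pos_iff_ne_zero]
      intro h0
      have h1 := CT_of_gT_zero h0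
      have h2 := hBdCT D hD
      linarith
    have hk := hDc D (hBdP hD)
    have h1 := rel_gT hwJ hww1 {0, b} D (by rw [hbc, hk, hw1]; omega) hgp
    rw [hk, ← hW, ← hG0, ← ha] at h1
    exact h1
  obtain ⟨Bd1, hBd1⟩ : ∃ Bd1, Bd1 = Bd.filter (fun D =>
      ¬ 2 * Pool.Agent.L0h43.TF.LT w (J0 M) {0, b} < Pool.Agent.L0h43.TF.LT w (J0 M) ({0, b} ∪ D)) := ⟨_, rfl⟩
  obtain ⟨Bd2, hBd2⟩ : ∃ Bd2, Bd2 = Bd.filter (fun D =>
      2 * Pool.Agent.L0h43.TF.LT w (J0 M) {0, b} < Pool.Agent.L0h43.TF.LT w (J0 M) ({0, b} ∪ D)) := ⟨_, rfl⟩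
  obtain ⟨X1, hX1⟩ : ∃ X1, X1 = ∑ D ∈ Bd1, (Uni.gT W ({0, b} ∪ D) : ℝ) := ⟨_, rfl⟩
  obtain ⟨X2, hX2⟩ : ∃ X2, X2 = ∑ D ∈ Bd2, (Uni.gT W ({0, b} ∪ D) : ℝ) := ⟨_, rfl⟩
  have hX12 : (Bd.card : ℝ) * (a * (((Nat.totient W : ℝ) / W) ^ k * G0)) ≤ X1 + X2 := by
    have h1 : X1 + X2 = ∑ D ∈ Bd, (Uni.gT W ({0, b} ∪ D) : ℝ) := by
      rw [hX1, hX2, hBd1, hBd2, add_comm]
      exact sum_filter_add_sum_filter_not _ _ _
    rw [h1, ← nsmul_eq_mul, ← sum_const]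
    exact sum_le_sum hgTl
  have hgT : ∀ T : Finset ℕ, (((range W).filter (fun ν => OK W ν T)).card : ℝ) = (Uni.gT W T : ℝ) := by
    intro T
    rfl
  have hBd1P : Bd1 ⊆ P := by rw [hBd1]; exact (filter_subset _ _).trans hBdP
  have hBd2P : Bd2 ⊆ P := by rw [hBd2]; exact (filter_subset _ _).trans hBdP
  -- the tail
  have hX2le : X2 ≤ G0 * (τ * Φ ^ k) := by
    have h1 : X2 = ∑ ν ∈ (range W).filter (fun ν => OK W ν {0, b}), ∑ _D ∈ Bd2.filter (fun D => OK W ν D), (1 : ℝ) := by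
      rw [swap2 (range W) Bd2 (fun ν => OK W ν {0, b}) (fun ν D => OK W ν D) (fun ν D => OK W ν ({0, b} ∪ D))
        (fun ν D => OK_union) (fun _ _ => 1), hX2]
      apply sum_congr rfl
      intro D _
      rw [sum_const, nsmul_eq_mul, mul_one, hgT]
    rw [h1, hG0, ← hgT, ← nsmul_eq_mul, ← sum_const]
    apply sum_le_sum
    intro ν _
    rw [sum_const, nsmul_eq_mul, mul_one]
    have h2 := hM2 M (by omega) {0, b} hbc hBM ν v H hvHM hLmH hHA'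
    rw [← hW, ← hΦ] at h2
    refine le_trans ?_ h2
    rw [Nat.cast_le]
    apply card_le_card
    intro D hD
    rw [mem_filter] at hD
    rw [mem_filter, Jv_pow, mem_filter, ← hP]
    refine ⟨⟨hBd2P hD.1, hD.2⟩, ?_⟩
    have h3 := hD.1
    rw [hBd2, mem_filter] at h3
    exact h3.2
  -- the weights
  obtain ⟨g, hg⟩ : ∃ g : Finset ℕ → ℝ, g = fun D => if D ∈ Bd1 then 1 else 0 := ⟨_, rfl⟩
  have hg0 : ∀ D, 0 ≤ g D := by intro D; rw [hg]; simp only; split_ifs <;> norm_num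
  have hg1 : ∀ D, g D ≤ 1 := by intro D; rw [hg]; simp only; split_ifs <;> norm_num
  have hind : ∀ f : Finset ℕ → ℝ, ∑ D ∈ P, g D * f D = ∑ D ∈ Bd1, f D := by
    intro f
    rw [hg]
    simp only [ite_mul, one_mul, zero_mul]
    rw [← sum_filter]
    apply sum_congr _ (fun _ _ => rfl)
    ext q
    rw [mem_filter]
    exact ⟨fun h => h.2, fun h => ⟨hBd1P h, h⟩⟩
  obtain ⟨ρ, hρ⟩ : ∃ ρ, ρ = (W : ℝ) / Nat.totient W / Lm := ⟨_, rfl⟩
  have hρ0 : 0 < ρ := by rw [hρ]; positivity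
  obtain ⟨h, hh⟩ : ∃ h : ℝ, h = (H / Lm) ^ k := ⟨_, rfl⟩
  have hh0 : 0 ≤ h := by rw [hh]; positivity
  -- one class
  have hone : ∀ ν ∈ (range W).filter (fun ν => OK W ν {0, b}),
      (c0 * ρ) ^ k * κ * F * (∑ D ∈ P.filter (fun D => OK W ν D), g D) - C1 * τ * (h * (2 * F)) ≤
      ∑ D ∈ P.filter (fun D => OK W ν D), g D * ((FS M (Sn N M W ν b) D).card : ℝ) := by
    intro ν hν
    rw [mem_filter, mem_range] at hν
    have h1 := hM1 M (by omega) {0, b} hbc hBM ν (by rw [← hW]; exact hν.1) (by rw [← hW]; exact hν.2) v H hvHM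
      hKH' hHA' g hg0 hg1 (Sn N M W ν b) (by rw [← hW]; exact Sn_cond hM (by omega) hM16 hMsq)
    have h2 := hN2 N hn4 b hb1 hbN he ν (by rw [← hW]; exact hν.1) (by rw [← hW]; exact hν.2)
    rw [← hW, ← hF, ← hM] at h2
    have h3 := Jv_pow W ν v H k {0, b}
    rw [← hW, h3, ← hP, ← hLm, ← hρ, ← hh] at h1
    refine le_trans ?_ h1
    obtain ⟨X, hX⟩ : ∃ X, X = ∑ D ∈ P.filter (fun D => OK W ν D), g D := ⟨_, rfl⟩
    have hX0 : 0 ≤ X := by
      rw [hX]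
      exact sum_nonneg fun D _ => hg0 D
    rw [← hX]
    have h4 : (c0 * ρ) ^ k * κ * F * X ≤ (c0 * ρ) ^ k * X * ((Sn N M W ν b).card : ℝ) := by
      have h5 := mul_le_mul_of_nonneg_left h2 (show 0 ≤ (c0 * ρ) ^ k * X by positivity)
      refine le_trans (le_of_eq ?_) h5
      ring
    have h6 : C1 * τ * (h * Eo M w (({0, b} : Finset ℕ).image (fs M v))) ≤ C1 * τ * (h * (2 * F)) :=
      mul_le_mul_of_nonneg_left (mul_le_mul_of_nonneg_left hEF hh0) (by positivity)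
    linarith
  have hsum := sum_le_sum hone
  rw [sum_sub_distrib, ← mul_sum, sum_const, nsmul_eq_mul,
    swap2 (range W) P (fun ν => OK W ν {0, b}) (fun ν D => OK W ν D) (fun ν D => OK W ν ({0, b} ∪ D))
        (fun ν D => OK_union) (fun _ D => g D),
    swap2 (range W) P (fun ν => OK W ν {0, b}) (fun ν D => OK W ν D) (fun ν D => OK W ν ({0, b} ∪ D))
        (fun ν D => OK_union) (fun ν D => g D * ((FS M (Sn N M W ν b) D).card : ℝ))] at hsum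
  have s1 : ∑ D ∈ P, ∑ _ν ∈ (range W).filter (fun ν => OK W ν ({0, b} ∪ D)), g D = X1 := by
    rw [hX1, ← hind (fun D => (Uni.gT W ({0, b} ∪ D) : ℝ))]
    apply sum_congr rfl
    intro D _
    rw [sum_const, nsmul_eq_mul, hgT]
    ring
  have s2 : ∑ D ∈ P, ∑ ν ∈ (range W).filter (fun ν => OK W ν ({0, b} ∪ D)),
      g D * ((FS M (Sn N M W ν b) D).card : ℝ) ≤ ∑ D ∈ Bd1, (cU N b D : ℝ) := by
    rw [← hind (fun D => (cU N b D : ℝ))]
    apply sum_le_sum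
    intro D _
    rw [← mul_sum]
    apply mul_le_mul_of_nonneg_left _ (hg0 D)
    exact FS_fiber hNM hWpos D _
  rw [s1, hgT, ← hG0] at hsum
  have hX10 : 0 ≤ X1 := by
    rw [hX1]
    exact sum_nonneg fun _ _ => Nat.cast_nonneg _
  -- the bad sets
  have s4 : ∑ D ∈ Bd1, (cU N b D : ℝ) ≤ c ^ (k + 1) * (4 * U) * X1 := by
    rw [hX1, mul_sum]
    apply sum_le_sum
    intro D hD
    have hDB : D ∈ Bd := by
      rw [hBd1, mem_filter] at hD
      exact hD.1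
    have h1 := hBdlt D hDB
    have h2 := H3 M (by omega) w hwM ({0, b} ∪ D) (hTc D (hBdP hDB)).le (hTM D (hBdP hDB))
    rw [hTc D (hBdP hDB), ← hW] at h2
    have h3 : Pool.Agent.L0h43.TF.LT w (J0 M) ({0, b} ∪ D) ≤ 2 * R := by
      rw [hBd1, mem_filter] at hD
      have h4 := not_lt.1 hD.2
      linarith
    have h5 : Uni.CT ({0, b} ∪ D) ≤ 2 * (((W : ℝ) / Nat.totient W) ^ (k + 2) *
        ((Uni.gT W ({0, b} ∪ D) : ℝ) / W) * (2 * R)) := by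
      refine h2.trans ?_
      apply mul_le_mul_of_nonneg_left _ (by norm_num)
      exact mul_le_mul_of_nonneg_left h3 (by positivity)
    refine h1.le.trans ?_
    rw [mul_assoc]
    apply mul_le_mul_of_nonneg_left _ (by positivity)
    refine (mul_le_mul_of_nonneg_right h5 (by positivity)).trans (le_of_eq ?_)
    rw [hU, hFs, pow_add, pow_add]
    ring
  -- comparison
  have t1 : (c0 / 2) ^ k * U ≤ (c0 * ρ) ^ k * F := by
    have h1 : (c0 / 2) ^ k * U = (c0 * ((W : ℝ) / Nat.totient W / (2 * L))) ^ k * F := by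
      have e0 : c0 * ((W : ℝ) / Nat.totient W / (2 * L)) = c0 / 2 * ((W : ℝ) / Nat.totient W) / L := by
        field_simp
      rw [e0, div_pow _ L, mul_pow (c0 / 2), hU]
      ring
    rw [h1]
    apply mul_le_mul_of_nonneg_right _ hF0.le
    apply pow_le_pow_left₀ (by positivity)
    apply mul_le_mul_of_nonneg_left _ hc0.le
    rw [hρ]
    exact div_le_div_of_nonneg_left (by positivity) hLm0 hLm2
  have t2 : h * (2 * F) ≤ 2 * (Φ ^ k * U) := by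
    have h1 : h ≤ (H / L) ^ k := by
      rw [hh]
      apply pow_le_pow_left₀ (by positivity)
      exact div_le_div_of_nonneg_left hH0.le hL0 hLLm
    have h2 : Φ ^ k * U = (H / L) ^ k * F := by
      rw [hU, hΦ, mul_pow, div_pow, div_pow, div_pow]
      field_simp
    rw [h2]
    have := mul_le_mul_of_nonneg_right h1 hF0.le
    linarith
  have hX1le : X1 ≤ G0 * (τ * Φ ^ k) := by
    have u1 : κ * ((c0 / 2) ^ k * U) * X1 ≤ (c0 * ρ) ^ k * κ * F * X1 := by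
      have := mul_le_mul_of_nonneg_left t1 hκ0.le
      have h2 := mul_le_mul_of_nonneg_right this hX10
      refine h2.trans (le_of_eq ?_)
      ring
    have u2 : G0 * (C1 * τ * (h * (2 * F))) ≤ G0 * (C1 * τ * (2 * (Φ ^ k * U))) :=
      mul_le_mul_of_nonneg_left (mul_le_mul_of_nonneg_left t2 (by positivity)) hG00
    have u3 : c ^ (k + 1) * (4 * U) * X1 ≤ κ / 8 * (c0 / 2) ^ k * (4 * U) * X1 :=
      mul_le_mul_of_nonneg_right (mul_le_mul_of_nonneg_right hck (by positivity)) hX10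
    have u4 := hsum.trans (s2.trans s4)
    have e1 : κ * ((c0 / 2) ^ k * U) * X1 = 4 * (C1 * U * X1) := by rw [hC1]; ring
    have e2 : κ / 8 * (c0 / 2) ^ k * (4 * U) * X1 = 2 * (C1 * U * X1) := by rw [hC1]; ring
    have e3 : G0 * (C1 * τ * (2 * (Φ ^ k * U))) = 2 * (C1 * U * (G0 * (τ * Φ ^ k))) := by ring
    have u5 : C1 * U * X1 ≤ C1 * U * (G0 * (τ * Φ ^ k)) := by linarith
    exact le_of_mul_le_mul_left u5 (by positivity)
  have v1 : (Bd.card : ℝ) * (a * (((Nat.totient W : ℝ) / W) ^ k * G0)) ≤ 2 * (G0 * (τ * Φ ^ k)) := by linarith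
  have e5 : 2 * (G0 * (τ * Φ ^ k)) = (2 * τ * H ^ k) * (((Nat.totient W : ℝ) / W) ^ k * G0) := by
    rw [hΦ, mul_pow]
    ring
  rw [e5, ← mul_assoc] at v1
  have v2 : (Bd.card : ℝ) * a ≤ 2 * τ * H ^ k := le_of_mul_le_mul_right v1 (by positivity)
  have hch := TB.pow_le_choose k H hkH
  have v3 : 2 * τ * (H : ℝ) ^ k ≤ 2 * τ * (2 ^ k * k.factorial * (H.choose k : ℝ)) :=
    mul_le_mul_of_nonneg_left hch (by positivity)
  have e6 : 2 * τ * (2 ^ k * k.factorial * (H.choose k : ℝ)) = (ε * (H.choose k : ℝ)) * a := by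
    rw [hτ]
    field_simp
  rw [e6] at v3
  exact le_of_mul_le_mul_right (v2.trans v3) ha0

end Pool.Agent.L0h43.TG
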