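import Pool.Agent.L0h43.TG.Main
import Pool.Agent.L0h43.TE.Real

/-!
# Every difference up to `x`, windows anywhere: real `x`
-/

set_option autoImplicit false

namespace Pool.Agent.L0h43.TG

open Finset Filter Topology Pool.Agent.H387R2
open Pool.Agent.L0h43.TA Pool.Agent.L0h43.TB Pool.Agent.L0h43.TD Pool.Agent.L0h43.TF
open Pool.Agent.H386R2.HL

open Classical in
/-- the primes `p ≤ x` with `p + b` and the `p + d` almost primes -/
noncomputable def cX (x : ℝ) (b : ℕ) (D : Finset ℕ) : ℕ :=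
  ((Icc 1 ⌊x⌋₊).filter (fun p => p.Prime ∧ APx x (p + b) ∧ ∀ d ∈ D, APx x (p + d))).card

open Classical in
/-- the bad sets of shifts -/
noncomputable def bdX (x : ℝ) (b : ℕ) (c : ℝ) (k : ℕ) (I : Finset ℕ) : Finset (Finset ℕ) :=
  (I.powersetCard k).filter (fun D =>
    (cX x b D : ℝ) < c ^ (k + 1) * (Uni.CT ({0, b} ∪ D) * (x / Real.log x ^ (k + 2))))

theorem realU : ∃ c : ℝ, 0 < c ∧ c ≤ 1 ∧ ∀ (k : ℕ) (ε : ℝ), 0 < ε → ∃ K : ℝ, 1 ≤ K ∧ ∀ A : ℝ, 0 ≤ A →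
    ∀ᶠ x : ℝ in atTop, ∀ b : ℕ, 1 ≤ b → (b : ℝ) ≤ x → Even b → ∀ v H : ℕ, ((v + H : ℕ) : ℝ) ≤ x →
      K * Real.log x ≤ H → (H : ℝ) ≤ Real.log x ^ A →
      ((bdX x b c k (Ioc v (v + H) \ {0, b})).card : ℝ) ≤ ε * (H.choose k : ℝ) := by
  classical
  obtain ⟨c1, hc1, hc11, H1⟩ := evenU
  refine ⟨c1 / 2, by positivity, by linarith, fun k ε hε => ?_⟩
  obtain ⟨K, hK, h1⟩ := H1 k ε hε
  refine ⟨K, hK, fun A hA => ?_⟩
  obtain ⟨N₀, hN₀⟩ := h1 (A + 1) (by linarith)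
  filter_upwards [ev_real 1 A one_pos hA (max N₀ 3), ev_19] with x hx h19
  obtain ⟨a1, a2, a3, a4, a5, a6, a7⟩ := hx
  intro b hb1 hbx he v H hvH hKH hHA
  have hb : b ≤ ⌊x⌋₊ := Nat.le_floor hbx
  have hvH' : v + H ≤ ⌊x⌋₊ := Nat.le_floor hvH
  have h2 := hN₀ ⌊x⌋₊ ((le_max_left _ _).trans a1) b hb1 hb he v H hvH'
    ((mul_le_mul_of_nonneg_left a3 (by linarith)).trans hKH) (hHA.trans a5)
  refine le_trans ?_ h2
  rw [Nat.cast_le]
  apply card_le_card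
  intro D hD
  unfold bdX at hD
  unfold bdU
  rw [mem_filter] at hD ⊢
  refine ⟨hD.1, ?_⟩
  have hAP : ∀ m, AP ⌊x⌋₊ m → APx x m := by
    intro m hm
    exact ⟨hm.1, fun p hp hpd => h19.trans (hm.2 p hp hpd)⟩
  have e1 : (cU ⌊x⌋₊ b D : ℝ) ≤ cX x b D := by
    unfold cU cX
    rw [Nat.cast_le]
    apply card_le_card
    intro n hn
    simp only [mem_filter] at hn ⊢
    exact ⟨hn.1, hn.2.1, hAP _ hn.2.2.1, fun d hd => hAP _ (hn.2.2.2 d hd)⟩
  refine lt_of_le_of_lt e1 (lt_of_lt_of_le hD.2 ?_)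
  have hCT := Uni.CT_nonneg ({0, b} ∪ D)
  obtain ⟨N, hN⟩ : ∃ N, N = ⌊x⌋₊ := ⟨_, rfl⟩
  have hxN : x < (⌊x⌋₊ : ℝ) + 1 := Nat.lt_floor_add_one x
  rw [← hN] at a1 a2 a3 a6 hxN ⊢
  have hN3 : (3 : ℝ) ≤ N := by exact_mod_cast (le_max_right _ _).trans a1
  have hx2 : x ≤ 2 * N := by linarith
  have hL0 : 0 < Real.log (N : ℝ) := by linarith
  have hl0 : 0 < Real.log x := by linarith
  have e2 : x / Real.log x ^ (k + 2) ≤ 2 * (N / Real.log (N : ℝ) ^ (k + 2)) := by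
    calc x / Real.log x ^ (k + 2) ≤ 2 * N / Real.log (N : ℝ) ^ (k + 2) := by
          apply div_le_div₀ (by positivity) hx2 (by positivity)
          exact pow_le_pow_left₀ hL0.le a3 _
      _ = _ := by ring
  have e3 : (c1 / 2) ^ (k + 1) ≤ c1 ^ (k + 1) / 2 := by
    rw [div_pow]
    apply div_le_div_of_nonneg_left (by positivity) (by norm_num)
    calc (2 : ℝ) = 2 ^ 1 := by norm_num
      _ ≤ 2 ^ (k + 1) := pow_le_pow_right₀ (by norm_num) (by omega)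
  calc (c1 / 2) ^ (k + 1) * (Uni.CT ({0, b} ∪ D) * (x / Real.log x ^ (k + 2))) ≤
      c1 ^ (k + 1) / 2 * (Uni.CT ({0, b} ∪ D) * (2 * (N / Real.log (N : ℝ) ^ (k + 2)))) := by
        apply mul_le_mul e3 _ (by positivity) (by positivity)
        exact mul_le_mul_of_nonneg_left e2 hCT
    _ = _ := by ring

lemma bdX_split {x c : ℝ} {b : ℕ} {I I1 I2 : Finset ℕ} (h : I ⊆ I1 ∪ I2) :
    (bdX x b c 1 I).card ≤ (bdX x b c 1 I1).card + (bdX x b c 1 I2).card := by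
  classical
  refine le_trans (card_le_card ?_) (card_union_le _ _)
  intro D hD
  unfold bdX at hD ⊢
  rw [mem_filter, mem_powersetCard] at hD
  rw [mem_union, mem_filter, mem_filter, mem_powersetCard, mem_powersetCard]
  obtain ⟨d, hd⟩ := card_eq_one.1 hD.1.2
  have h1 : d ∈ I := hD.1.1 (by rw [hd]; exact mem_singleton_self d)
  rcases mem_union.1 (h h1) with h2 | h2
  · left
    exact ⟨⟨by rw [hd]; exact singleton_subset_iff.2 h2, hD.1.2⟩, hD.2⟩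
  · right
    exact ⟨⟨by rw [hd]; exact singleton_subset_iff.2 h2, hD.1.2⟩, hD.2⟩

/-- one shift in a window of any length -/
theorem longU : ∃ c : ℝ, 0 < c ∧ c ≤ 1 ∧ (∀ (k : ℕ) (ε : ℝ), 0 < ε → ∃ K : ℝ, 1 ≤ K ∧ ∀ A : ℝ, 0 ≤ A →
    ∀ᶠ x : ℝ in atTop, ∀ b : ℕ, 1 ≤ b → (b : ℝ) ≤ x → Even b → ∀ v H : ℕ, ((v + H : ℕ) : ℝ) ≤ x →
      K * Real.log x ≤ H → (H : ℝ) ≤ Real.log x ^ A →
      ((bdX x b c k (Ioc v (v + H) \ {0, b})).card : ℝ) ≤ ε * (H.choose k : ℝ)) ∧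
    ∀ ε : ℝ, 0 < ε → ∃ K : ℝ, 1 ≤ K ∧ ∀ᶠ x : ℝ in atTop, ∀ b : ℕ, 1 ≤ b → (b : ℝ) ≤ x → Even b →
      ∀ v H : ℕ, ((v + H : ℕ) : ℝ) ≤ x → K * Real.log x ≤ H →
      ((bdX x b c 1 (Ioc v (v + H) \ {0, b})).card : ℝ) ≤ ε * H := by
  classical
  obtain ⟨c, hc, hc1, H1⟩ := realU
  refine ⟨c, hc, hc1, H1, fun ε hε => ?_⟩
  obtain ⟨K, hK, h1⟩ := H1 1 ε hε
  refine ⟨K, hK, ?_⟩
  filter_upwards [h1 2 (by norm_num), Real.tendsto_log_atTop.eventually_ge_atTop (2 * K + 1)] with x hx hl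
  intro b hb1 hbx he
  have hl0 : 0 < Real.log x := by linarith
  have hKl : 0 ≤ K * Real.log x := by positivity
  have hl2 : 2 * (K * Real.log x) + 1 ≤ Real.log x ^ (2 : ℝ) := by
    have e : Real.log x ^ (2 : ℝ) = Real.log x * Real.log x := by
      rw [show (2 : ℝ) = ((2 : ℕ) : ℝ) by norm_num, Real.rpow_natCast, sq]
    rw [e]
    nlinarith
  obtain ⟨h0, hh0⟩ : ∃ h0 : ℕ, h0 = ⌈K * Real.log x⌉₊ := ⟨_, rfl⟩
  have hh1 : K * Real.log x ≤ h0 := by rw [hh0]; exact Nat.le_ceil _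
  have hh2 : (h0 : ℝ) < K * Real.log x + 1 := by rw [hh0]; exact Nat.ceil_lt_add_one (by positivity)
  have hh00 : 0 < h0 := by
    have : (0 : ℝ) < h0 := lt_of_lt_of_le (by positivity) hh1
    exact_mod_cast this
  intro v H
  induction H using Nat.strong_induction_on generalizing v with
  | _ H ih =>
    intro hvH hKH
    rcases le_or_gt (H : ℝ) (Real.log x ^ (2 : ℝ)) with h | h
    · have h2 := hx b hb1 hbx he v H hvH hKH h
      rwa [Nat.choose_one_right] at h2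
    · have h3 : (h0 : ℝ) < H := by linarith
      have h4 : h0 < H := by exact_mod_cast h3
      have hc1 : ((v + h0 : ℕ) : ℝ) ≤ x := by
        refine le_trans ?_ hvH
        exact_mod_cast (by omega : v + h0 ≤ v + H)
      have h5 := hx b hb1 hbx he v h0 hc1 hh1 (by linarith)
      rw [Nat.choose_one_right] at h5
      have e1 : (v + h0) + (H - h0) = v + H := by omega
      have h6 := ih (H - h0) (by omega) (v + h0) (by rw [e1]; exact hvH) (by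
        rw [Nat.cast_sub h4.le]
        linarith)
      rw [e1] at h6
      have h7 := bdX_split (x := x) (c := c) (b := b) (I := Ioc v (v + H) \ {0, b})
        (I1 := Ioc v (v + h0) \ {0, b}) (I2 := Ioc (v + h0) (v + H) \ {0, b}) (by
          intro t ht
          rw [Finset.mem_sdiff, mem_Ioc] at ht
          rw [mem_union, Finset.mem_sdiff, Finset.mem_sdiff, mem_Ioc, mem_Ioc]
          rcases Nat.lt_or_ge (v + h0) t with h8 | h8
          · right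
            exact ⟨⟨h8, ht.1.2⟩, ht.2⟩
          · left
            exact ⟨⟨ht.1.1, h8⟩, ht.2⟩)
      have h8 : ((bdX x b c 1 (Ioc v (v + H) \ {0, b})).card : ℝ) ≤
          ((bdX x b c 1 (Ioc v (v + h0) \ {0, b})).card : ℝ) +
          ((bdX x b c 1 (Ioc (v + h0) (v + H) \ {0, b})).card : ℝ) := by exact_mod_cast h7
      refine h8.trans ((add_le_add h5 h6).trans (le_of_eq ?_))
      rw [Nat.cast_sub h4.le]
      ring

end Pool.Agent.L0h43.TG
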