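import Pool.Agent.L0h43.TG.Win

/-!
# The singular series and its truncation, on average
-/

set_option autoImplicit false

namespace Pool.Agent.L0h43.TG

open Finset Filter Topology Pool.Agent.H387R2
open Pool.Agent.L0h43.TA Pool.Agent.L0h43.TB Pool.Agent.L0h43.TD Pool.Agent.L0h43.TF
open Pool.Agent.H386R2.HL
open Pool.Agent.L0h43.TE (FS FS_ins FS_empty FS_sub sdiff_un Jv_pow)

lemma J0_big {M : ℕ} : (M : ℝ) ^ (1 / 512 : ℝ) < (2 : ℝ) ^ 2 ^ J0 M := by
  by_contra h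
  push Not at h
  have h1 : (2 : ℝ) ^ 2 ^ (J0 M + 1) ≤ (M : ℝ) ^ (1 / 256 : ℝ) := by
    have h2 : ((2 : ℝ) ^ 2 ^ J0 M) ^ 2 ≤ ((M : ℝ) ^ (1 / 512 : ℝ)) ^ 2 := pow_le_pow_left₀ (by positivity) h 2
    rw [← pow_mul, ← pow_succ] at h2
    refine h2.trans (le_of_eq ?_)
    rw [← Real.rpow_natCast, ← Real.rpow_mul (Nat.cast_nonneg _)]
    norm_num
  have := le_J0 h1
  omega

/-- the singular series is at most twice the truncated one -/
lemma CTL (r : ℕ) : ∃ M₀ : ℕ, ∀ M : ℕ, M₀ ≤ M → ∀ w : ℕ, w < 2 ^ 2 ^ J0 M → ∀ T : Finset ℕ, T.card ≤ r →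
    (∀ t ∈ T, t ≤ M) → Uni.CT T ≤ 2 * (((Uni.WW w : ℝ) / Nat.totient (Uni.WW w)) ^ T.card *
      ((Uni.gT (Uni.WW w) T : ℝ) / Uni.WW w) * Pool.Agent.L0h43.TF.LT w (J0 M) T) := by
  have tN : Tendsto (fun N : ℕ => (N : ℝ)) atTop atTop := tendsto_natCast_atTop_atTop
  have tp : Tendsto (fun N : ℕ => (N : ℝ) ^ (1 / 512 : ℝ)) atTop atTop :=
    (tendsto_rpow_atTop (by norm_num)).comp tN
  have tL : Tendsto (fun N : ℕ => Real.log (N : ℝ)) atTop atTop := Real.tendsto_log_atTop.comp tN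
  obtain ⟨κ, hκ⟩ : ∃ κ : ℝ, κ = Real.log 2 / (r * r + 1) := ⟨_, rfl⟩
  have hκ0 : 0 < κ := by rw [hκ]; have := Real.log_pos (show (1 : ℝ) < 2 by norm_num); positivity
  have hsm : ∀ᶠ N : ℕ in atTop, Real.log N ≤ 1 / 4 * (N : ℝ) ^ (1 / 512 : ℝ) := by
    have h := (isLittleO_log_rpow_atTop (r := 1 / 512) (by norm_num)).def (show (0 : ℝ) < 1 / 4 by norm_num)
    filter_upwards [tN.eventually h, tL.eventually_ge_atTop 0] with N h1 h2
    rw [Real.norm_of_nonneg h2, Real.norm_of_nonneg (by positivity)] at h1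
    exact h1
  obtain ⟨M₀, hM₀⟩ := eventually_atTop.1 (hsm.and ((tp.eventually_ge_atTop (max 4 (Real.exp (1 / κ) + 1))).and
    (eventually_ge_atTop 3)))
  refine ⟨M₀, fun M hM w hw T hT hTM => ?_⟩
  obtain ⟨l1, l2, l3⟩ := hM₀ M hM
  have hp4 : (4 : ℝ) ≤ (M : ℝ) ^ (1 / 512 : ℝ) := (le_max_left _ _).trans l2
  have hpe : Real.exp (1 / κ) + 1 ≤ (M : ℝ) ^ (1 / 512 : ℝ) := (le_max_right _ _).trans l2
  have hM3 : (3 : ℝ) ≤ M := by exact_mod_cast l3
  obtain ⟨y, hy⟩ : ∃ y, y + 1 = 2 ^ 2 ^ J0 M := ⟨2 ^ 2 ^ J0 M - 1, Nat.sub_add_cancel Nat.one_le_two_pow⟩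
  have hyR : (M : ℝ) ^ (1 / 512 : ℝ) < (y : ℝ) + 1 := by
    have h1 := J0_big (M := M)
    have h2 : ((y + 1 : ℕ) : ℝ) = (2 : ℝ) ^ 2 ^ J0 M := by rw [hy]; push_cast; rfl
    push_cast at h2
    rwa [← h2] at h1
  have hy2 : 2 ≤ y := by
    have : (2 : ℝ) < y := by linarith
    exact_mod_cast this.le
  have hy0 : (0 : ℝ) < y := by linarith
  have hlogy : 1 / κ ≤ Real.log y := by
    rw [Real.le_log_iff_exp_le hy0]
    linarith
  have hlogy0 : 0 < Real.log (y : ℝ) := lt_of_lt_of_le (by positivity) hlogy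
  have hlogM : Real.log (M : ℝ) ≤ 1 / 2 * y := by linarith
  obtain ⟨K, hK⟩ : ∃ K, K = Real.exp κ := ⟨_, rfl⟩
  have hK1 : 1 ≤ K := by rw [hK]; exact Real.one_le_exp hκ0.le
  have h1 := Uni.CT_le T y hK1 hTM (by
    intro n hn1 hnM
    refine (Uni.tt_le y n hy2 hn1).trans ?_
    rw [hK]
    apply Real.exp_le_exp.2
    have hn0 : (0 : ℝ) < n := by exact_mod_cast hn1
    have hlogn : Real.log (n : ℝ) ≤ Real.log M := Real.log_le_log hn0 (by exact_mod_cast hnM)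
    rw [div_le_iff₀ (by positivity)]
    have h2 : 1 ≤ κ * Real.log y := by
      rw [div_le_iff₀ hκ0] at hlogy
      linarith
    calc 2 * Real.log (n : ℝ) ≤ y := by linarith
      _ = y * 1 := (mul_one _).symm
      _ ≤ y * (κ * Real.log y) := mul_le_mul_of_nonneg_left h2 hy0.le
      _ = κ * (y * Real.log y) := by ring)
  have hKr : K ^ (T.card * T.card) ≤ 2 := by
    have h2 : T.card * T.card ≤ r * r := Nat.mul_le_mul hT hT
    calc K ^ (T.card * T.card) ≤ K ^ (r * r) := pow_le_pow_right₀ hK1 h2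
      _ = Real.exp ((r * r : ℕ) * κ) := by rw [hK, ← Real.exp_nat_mul]
      _ ≤ Real.exp (Real.log 2) := by
          apply Real.exp_le_exp.2
          rw [hκ, mul_div_assoc', div_le_iff₀ (by positivity)]
          have := Real.log_pos (show (1 : ℝ) < 2 by norm_num)
          push_cast
          nlinarith
      _ = 2 := Real.exp_log (by norm_num)
  have e1 : ((Uni.WW y : ℝ) / Nat.totient (Uni.WW y)) ^ T.card * ((Uni.gT (Uni.WW y) T : ℝ) / Uni.WW y) =
      ((Uni.WW w : ℝ) / Nat.totient (Uni.WW w)) ^ T.card *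
      ((Uni.gT (Uni.WW w) T : ℝ) / Uni.WW w) * Pool.Agent.L0h43.TF.LT w (J0 M) T := by
    have h3 := V1_split (w := y) (J := J0 M) (by omega)
    have h4 : V1w y (J0 M) = 1 := by
      unfold V1w
      have h4 : Pw y (J0 M) = ∅ := by
        unfold Pw Ps
        apply filter_eq_empty_iff.2
        intro p hp
        rw [mem_filter, mem_range] at hp
        omega
      rw [h4, prod_empty]
    rw [h4, mul_one] at h3
    have h5 := V1_split hw
    rw [h3] at h5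
    have hWy : (0 : ℝ) < Uni.WW y := by exact_mod_cast (Uni.WW_pos y)
    have hφy : (0 : ℝ) < Nat.totient (Uni.WW y) := by exact_mod_cast Nat.totient_pos.2 (Uni.WW_pos y)
    have hWw : (0 : ℝ) < Uni.WW w := by exact_mod_cast (Uni.WW_pos w)
    have hφw : (0 : ℝ) < Nat.totient (Uni.WW w) := by exact_mod_cast Nat.totient_pos.2 (Uni.WW_pos w)
    have hV := V1w_pos w (J0 M)
    rw [gT_VT hy, VT_split hw, Vw_LT]
    have h6 : (Uni.WW y : ℝ) / Nat.totient (Uni.WW y) * V1w w (J0 M) = (Uni.WW w : ℝ) / Nat.totient (Uni.WW w) := by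
      have h7 : (Uni.WW y : ℝ) / Nat.totient (Uni.WW y) = (Uni.WW w : ℝ) / Nat.totient (Uni.WW w) / V1w w (J0 M) := by
        rw [← inv_div, h5]
        field_simp
      rw [h7]
      field_simp
    rw [← h6, mul_pow]
    ring
  rw [e1] at h1
  refine h1.trans ?_
  apply mul_le_mul_of_nonneg_right hKr
  have h8 := LT_nonneg w (J0 M) T
  positivity

lemma LT_low {w J h : ℕ} {T : Finset ℕ} (hT : h ∉ T) (hw : 4 * (T.card + 1) ≤ w) :
    (1 - 4 * T.card / w) * Pool.Agent.L0h43.TF.LT w J T ≤ Pool.Agent.L0h43.TF.LT w J (insert h T) := by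
  have h1 := Vw_low (J := J) T h hw
  rw [Vw_LT, Vw_LT, card_insert_of_notMem hT] at h1
  have hV := V1w_pos w J
  have h2 : V1w w J ^ (T.card + 1) * ((1 - 4 * T.card / w) * Pool.Agent.L0h43.TF.LT w J T) ≤
      V1w w J ^ (T.card + 1) * Pool.Agent.L0h43.TF.LT w J (insert h T) := by
    refine le_trans (le_of_eq ?_) h1
    rw [pow_succ]
    ring
  exact le_of_mul_le_mul_left h2 (by positivity)

lemma LT_total {w J r W ν u H : ℕ} {T R : Finset ℕ} (hR : R ⊆ Jv W ν u H)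
    (hRT : Disjoint R T) (hr : T.card ≤ r) {c : ℝ} (hm : ∀ t ∈ T,
      ∑ h ∈ (Jv W ν u H).filter (fun h => h ≠ t), (mm w J (2 * r) (ds h t) - 1) ≤ c) :
    ∑ h ∈ R, Pool.Agent.L0h43.TF.LT w J (insert h T) ≤ Pool.Agent.L0h43.TF.LT w J T * (R.card + T.card * c) := by
  have h1 := sum_up1 (J := J) (w := w) hR hRT hr hm
  have hV := V1w_pos w J
  have e1 : ∀ h ∈ R, Vw w J (insert h T) = V1w w J ^ (T.card + 1) * Pool.Agent.L0h43.TF.LT w J (insert h T) := by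
    intro h hh
    rw [Vw_LT, card_insert_of_notMem (disjoint_left.1 hRT hh)]
  rw [sum_congr rfl e1, ← mul_sum, Vw_LT] at h1
  have h2 : V1w w J ^ (T.card + 1) * ∑ h ∈ R, Pool.Agent.L0h43.TF.LT w J (insert h T) ≤
      V1w w J ^ (T.card + 1) * (Pool.Agent.L0h43.TF.LT w J T * (R.card + T.card * c)) := by
    refine h1.trans (le_of_eq ?_)
    rw [pow_succ]
    ring
  exact le_of_mul_le_mul_left h2 (by positivity)

/-- the abstract average over sets: upper bound -/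
lemma avg_sets {J : Finset ℕ} {f : Finset ℕ → ℝ} {δ Φ : ℝ} {j k : ℕ} (hδ0 : 0 ≤ δ) (hΦ : 0 ≤ Φ)
    (hδk : 2 * (k : ℝ) * (j + k) * δ ≤ 1) (hf0 : ∀ D, 0 ≤ f D) (hJ : (J.card : ℝ) ≤ 2 * Φ)
    (htot : ∀ D ⊆ J, D.card < k → ∑ x ∈ J \ D, f (insert x D) ≤ f D * (((J \ D).card : ℝ) + (j + D.card) * (δ * Φ))) :
    ∑ D ∈ J.powersetCard k, f D ≤ f ∅ * ((J.card.choose k : ℝ) + 2 * k * (j + k) * δ * (2 * Φ) ^ k) := by
  classical
  have hj : (0 : ℝ) ≤ j := Nat.cast_nonneg _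
  induction k with
  | zero =>
    rw [powersetCard_zero, sum_singleton, Nat.choose_zero_right]
    push_cast
    have := hf0 ∅
    linarith
  | succ k ih =>
    have hk0 : (0 : ℝ) ≤ k := Nat.cast_nonneg _
    have hmono : 2 * (k : ℝ) * (j + k) * δ ≤ 2 * ((k + 1 : ℕ) : ℝ) * (j + (k + 1 : ℕ)) * δ := by
      apply mul_le_mul_of_nonneg_right _ hδ0
      push_cast
      nlinarith
    have ih := ih (hmono.trans hδk) (fun D hD hDk => htot D hD (by omega))
    have h1 := sum_ins J k f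
    obtain ⟨e, he⟩ : ∃ e : ℝ, e = 2 * (k : ℝ) * (j + k) * δ := ⟨_, rfl⟩
    rw [← he] at hmono ih
    have he0 : 0 ≤ e := by rw [he]; positivity
    have he1 : e ≤ 1 := hmono.trans hδk
    have h2 : ∑ D ∈ J.powersetCard k, ∑ x ∈ J \ D, f (insert x D) ≤
        ∑ D ∈ J.powersetCard k, f D * (((J.card - k : ℕ) : ℝ) + (j + k) * (δ * Φ)) := by
      apply sum_le_sum
      intro D hD
      rw [mem_powersetCard] at hD
      refine (htot D hD.1 (by omega)).trans (le_of_eq ?_)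
      rw [card_sdiff_of_subset hD.1, hD.2]
    rw [← sum_mul] at h2
    have hΦk : 0 ≤ (2 * Φ) ^ k := by positivity
    have hJk : ((J.card - k : ℕ) : ℝ) ≤ 2 * Φ := by
      refine le_trans ?_ hJ
      exact_mod_cast Nat.sub_le _ _
    have hch : (J.card.choose k : ℝ) ≤ (2 * Φ) ^ k := by
      have h3 : (J.card.choose k : ℝ) ≤ (J.card : ℝ) ^ k := by exact_mod_cast Nat.choose_le_pow _ _
      exact h3.trans (pow_le_pow_left₀ (Nat.cast_nonneg _) hJ k)
    have hchs : (J.card.choose k : ℝ) * ((J.card - k : ℕ) : ℝ) = ((k + 1 : ℕ) : ℝ) * (J.card.choose (k + 1) : ℝ) := by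
      have h3 := Nat.choose_succ_right_eq J.card k
      have h4 : J.card.choose (k + 1) * (k + 1) = J.card.choose k * (J.card - k) := h3
      have h5 : ((J.card.choose (k + 1) * (k + 1) : ℕ) : ℝ) = ((J.card.choose k * (J.card - k) : ℕ) : ℝ) := by rw [h4]
      rw [Nat.cast_mul, Nat.cast_mul] at h5
      rw [← h5]
      ring
    have h6 : 0 ≤ ((J.card - k : ℕ) : ℝ) + (j + k) * (δ * Φ) := by positivity
    have h7 := h2.trans (mul_le_mul_of_nonneg_right ih h6)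
    rw [← h1] at h7
    have hf := hf0 ∅
    obtain ⟨a, ha⟩ : ∃ a : ℝ, a = ((J.card - k : ℕ) : ℝ) := ⟨_, rfl⟩
    obtain ⟨q, hq⟩ : ∃ q : ℝ, q = (J.card.choose k : ℝ) := ⟨_, rfl⟩
    obtain ⟨q', hq'⟩ : ∃ q' : ℝ, q' = (J.card.choose (k + 1) : ℝ) := ⟨_, rfl⟩
    obtain ⟨κ, hκ⟩ : ∃ κ : ℝ, κ = ((k + 1 : ℕ) : ℝ) := ⟨_, rfl⟩
    have hκ1 : κ = k + 1 := by rw [hκ]; push_cast; ring
    rw [← ha, ← hq, ← hκ] at h7
    rw [← ha] at hJk hchs
    rw [← hq, ← hκ, ← hq'] at hchs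
    rw [← hq] at hch
    rw [← hκ, ← hq']
    have hκ0 : 1 ≤ κ := by rw [hκ1]; linarith
    have ha0 : 0 ≤ a := by rw [ha]; exact Nat.cast_nonneg _
    have hq0 : 0 ≤ q := by rw [hq]; exact Nat.cast_nonneg _
    have h8 : (q + e * (2 * Φ) ^ k) * (a + (j + k) * (δ * Φ)) ≤
        κ * (q' + 2 * κ * (j + κ) * δ * (2 * Φ) ^ (k + 1)) := by
      have e1 : (q + e * (2 * Φ) ^ k) * (a + (j + k) * (δ * Φ)) =
          q * a + e * (2 * Φ) ^ k * a + (q + e * (2 * Φ) ^ k) * ((j + k) * δ * Φ) := by ring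
      have h9 : e * (2 * Φ) ^ k * a ≤ e * (2 * Φ) ^ k * (2 * Φ) := mul_le_mul_of_nonneg_left hJk (by positivity)
      have h10 : (q + e * (2 * Φ) ^ k) * ((j + k) * δ * Φ) ≤ (2 * (2 * Φ) ^ k) * ((j + k) * δ * Φ) := by
        apply mul_le_mul_of_nonneg_right _ (by positivity)
        have : e * (2 * Φ) ^ k ≤ 1 * (2 * Φ) ^ k := mul_le_mul_of_nonneg_right he1 hΦk
        linarith
      have e2 : (2 * (2 * Φ) ^ k) * ((j + k) * δ * Φ) = (j + k) * δ * ((2 * Φ) ^ k * (2 * Φ)) := by ring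
      rw [e1, hchs, pow_succ]
      rw [e2] at h10
      have hΦ1 : 0 ≤ (2 * Φ) ^ k * (2 * Φ) := by positivity
      have h11 : e + (j + k) * δ ≤ κ * (2 * κ * (j + κ) * δ) := by
        have h12 : e + (j + k) * δ ≤ 2 * κ * (j + κ) * δ := by
          rw [he, hκ1]
          nlinarith [mul_nonneg hδ0 hj, mul_nonneg hδ0 hk0]
        refine h12.trans (le_mul_of_one_le_left (by positivity) hκ0)
      have h13 := mul_le_mul_of_nonneg_right h11 hΦ1
      have e3 : κ * (q' + 2 * κ * (j + κ) * δ * ((2 * Φ) ^ k * (2 * Φ))) =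
          κ * q' + κ * (2 * κ * (j + κ) * δ) * ((2 * Φ) ^ k * (2 * Φ)) := by ring
      rw [e3]
      have e4 : (e + (j + k) * δ) * ((2 * Φ) ^ k * (2 * Φ)) =
          e * (2 * Φ) ^ k * (2 * Φ) + (j + k) * δ * ((2 * Φ) ^ k * (2 * Φ)) := by ring
      rw [e4] at h13
      linarith
    have h14 := mul_le_mul_of_nonneg_left h8 hf
    have h15 : κ * ∑ D ∈ J.powersetCard (k + 1), f D ≤
        κ * (f ∅ * (q' + 2 * κ * (j + κ) * δ * (2 * Φ) ^ (k + 1))) := by
      refine h7.trans (le_trans (le_of_eq ?_) (h14.trans (le_of_eq ?_)))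
      · ring
      · ring
    exact le_of_mul_le_mul_left h15 (by linarith)

/-- few sets have a large value -/
lemma avg_few {J : Finset ℕ} {f : Finset ℕ → ℝ} {δ Φ : ℝ} {j k : ℕ} (hδ0 : 0 ≤ δ) (hΦ : 0 ≤ Φ)
    (hδk : 2 * (k : ℝ) * (j + k) * δ ≤ 1) (hf0 : ∀ D, 0 ≤ f D) (hJ : (J.card : ℝ) ≤ 2 * Φ)
    (htot : ∀ D ⊆ J, D.card < k → ∑ x ∈ J \ D, f (insert x D) ≤ f D * (((J \ D).card : ℝ) + (j + D.card) * (δ * Φ)))
    (hlow : ∀ D ⊆ J, D.card < k → ∀ x ∈ J \ D, (1 - δ) * f D ≤ f (insert x D)) (hfpos : 0 < f ∅) (hδ1 : k * δ ≤ 1) :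
    (((J.powersetCard k).filter (fun D => 2 * f ∅ < f D)).card : ℝ) ≤
      (k * δ + 2 * k * (j + k) * δ) * (2 * Φ) ^ k := by
  classical
  have h1 := avg_sets (j := j) hδ0 hΦ hδk hf0 hJ htot
  have hL : ∀ i, i ≤ k → ∀ D ⊆ J, D.card = i → (1 - i * δ) * f ∅ ≤ f D := by
    intro i
    induction i with
    | zero =>
      intro _ D _ hD
      rw [card_eq_zero.1 hD]
      push_cast
      linarith
    | succ i ih =>
      intro hik D hD hDi
      obtain ⟨x, hx⟩ : D.Nonempty := by rw [← card_pos]; omega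
      have hD' : (D.erase x).card = i := by rw [card_erase_of_mem hx, hDi]; rfl
      have hsub : D.erase x ⊆ J := (erase_subset _ _).trans hD
      have h2 := ih (by omega) (D.erase x) hsub hD'
      have h3 := hlow (D.erase x) hsub (by omega) x (by
        rw [Finset.mem_sdiff]
        exact ⟨hD hx, notMem_erase x D⟩)
      rw [insert_erase hx] at h3
      have hi0 : (0 : ℝ) ≤ i := Nat.cast_nonneg _
      have hδ1' : δ ≤ 1 := by
        have : (1 : ℝ) ≤ k := by exact_mod_cast (by omega : 1 ≤ k)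
        nlinarith
      have h4 := mul_le_mul_of_nonneg_left h2 (show 0 ≤ 1 - δ by linarith)
      push_cast
      nlinarith [mul_nonneg (mul_nonneg hi0 (mul_nonneg hδ0 hδ0)) hfpos.le]
  obtain ⟨P, hP⟩ : ∃ P, P = J.powersetCard k := ⟨_, rfl⟩
  rw [← hP] at h1 ⊢
  obtain ⟨Q, hQ⟩ : ∃ Q, Q = P.filter (fun D => 2 * f ∅ < f D) := ⟨_, rfl⟩
  rw [← hQ]
  have hPc : (P.card : ℝ) = (J.card.choose k : ℝ) := by rw [hP, card_powersetCard]
  have h2 : (P.card : ℝ) * ((1 - k * δ) * f ∅) + (Q.card : ℝ) * f ∅ ≤ ∑ D ∈ P, f D := by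
    have h3 : ∀ D ∈ P, (1 - k * δ) * f ∅ + (if 2 * f ∅ < f D then f ∅ else 0) ≤ f D := by
      intro D hD
      rw [hP, mem_powersetCard] at hD
      split_ifs with h4
      · have : 0 ≤ k * δ * f ∅ := by positivity
        linarith
      · rw [add_zero]
        exact hL k le_rfl D hD.1 hD.2
    have h4 := sum_le_sum h3
    rw [sum_add_distrib, sum_const, nsmul_eq_mul, ← sum_filter, ← hQ, sum_const, nsmul_eq_mul] at h4
    exact h4
  have hch : (J.card.choose k : ℝ) ≤ (2 * Φ) ^ k := by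
    have h3 : (J.card.choose k : ℝ) ≤ (J.card : ℝ) ^ k := by exact_mod_cast Nat.choose_le_pow _ _
    exact h3.trans (pow_le_pow_left₀ (Nat.cast_nonneg _) hJ k)
  have h5 : (Q.card : ℝ) * f ∅ ≤ ((k * δ + 2 * k * (j + k) * δ) * (2 * Φ) ^ k) * f ∅ := by
    rw [hPc] at h2
    have h6 := h2.trans h1
    have h7 : k * δ * f ∅ * (J.card.choose k : ℝ) ≤ k * δ * f ∅ * (2 * Φ) ^ k :=
      mul_le_mul_of_nonneg_left hch (by positivity)
    linarith
  exact le_of_mul_le_mul_right h5 hfpos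

end Pool.Agent.L0h43.TG
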