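import Pool.Agent.L0h43.TG.Fs

/-!
# A window anywhere: the lower bound in a class
-/

set_option autoImplicit false

namespace Pool.Agent.L0h43.TG

open Finset Filter Topology Pool.Agent.H387R2
open Pool.Agent.L0h43.TA Pool.Agent.L0h43.TB Pool.Agent.L0h43.TD Pool.Agent.L0h43.TF
open Pool.Agent.H386R2.HL
open Pool.Agent.L0h43.TE (FS FS_ins FS_empty FS_sub sdiff_un Jv_pow)

/-- **windows anywhere, an arbitrary set of tuples in a class modulo a primorial** -/
theorem winL : ∃ c0 : ℝ, 0 < c0 ∧ c0 ≤ 1 ∧ ∀ (j k : ℕ) (ε : ℝ), 0 < ε →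
    ∃ K : ℝ, 1 ≤ K ∧ ∃ w0 : ℕ, ∀ w : ℕ, w0 ≤ w → ∀ A : ℝ, 0 ≤ A → ∃ M₀ : ℕ, ∀ M : ℕ, M₀ ≤ M →
      ∀ B : Finset ℕ, B.card = j → (∀ t ∈ B, t ≤ M) → ∀ ν : ℕ, ν < Uni.WW w → OK (Uni.WW w) ν B →
      ∀ v H : ℕ, v + H ≤ M → K * Real.log M ≤ H → (H : ℝ) ≤ Real.log M ^ A →
      ∀ g : Finset ℕ → ℝ, (∀ D, 0 ≤ g D) → (∀ D, g D ≤ 1) →
      ∀ S : Finset ℕ, (∀ n ∈ S, Nat.sqrt M < n ∧ n + v ≤ M ∧ n % Uni.WW w = ν ∧
        ∀ t ∈ B, ∀ p : ℕ, p.Prime → p ∣ n + t → (M : ℝ) ^ (1 / 16 : ℝ) ≤ p) →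
        (c0 * ((Uni.WW w : ℝ) / Nat.totient (Uni.WW w) / Real.log M)) ^ k *
          (∑ D ∈ (Jv (Uni.WW w) ν v H \ B).powersetCard k, g D) * (S.card : ℝ) -
          ε * ((H / Real.log M) ^ k * Eo M w (B.image (fs M v))) ≤
        ∑ D ∈ (Jv (Uni.WW w) ν v H \ B).powersetCard k, g D * ((FS M S D).card : ℝ) := by
  classical
  obtain ⟨c0, hc0, hc1, HF⟩ := famG Pool.Agent.L0h10.GE.t_MAV
  refine ⟨c0, hc0, hc1, fun j k ε hε => ?_⟩
  obtain ⟨η, hηd⟩ : ∃ η : ℝ, η = min 1 (ε / 6 ^ k) := ⟨_, rfl⟩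
  have hη0 : 0 < η := by rw [hηd]; exact lt_min one_pos (by positivity)
  have hη1 : η ≤ 1 := by rw [hηd]; exact min_le_left _ _
  have hηε : η * 6 ^ k ≤ ε := by
    have h1 : η ≤ ε / 6 ^ k := by rw [hηd]; exact min_le_right _ _
    rwa [le_div_iff₀ (by positivity)] at h1
  obtain ⟨K, hK, w0, H0⟩ := HF j η hη0 hη1 k
  refine ⟨K, hK, w0, fun w hw A hA => ?_⟩
  obtain ⟨M1, hM1⟩ := H0 w hw A hA
  have tL : Tendsto (fun N : ℕ => Real.log (N : ℝ)) atTop atTop :=
    Real.tendsto_log_atTop.comp tendsto_natCast_atTop_atTop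
  have tp : Tendsto (fun N : ℕ => (N : ℝ) ^ (1 / 16 : ℝ)) atTop atTop :=
    (tendsto_rpow_atTop (by norm_num)).comp tendsto_natCast_atTop_atTop
  obtain ⟨M₀, hM₀⟩ := eventually_atTop.1 ((tL.eventually_ge_atTop 1).and
    ((tp.eventually_ge_atTop ((w : ℝ) + 1)).and (eventually_ge_atTop (max M1 3))))
  refine ⟨M₀, fun M hM B hB hBM ν hν hOK v H hvH hKH hHA g hg0 hg1 S hS => ?_⟩
  obtain ⟨l1, l2, l3⟩ := hM₀ M hM
  have hMM1 : M1 ≤ M := (le_max_left _ _).trans l3
  have hM3 : 3 ≤ M := (le_max_right _ _).trans l3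
  have hL0 : 0 < Real.log (M : ℝ) := by linarith
  have hLH : Real.log M ≤ H := (le_mul_of_one_le_left hL0.le hK).trans hKH
  have hH0 : (0 : ℝ) < H := by linarith
  have hWpos : 0 < Uni.WW w := Uni.WW_pos w
  have hvM : v ≤ M := by omega
  have hwp : ∀ p : ℕ, p ≤ w → (p : ℝ) < (M : ℝ) ^ (1 / 16 : ℝ) := by
    intro p hp
    have : (p : ℝ) ≤ w := by exact_mod_cast hp
    linarith
  have hOK' : OK (Uni.WW w) ((ν + v) % Uni.WW w) (B.image (fs M v)) := by
    intro t' ht'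
    rw [mem_image] at ht'
    obtain ⟨t, ht, rfl⟩ := ht'
    rw [cop_iff]
    intro p hp hpw
    have h1 := cop_iff.1 (hOK t ht) p hp hpw
    have h2 : (((ν + v) % Uni.WW w : ℕ) : ZMod p) = ((ν + v : ℕ) : ZMod p) :=
      (ZMod.natCast_eq_natCast_iff _ _ _).2 ((Nat.mod_modEq _ _).of_dvd ((dvd_WW hp).2 hpw))
    intro h3
    apply h1
    rw [Nat.cast_add, h2, fs_zmod hp (hwp p hpw)] at h3
    push_cast at h3 ⊢
    linear_combination h3
  have hfam := hM1 M hMM1 (B.image (fs M v)) (by rw [fs_card hBM, hB]) (by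
    intro t' ht'
    rw [mem_image] at ht'
    obtain ⟨t, ht, rfl⟩ := ht'
    exact fs_Gd hvM (hBM t ht)) ((ν + v) % Uni.WW w) (Nat.mod_lt _ hWpos) hOK' 0 H hKH (by
      rw [Nat.zero_add]; exact hHA) (S.image (fun n => n + v)) (img_sub hS)
  have hlow := hfam.lower (fun D => g (D.map (addLeftEmbedding v))) (fun D => hg0 _) (fun D => hg1 _)
  rw [FS_empty, card_img, union_empty] at hlow
  rw [sum_win (M := M) hvH g, sum_win (M := M) hvH (fun D => g D * ((FS M S D).card : ℝ))]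
  have e1 : ∀ D ∈ (Jv (Uni.WW w) ((ν + v) % Uni.WW w) 0 H \ B.image (fs M v)).powersetCard k,
      g (D.map (addLeftEmbedding v)) * ((FS M S (D.map (addLeftEmbedding v))).card : ℝ) =
      g (D.map (addLeftEmbedding v)) * ((FS M (S.image (fun n => n + v)) D).card : ℝ) := by
    intro D _
    rw [FS_img]
  rw [sum_congr rfl e1]
  refine le_trans ?_ hlow
  apply sub_le_sub_left
  have hE : 0 ≤ Eo M w (B.image (fs M v)) := Eo_nonneg (by omega)
  have h5 : 0 ≤ (H / Real.log M) ^ k * Eo M w (B.image (fs M v)) := by positivity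
  calc η * 6 ^ k * (H / Real.log M) ^ k * Eo M w (B.image (fs M v)) =
      (η * 6 ^ k) * ((H / Real.log M) ^ k * Eo M w (B.image (fs M v))) := by ring
    _ ≤ _ := mul_le_mul_of_nonneg_right hηε h5

/-- the expected number of primes, for the differences `b` -/
noncomputable def Fb (N w b : ℕ) : ℝ := N / Real.log N ^ 2 / Nat.totient (Uni.WW w) *
  (((Uni.WW w * b : ℕ) : ℝ) / Nat.totient (Uni.WW w * b))

lemma Eo_le_Fb {N M w v b : ℕ} (hN : 2 ≤ N) (hMN : M = 2 * N) (hw : 3 ≤ w) (h2 : (2 : ℝ) ≤ (M : ℝ) ^ (1 / 256 : ℝ))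
    (hb1 : 1 ≤ b) (hbM : b ≤ M) : Eo M w (({0, b} : Finset ℕ).image (fs M v)) ≤ 2 * Fb N w b := by
  classical
  have hM1 : 1 ≤ M := by omega
  have hMR : (1 : ℝ) ≤ M := by exact_mod_cast hM1
  have hNR : (2 : ℝ) ≤ N := by exact_mod_cast hN
  have h16 : (M : ℝ) ^ (1 / 256 : ℝ) ≤ (M : ℝ) ^ (1 / 16 : ℝ) :=
    Real.rpow_le_rpow_of_exponent_le hMR (by norm_num)
  have hW : (0 : ℝ) < Uni.WW w := by exact_mod_cast (Uni.WW_pos w)
  have hφ : (0 : ℝ) < Nat.totient (Uni.WW w) := by exact_mod_cast Nat.totient_pos.2 (Uni.WW_pos w)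
  have hL : 0 < Real.log (N : ℝ) := Real.log_pos (by linarith)
  have hLM : Real.log (N : ℝ) ≤ Real.log (M : ℝ) := by
    apply Real.log_le_log (by linarith)
    exact_mod_cast (by omega : N ≤ M)
  have hcard : (({0, b} : Finset ℕ).image (fs M v)).card = 2 := by
    rw [fs_card, card_pair (by omega)]
    intro t ht
    rw [mem_insert, mem_singleton] at ht
    omega
  have hpr : ∀ p ∈ Pw w (J0 M), (p : ℝ) < (M : ℝ) ^ (1 / 16 : ℝ) := by
    intro p hp
    have h3 : (p : ℝ) < ((2 ^ 2 ^ J0 M : ℕ) : ℝ) := by exact_mod_cast Pw_lt hp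
    push_cast at h3
    exact (h3.trans_le (J0_le h2)).trans_le h16
  have hLT : LT w (J0 M) (({0, b} : Finset ℕ).image (fs M v)) = LT w (J0 M) {0, b} := by
    unfold Pool.Agent.L0h43.TF.LT
    apply prod_congr rfl
    intro p hp
    unfold Uni.locT
    rw [fs_nuT _ (Pw_prime hp) (hpr p hp), hcard, card_pair (by omega)]
  have h1 : LT w (J0 M) {0, b} ≤ ∏ p ∈ b.primeFactors.filter (fun p => w < p), (1 - 1 / (p : ℝ))⁻¹ := by
    have h3 : LT w (J0 M) {0, b} ≤ ∏ p ∈ Pw w (J0 M), (if p ∣ ds 0 b then (1 - 1 / (p : ℝ))⁻¹ else 1) := by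
      unfold Pool.Agent.L0h43.TF.LT
      apply Finset.prod_le_prod
      · intro p hp
        exact Pool.Agent.Helper22K9.Trp.locT_nonneg _ (Pw_prime hp)
      · intro p hp
        have := Pw_gt hp
        exact loc_pair_up (by omega) (by omega)
    refine h3.trans ?_
    rw [← prod_filter]
    have hsub : (Pw w (J0 M)).filter (fun p => p ∣ ds 0 b) ⊆ b.primeFactors.filter (fun p => w < p) := by
      intro p hp
      rw [mem_filter] at hp
      rw [mem_filter, Nat.mem_primeFactors]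
      have h7 := hp.2
      unfold ds at h7
      rw [Nat.zero_sub, Nat.sub_zero, Nat.zero_add] at h7
      exact ⟨⟨Pw_prime hp.1, h7, by omega⟩, Pw_gt hp.1⟩
    rw [← prod_sdiff hsub]
    apply le_mul_of_one_le_left
    · apply prod_nonneg
      intro p hp
      have := inv_fac_ge (Pw_prime (mem_filter.1 hp).1)
      linarith
    · apply one_le_prodR
      intro p hp
      rw [Finset.mem_sdiff, mem_filter, Nat.mem_primeFactors] at hp
      exact inv_fac_ge hp.1.1.1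
  unfold Eo Xo Fb
  rw [hcard, hLT, WN_split (by omega)]
  obtain ⟨R, hR⟩ : ∃ R, R = ∏ p ∈ b.primeFactors.filter (fun p => w < p), (1 - 1 / (p : ℝ))⁻¹ := ⟨_, rfl⟩
  rw [← hR] at h1 ⊢
  have hLT0 := LT_nonneg w (J0 M) {0, b}
  have e : 2 * (N / Real.log N ^ 2 / Nat.totient (Uni.WW w) * ((Uni.WW w : ℝ) / Nat.totient (Uni.WW w) * R)) =
      (2 * N / Real.log N ^ 2) * (1 / (Uni.WW w : ℝ) * ((Uni.WW w : ℝ) / Nat.totient (Uni.WW w)) ^ 2 * R) := by
    field_simp
  rw [e]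
  apply mul_le_mul
  · have hM' : (M : ℝ) = 2 * N := by rw [hMN]; push_cast; ring
    rw [hM'] at hLM ⊢
    exact div_le_div_of_nonneg_left (by positivity) (by positivity) (pow_le_pow_left₀ hL.le hLM 2)
  · exact mul_le_mul_of_nonneg_left h1 (by positivity)
  · positivity
  · positivity

lemma Fb_low {N w b : ℕ} (hN : 1 ≤ N) (hb1 : 1 ≤ b) (he : Even b) :
    1 / 2 * (N / Real.log N ^ 2 * ((b : ℝ) / Nat.totient b)) ≤ Fb N w b * Uni.gT (Uni.WW w) {0, b} := by
  classical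
  have hNR : (1 : ℝ) ≤ N := by exact_mod_cast hN
  have hW : (0 : ℝ) < Uni.WW w := by exact_mod_cast (Uni.WW_pos w)
  have hφ : (0 : ℝ) < Nat.totient (Uni.WW w) := by exact_mod_cast Nat.totient_pos.2 (Uni.WW_pos w)
  have hL : 0 ≤ Real.log (N : ℝ) := Real.log_nonneg hNR
  unfold Fb
  rw [WN_split (by omega)]
  obtain ⟨R, hR⟩ : ∃ R, R = ∏ p ∈ b.primeFactors.filter (fun p => w < p), (1 - 1 / (p : ℝ))⁻¹ := ⟨_, rfl⟩
  have hR1 : 1 ≤ R := by
    rw [hR]
    apply one_le_prodR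
    intro p hp
    rw [mem_filter, Nat.mem_primeFactors] at hp
    exact inv_fac_ge hp.1.1
  rw [← hR]
  have e1 : N / Real.log N ^ 2 / Nat.totient (Uni.WW w) * ((Uni.WW w : ℝ) / Nat.totient (Uni.WW w) * R) *
      Uni.gT (Uni.WW w) {0, b} = N / Real.log N ^ 2 * (((Uni.WW w : ℝ) / Nat.totient (Uni.WW w)) ^ 2 *
        ((Uni.gT (Uni.WW w) {0, b} : ℝ) / Uni.WW w) * R) := by
    field_simp
  rw [e1, ← mul_assoc, mul_comm (1 / 2 : ℝ), mul_assoc]
  apply mul_le_mul_of_nonneg_left _ (by positivity)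
  have e2 : (b : ℝ) / Nat.totient b = (∏ p ∈ b.primeFactors.filter (fun p => ¬ w < p), (1 - 1 / (p : ℝ))⁻¹) * R := by
    rw [div_totient (by omega), hR, mul_comm]
    exact (prod_filter_mul_prod_filter_not _ _ _).symm
  rw [e2, ← mul_assoc]
  apply mul_le_mul_of_nonneg_right _ (by linarith)
  have e3 : ((Uni.WW w : ℝ) / Nat.totient (Uni.WW w)) ^ 2 = ∏ p ∈ (w + 1).primesBelow, ((1 - 1 / (p : ℝ))⁻¹) ^ 2 := by
    rw [Finset.prod_pow, Uni.totient_WW, prod_inv_distrib]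
    congr 1
    rw [div_mul_eq_div_div, div_self hW.ne', one_div]
  rw [gT_prod, e3, ← prod_mul_distrib]
  have e4 : b.primeFactors.filter (fun p => ¬ w < p) = ((w + 1).primesBelow).filter (fun p => p ∣ b) := by
    ext p
    simp only [mem_filter, Nat.mem_primeFactors, Nat.mem_primesBelow]
    constructor
    · rintro ⟨⟨a1, a2, a3⟩, a4⟩
      exact ⟨⟨by omega, a1⟩, a2⟩
    · rintro ⟨⟨a1, a2⟩, a3⟩
      exact ⟨⟨a2, a3, by omega⟩, by omega⟩
  rw [e4, prod_filter]
  have h3 := half_prod (((w + 1).primesBelow).filter (fun p => ¬ p ∣ b)) (by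
    intro p hp
    rw [mem_filter, Nat.mem_primesBelow] at hp
    have h4 := hp.1.2.two_le
    rcases Nat.lt_or_ge p 3 with h | h
    · exfalso
      apply hp.2
      have : p = 2 := by omega
      rw [this]
      exact he.two_dvd
    · exact h)
  rw [prod_filter] at h3
  have h5 : 0 ≤ ∏ p ∈ (w + 1).primesBelow, (if p ∣ b then (1 - 1 / (p : ℝ))⁻¹ else 1) := by
    apply prod_nonneg
    intro p hp
    rw [Nat.mem_primesBelow] at hp
    split_ifs
    · linarith [inv_fac_ge hp.2]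
    · exact zero_le_one
  refine (mul_le_mul_of_nonneg_right h3 h5).trans ?_
  rw [← prod_mul_distrib]
  apply Finset.prod_le_prod
  · intro p hp
    rw [Nat.mem_primesBelow] at hp
    have h4 := hp.2.two_le
    apply mul_nonneg
    · split_ifs with h
      · exact zero_le_one
      · rcases Nat.lt_or_ge p 3 with h6 | h6
        · exfalso
          apply h
          have : p = 2 := by omega
          rw [this]
          exact he.two_dvd
        · exact (fac3 h6).1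
    · split_ifs
      · linarith [inv_fac_ge hp.2]
      · exact zero_le_one
  · intro p hp
    rw [Nat.mem_primesBelow] at hp
    have hpp := hp.2
    have hfp := fac_pos hpp
    by_cases h : p ∣ b
    · have h7 : Uni.nuT {0, b} p = 1 := by
        unfold Uni.nuT
        rw [image_insert, image_singleton, Nat.zero_mod, Nat.mod_eq_zero_of_dvd h, pair_eq_singleton, card_singleton]
      rw [if_neg (not_not.2 h), if_pos h, h7, one_mul, Nat.cast_one, pow_two, mul_assoc,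
        inv_mul_cancel₀ hfp.ne', mul_one]
    · rw [if_pos h, if_neg h, mul_one]
      have hp3 : 3 ≤ p := by
        have h4 := hpp.two_le
        rcases Nat.lt_or_ge p 3 with h6 | h6
        · exfalso
          apply h
          have : p = 2 := by omega
          rw [this]
          exact he.two_dvd
        · exact h6
      have hp3R : (3 : ℝ) ≤ p := by exact_mod_cast hp3
      have h7 : (Uni.nuT {0, b} p : ℝ) ≤ 2 := by
        have h8 := nuT_le_card {0, b} p
        have h9 : ({0, b} : Finset ℕ).card ≤ 2 := card_le_two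
        exact_mod_cast h8.trans h9
      have h8 : 1 - 2 / (p : ℝ) ≤ 1 - (Uni.nuT {0, b} p : ℝ) / p := by
        apply sub_le_sub_left
        exact div_le_div_of_nonneg_right h7 (by linarith)
      have e5 : 1 - 1 / ((p : ℝ) - 1) ^ 2 = (1 - 1 / (p : ℝ))⁻¹ ^ 2 * (1 - 2 / p) := by
        have h9 : (p : ℝ) ≠ 0 := by linarith
        have h10 : (p : ℝ) - 1 ≠ 0 := by linarith
        have e6 : (1 - 1 / (p : ℝ)) = (p - 1) / p := by field_simp
        rw [e6, inv_div]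
        field_simp
        ring
      rw [e5]
      exact mul_le_mul_of_nonneg_left h8 (by positivity)

end Pool.Agent.L0h43.TG
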